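import Pool.Agent.F3.OG.Base

/-!
# Project F3, block OG, row OG-10: the absorbers of the sites
-/

set_option autoImplicit false
set_option linter.unusedSectionVars false

namespace F3.OG

open Finset NW F1 F2.O

section

variable {V : Type} [Fintype V] [DecidableEq V]

/-- an allowed decomposition is divisible, with invariants zero -/
theorem og10_dec {al : Tri V → Prop} {H : Finset (Sym2 V)} {r : ℕ} {γ : Fin r → Sym2 V → ℤ}
    (htri : ∀ T : Tri V, al T → NW.edg T.1 ⊆ H → ∀ j, ∑ e ∈ NW.edg T.1, γ j e = 0)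
    {A : Finset (Sym2 V)} (hA : DecA al A) (hAH : A ⊆ H) :
    NW.Divis A ∧ ∀ j, ∑ e ∈ A, γ j e = 0 := by
  classical
  obtain ⟨𝒯, h1, h2, rfl⟩ := hA
  refine ⟨(Dec.biUnion 𝒯 (fun T => NW.edg T.1) (fun T _ => dec_edg T.2) h2).divis, fun j => ?_⟩
  rw [sum_biUnion (fun T hT T' hT' hTT => h2 T hT T' hT' hTT)]
  refine sum_eq_zero fun T hT => htri T (h1 T hT) ?_ j
  exact (subset_biUnion_of_mem (fun T : Tri V => NW.edg T.1) hT).trans hAH

variable {H X E0 : Finset (Sym2 V)} {s Q C : ℕ} {ι σ : Type} [Fintype ι] [Fintype σ]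
  [DecidableEq ι] [DecidableEq σ] {ok : ι → σ → Prop} {xs z : σ → Finset (Sym2 V)}
  {W : ι → Finset (Sym2 V)}

/-- the edges of a site -/
noncomputable def og10_U (ok : ι → σ → Prop) (xs z : σ → Finset (Sym2 V))
    (W : ι → Finset (Sym2 V)) (t : σ) : Finset (Sym2 V) := by
  classical exact z t ∪ (xs t ∪ (univ.filter (fun i => ok i t)).biUnion W)

theorem og10_card (hI : Itm H X E0 s Q C ok xs z W) (hE0 : E0.card ≤ 1) (t : σ) :
    (vE (og10_U ok xs z W t)).card ≤ 2 * (2 + 12 * Q) := by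
  classical
  refine (vE_card _).trans (Nat.mul_le_mul_left 2 ?_)
  obtain ⟨P, hP, hP2⟩ := hI.at_le t
  unfold og10_U
  have h1 : (z t).card ≤ 1 := (card_le_card (hI.z_sub t)).trans hE0
  have h2 := hI.xs_card t
  have h3 : ((univ.filter (fun i => ok i t)).biUnion W).card ≤ 12 * Q := by
    refine card_biUnion_le.trans ?_
    calc ∑ i ∈ univ.filter (fun i => ok i t), (W i).card
        ≤ ∑ i ∈ univ.filter (fun i => ok i t), 12 := sum_le_sum fun i _ => hI.W_card i
      _ = (univ.filter (fun i => ok i t)).card * 12 := by rw [sum_const, smul_eq_mul]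
      _ ≤ P.card * 12 := by
          refine Nat.mul_le_mul_right _ (card_le_card fun i hi => hP2 i ?_)
          exact (mem_filter.1 hi).2
      _ ≤ 12 * Q := by omega
  have h4 := card_union_le (z t) (xs t ∪ (univ.filter (fun i => ok i t)).biUnion W)
  have h5 := card_union_le (xs t) ((univ.filter (fun i => ok i t)).biUnion W)
  omega

theorem og10_count (hI : Itm H X E0 s Q C ok xs z W) (hE0 : E0.card ≤ 1) (v : V) :
    (univ.filter (fun t => v ∈ vE (og10_U ok xs z W t))).card ≤
      1 + (NW.deg X v + 2 * NW.deg (univ.biUnion W) v) := by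
  classical
  have hok : ∀ i, ∃ T : Finset σ, T.card ≤ 2 ∧ ∀ t, ok i t → t ∈ T := hI.ok_le
  choose T hT1 hT2 using hok
  have h1 : univ.filter (fun t => v ∈ vE (og10_U ok xs z W t)) ⊆
      univ.filter (fun t => v ∈ vE (z t)) ∪ (univ.filter (fun t => v ∈ vE (xs t)) ∪
        (univ.filter (fun i => v ∈ vE (W i))).biUnion T) := by
    intro t ht
    rw [mem_filter] at ht
    have h2 := ht.2
    unfold og10_U at h2
    rw [vE_union, mem_union, vE_union, mem_union, vE_biUnion, mem_biUnion] at h2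
    rw [mem_union, mem_union, mem_filter, mem_filter, mem_biUnion]
    rcases h2 with h2 | h2 | ⟨i, hi, h2⟩
    · exact Or.inl ⟨mem_univ _, h2⟩
    · exact Or.inr (Or.inl ⟨mem_univ _, h2⟩)
    · exact Or.inr (Or.inr ⟨i, mem_filter.2 ⟨mem_univ _, h2⟩, hT2 i t (mem_filter.1 hi).2⟩)
  refine (card_le_card h1).trans ((card_union_le _ _).trans (Nat.add_le_add ?_
    ((card_union_le _ _).trans (Nat.add_le_add ?_ ?_))))
  · refine (count_le_deg univ z ?_ v).trans ?_
    · intro t _ t' _ htt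
      rw [disjoint_left]
      intro e he he'
      exact htt (hI.z_uniq t t' e he he')
    · refine (deg_le_card _ _).trans (le_trans (card_le_card ?_) hE0)
      intro e he
      obtain ⟨t, _, ht⟩ := mem_biUnion.1 he
      exact hI.z_sub t ht
  · refine (count_le_deg univ xs ?_ v).trans ?_
    · intro t _ t' _ htt
      rw [disjoint_left]
      intro e he he'
      exact htt (hI.xs_uniq t t' e he he')
    · apply NW.deg_mono
      intro e he
      obtain ⟨t, _, ht⟩ := mem_biUnion.1 he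
      exact hI.xs_sub t ht
  · refine card_biUnion_le.trans ?_
    calc ∑ i ∈ univ.filter (fun i => v ∈ vE (W i)), (T i).card
        ≤ ∑ i ∈ univ.filter (fun i => v ∈ vE (W i)), 2 := sum_le_sum fun i _ => hT1 i
      _ = 2 * (univ.filter (fun i => v ∈ vE (W i))).card := by
          rw [sum_const, smul_eq_mul, mul_comm]
      _ ≤ 2 * NW.deg (univ.biUnion W) v := by
          refine Nat.mul_le_mul_left 2 (count_le_deg univ W ?_ v)
          exact fun i _ j _ h => hI.W_disj i j h

/-- edges of a site -/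
theorem og10_sub (hI : Itm H X E0 s Q C ok xs z W) (hX : X ⊆ H) {t : σ} {D : Finset (Sym2 V)}
    (hD : ∀ e ∈ D, e ∈ xs t ∨ ∃ i, ok i t ∧ e ∈ W i) :
    D ⊆ H ∧ D ⊆ (vE (og10_U ok xs z W t)).sym2 := by
  classical
  constructor
  · intro e he
    rcases hD e he with h | ⟨i, _, h⟩
    · exact hX (hI.xs_sub t h)
    · exact (mem_sdiff.1 (hI.W_sub i h)).1
  · refine sub_sym2' (vE_mono ?_)
    intro e he
    unfold og10_U
    rw [mem_union, mem_union, mem_biUnion]
    rcases hD e he with h | ⟨i, hi, h⟩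
    · exact Or.inr (Or.inl h)
    · exact Or.inr (Or.inr ⟨i, mem_filter.2 ⟨mem_univ _, hi⟩, h⟩)

end

/-- OG-10 -/
theorem abo (h : EmbGStatement) : AboStatement := by
  intro Q
  refine ⟨2 * (2 + 12 * Q), ?_⟩
  intro r Cw c η hη
  obtain ⟨c₁, s₁, h₁⟩ := h (5 + 2 * Cw) c η hη
  refine ⟨c₁ + c + 1, s₁, ?_⟩
  intro V _ _ al H X E0 γ τ s ι σ _ _ _ _ ok xs z W hH hT hX hI hXd hs hCs
  classical
  set n : ℕ := Fintype.card V with hn
  have hcs : c₁ * s ≤ n := by nlinarith
  have hsn : s ≤ n := by nlinarith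
  have hE0 : E0.card ≤ 1 := by
    rcases hT with _ | ⟨e₀, _⟩
    · simp
    · simp
  obtain ⟨A, hA1, hA2, hA3⟩ := h₁ V H (X ∪ univ.biUnion W) s σ
    (fun t => vE (og10_U ok xs z W t))
    (fun t A => (NW.Divis A ∧ ∀ j, ∑ e ∈ A, γ j e = 0) ∧
      ∀ D, (∀ e ∈ D, e ∈ xs t ∨ ∃ i, ok i t ∧ e ∈ W i) → Phi γ τ (z t) D →
        DecA al (A ∪ (z t ∪ D))) hs hcs
    (fun v => by
      calc NW.deg (X ∪ univ.biUnion W) v * s
          ≤ (NW.deg X v + NW.deg (univ.biUnion W) v) * s :=
            Nat.mul_le_mul_right _ (NW.deg_union_le _ _ _)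
        _ = NW.deg X v * s + NW.deg (univ.biUnion W) v * s := by ring
        _ ≤ 4 * n + Cw * n := Nat.add_le_add (hXd v) (hI.W_deg v)
        _ = (4 + Cw) * n := by ring
        _ ≤ (5 + 2 * Cw) * n := Nat.mul_le_mul_right _ (by omega))
    (hI.σ_card.trans (Nat.mul_le_mul_right _ (by omega)))
    (fun v => by
      calc (univ.filter (fun t => v ∈ vE (og10_U ok xs z W t))).card * s
          ≤ (1 + (NW.deg X v + 2 * NW.deg (univ.biUnion W) v)) * s :=
            Nat.mul_le_mul_right _ (og10_count hI hE0 v)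
        _ = s + (NW.deg X v * s + 2 * (NW.deg (univ.biUnion W) v * s)) := by ring
        _ ≤ n + (4 * n + 2 * (Cw * n)) :=
            Nat.add_le_add hsn (Nat.add_le_add (hXd v) (Nat.mul_le_mul_left 2 (hI.W_deg v)))
        _ = (5 + 2 * Cw) * n := by ring)
    (fun t Z F hZ hF => by
      have hU := og10_card hI hE0 t
      by_cases hz : z t = ∅
      · obtain ⟨B, hB1, hB2, hB3, hB4⟩ := hH.abs Z F (vE (og10_U ok xs z W t)) hZ hF hU
        refine ⟨B, hB1, hB2, hB3, og10_dec (fun T hT1 hT2 => (hH.tri T hT1 hT2).1) hB4.dec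
          (hB1.trans sdiff_subset), ?_⟩
        intro D hD hP
        obtain ⟨hD1, hD2⟩ := og10_sub hI hX hD
        obtain ⟨hP1, hP2, hP3⟩ := hP
        rw [hz, empty_union] at hP1 hP2 ⊢
        exact hB4.abs D hD1 hD2 ⟨hP1, hP2, hP3 hz⟩
      · rcases hT with _ | ⟨e₀, he1, he2, he3, he4, he5⟩
        · exact absurd (subset_empty.1 (hI.z_sub t)) hz
        · have hz1 : z t = {e₀} := by
            rcases subset_singleton_iff.1 (hI.z_sub t) with h0 | h0
            · exact absurd h0 hz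
            · exact h0
          have he₀ : e₀ ∈ (vE (og10_U ok xs z W t)).sym2 := by
            refine sub_sym2 _ ?_
            unfold og10_U
            rw [mem_union]
            exact Or.inl (by rw [hz1]; exact mem_singleton_self _)
          obtain ⟨B, hB1, hB2, hB3, _, hB5, hB6, hB7⟩ :=
            he5 Z F (vE (og10_U ok xs z W t)) hZ hF hU he₀
          refine ⟨B, hB1, hB2, hB3, ⟨hB5, hB6⟩, ?_⟩
          intro D hD hP
          obtain ⟨hD1, hD2⟩ := og10_sub hI hX hD
          obtain ⟨hP1, hP2, _⟩ := hP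
          rw [hz1] at hP1 hP2 ⊢
          exact hB7 D hD1 hD2 hP1 hP2)
  refine ⟨A, fun t => (hA1 t).1, hA2, fun t => (hA1 t).2.1.trans (by omega),
    fun t => (hA1 t).2.2.1, fun t => (hA1 t).2.2.2, fun v => (hA3 v).trans ?_⟩
  exact Nat.mul_le_mul_right _ (by omega)

end F3.OG
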