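import Pool.Agent.F3.OG.Base

/-!
# Project F3, block OG: the assembly of the omni-absorber
-/

set_option autoImplicit false
set_option linter.unusedSectionVars false

namespace F3.OG

open Finset NW F1 F2.O

theorem Itm.mono {V : Type} [Fintype V] [DecidableEq V] {H X E0 : Finset (Sym2 V)} {s Q C C' : ℕ}
    {ι σ : Type} [Fintype ι] [Fintype σ] [DecidableEq ι] [DecidableEq σ] {ok : ι → σ → Prop}
    {xs z : σ → Finset (Sym2 V)} {W : ι → Finset (Sym2 V)} (h : Itm H X E0 s Q C ok xs z W)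
    (hC : C ≤ C') : Itm H X E0 s Q C' ok xs z W where
  W_sub := h.W_sub
  W_card := h.W_card
  W_disj := h.W_disj
  W_deg := fun v => (h.W_deg v).trans (Nat.mul_le_mul_right _ hC)
  σ_card := h.σ_card.trans (Nat.mul_le_mul_right _ hC)
  ok_le := h.ok_le
  at_le := h.at_le
  xs_sub := h.xs_sub
  xs_card := h.xs_card
  xs_ex := h.xs_ex
  xs_uniq := h.xs_uniq
  z_sub := h.z_sub
  z_ex := h.z_ex
  z_uniq := h.z_uniq

theorem Abo.mono {V : Type} [Fintype V] [DecidableEq V] {al : Tri V → Prop}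
    {H X : Finset (Sym2 V)} {r : ℕ} {γ : Fin r → Sym2 V → ℤ} {τ : Sym2 V → ZMod 4} {s C C' : ℕ}
    {ι σ : Type} [Fintype ι] [Fintype σ] [DecidableEq ι] [DecidableEq σ] {ok : ι → σ → Prop}
    {xs z : σ → Finset (Sym2 V)} {W : ι → Finset (Sym2 V)} {A : σ → Finset (Sym2 V)}
    (h : Abo al H X γ τ s C ok xs z W A) (hC : C ≤ C') : Abo al H X γ τ s C' ok xs z W A where
  A_sub := h.A_sub
  A_disj := h.A_disj
  A_card := fun t => (h.A_card t).trans hC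
  A_div := h.A_div
  A_abs := h.A_abs
  A_deg := fun v => (h.A_deg v).trans (Nat.mul_le_mul_right _ hC)

/-- the consequences of the two cases of `Tors` -/
theorem tors_cases {V : Type} [Fintype V] [DecidableEq V] {al : Tri V → Prop}
    {H E0 : Finset (Sym2 V)} {r : ℕ} {γ : Fin r → Sym2 V → ℤ} {τ : Sym2 V → ZMod 4} {η : ℝ}
    {m c : ℕ} (hH : Host al H γ τ η m c) (hT : Tors al H γ τ η m c E0) :
    (E0 = ∅ ∨ ∃ e₀ : Sym2 V, E0 = {e₀} ∧ e₀ ∉ H ∧ ¬ e₀.IsDiag) ∧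
    (∀ D, D ⊆ H → NW.Divis (E0 ∪ D) → ∀ j, 6 ∣ ∑ e ∈ E0 ∪ D, γ j e) ∧
    ((E0 = ∅ ∧ ∀ e, τ e = 0) ∨ (E0.Nonempty ∧ TokenOK H γ τ η (fun _ => 0) 2)) := by
  cases hT with
  | none h =>
    refine ⟨Or.inl rfl, fun D hD hd j => ?_, Or.inl ⟨rfl, h⟩⟩
    rw [empty_union] at hd ⊢
    exact (hH.val D hD hd).1 j
  | some e₀ h1 h2 h3 h4 h5 =>
    refine ⟨Or.inr ⟨e₀, rfl, h1, h2⟩, fun D hD hd j => ?_, Or.inr ⟨singleton_nonempty _, h4⟩⟩
    rw [← insert_eq] at hd ⊢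
    exact h3 D hD hd j

/-- the chain -/
theorem chain_ex (hEn : EnStatement) {V : Type} [Fintype V] [DecidableEq V]
    {H X E0 : Finset (Sym2 V)} {r : ℕ} {γ : Fin r → Sym2 V → ℤ} {τ : Sym2 V → ZMod 4} {η : ℝ}
    {s C : ℕ} {π σ σ' Λ : Type} [Fintype π] [Fintype σ] [Fintype σ'] [Fintype Λ] [DecidableEq π]
    [DecidableEq σ] [DecidableEq σ'] [DecidableEq Λ] (S : BSk V X E0 s C π σ)
    (N : Net σ σ' Λ) (h : (E0 = ∅ ∧ ∀ e, τ e = 0) ∨ (E0.Nonempty ∧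
      TokenOK H γ τ η (fun _ => 0) 2)) :
    ∃ (M : ℕ) (en : ℕ → σ'), M ≤ Fintype.card σ' ∧ ChainOK S N τ M en ∧
      (M = 0 ∨ TokenOK H γ τ η (fun _ => 0) 2) := by
  rcases h with ⟨-, h⟩ | ⟨⟨e₀, he⟩, h⟩
  · obtain ⟨u⟩ : Nonempty σ := Fintype.card_pos_iff.1 S.σ_ne
    exact ⟨0, fun _ => N.base u, Nat.zero_le _, Or.inl ⟨rfl, h⟩, Or.inl rfl⟩
  · obtain ⟨u, hu⟩ := S.z_ex e₀ he
    obtain ⟨en, h1, h2⟩ := hEn σ' (N.base u)
    refine ⟨Fintype.card σ' - 1, en, Nat.sub_le _ _, Or.inr ⟨h1, fun t ht => h2 t ?_⟩, Or.inr h⟩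
    rintro rfl
    have h3 : e₀ ∈ zF S N (N.base u) :=
      mem_biUnion.2 ⟨u, mem_filter.2 ⟨mem_univ _, rfl⟩, hu⟩
    rw [ht] at h3
    exact absurd h3 (notMem_empty _)

theorem og_of (hNet : NetStatement) (hEn : EnStatement) (hLog : LogStatement)
    (hCell : CellLStatement) (hBSk : BSkStatement) (hPc : PcStatement) (hTk : TkStatement)
    (hItm : ItmStatement) (hAbo : AboStatement) (hBall : BallStatement)
    (hState : StateFStatement) (hTot : TotStatement) (hFin : FinFStatement) :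
    F3.OGStatement := by
  classical
  obtain ⟨Cs, hB⟩ := hBSk
  obtain ⟨cb, hBl⟩ := hBall Cs
  obtain ⟨Cl, hLg⟩ := hLog Cs
  intro r
  obtain ⟨Q, hQ⟩ := hItm r Cs (4 * (4 * Cs + 2) + cb) cb
  obtain ⟨m, hm⟩ := hAbo Q
  refine ⟨m, fun η c hη => ?_⟩
  obtain ⟨C1, s1, hP⟩ := hPc Cs η hη
  obtain ⟨C2, s2, hT⟩ := hTk r Cs (max C1 Cl) (4 * (4 * Cs + 2) + cb) cb η hη
  obtain ⟨C4, s4, hA⟩ := hm r (max C2 Cl) c η hη
  obtain ⟨C6, hF⟩ := hFin Q (max (max C2 Cl) C4)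
  refine ⟨C1 + C2 + C4 + C6 + 36, s1 + s2 + s4 + 1, ?_⟩
  intro V _ _ al H E0 γ τ s s₁ ro co hHost hTors hG hs0 hlog hCs hAdj
  set X : Finset (Sym2 V) := F2.Xs ro co H with hXdef
  set n : ℕ := Fintype.card V with hn
  have hs1 : 1 ≤ s₁ := by omega
  have hss : s₁ ≤ s := le_trans (Nat.le_mul_of_pos_right _ (Nat.succ_pos _)) hlog
  have hcn : ∀ C, C ≤ C1 + C2 + C4 + C6 + 36 → C * s₁ ≤ n := fun C hC =>
    (Nat.mul_le_mul hC hss).trans hCs
  have hsn : s ≤ n := by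
    have : 1 * s ≤ (C1 + C2 + C4 + C6 + 36) * s := Nat.mul_le_mul_right _ (by omega)
    omega
  have hXH : X ⊆ H := filter_subset _ _
  obtain ⟨hE, hval0, htor⟩ := tors_cases hHost hTors
  have hEc : E0.card ≤ 1 := by
    rcases hE with h | ⟨e₀, h, -, -⟩ <;> simp [h]
  have hHE : Disjoint H E0 := by
    rcases hE with h | ⟨e₀, h, h', -⟩
    · simp [h]
    · simp [h, h']
  have hXE : Disjoint X E0 := disjoint_of_subset_left hXH hHE
  obtain ⟨hX4s, -⟩ := hCell V H s ro co hHost.nl hG (by omega)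
  have hX4 : ∀ v, NW.deg X v * s₁ ≤ 4 * n := fun v => (Nat.mul_le_mul_left _ hss).trans (hX4s v)
  obtain ⟨π, σ, _, _, _, _, ⟨S⟩, hσs⟩ := hB V H E0 s s₁ ro co hHost.nl hG hs1 hss hsn hE
  obtain ⟨W₀, w1, w2, w3, w4⟩ := hP V H X E0 s₁ π σ S hHost.piece hX4 (by omega)
    (hcn _ (by omega))
  have hW₀H : univ.biUnion W₀ ⊆ H := biUnion_subset.2 fun p _ => (w1 p).trans sdiff_subset
  obtain ⟨X', ball, b1, b2, b3, b4⟩ := hBl V X E0 s₁ π σ S r γ W₀ hEc (fun p => (w2 p).card_le)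
    hHost.bd (hAdj (univ.biUnion W₀ ∪ (E0 ∪ X))
      (union_subset (hW₀H.trans subset_union_left) (union_subset subset_union_right
        (hXH.trans subset_union_left)))
      (subset_union_right.trans subset_union_right)) hXE
    (fun p => by
      rw [disjoint_union_right]
      exact ⟨disjoint_of_subset_left (w1 p) sdiff_disjoint,
        disjoint_of_subset_left ((w1 p).trans sdiff_subset) hHE⟩)
  obtain ⟨σ', Λ, _, _, _, _, ⟨N⟩, n1, n2⟩ := hNet σ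
  have hσ' : Fintype.card σ' * s₁ ≤ Cl * n ^ 2 :=
    hLg n s s₁ (Fintype.card σ) (Fintype.card σ') hs1 hlog hsn hσs n1
  obtain ⟨M, en, hM, hch, htk⟩ := chain_ex (H := H) (γ := γ) (η := η) hEn S N htor
  obtain ⟨W, W1, W2, W3, W4, W5, W6⟩ := hT V H X E0 γ τ s₁ π σ σ' Λ S N M W₀ ball hHost.token
    htk hM n2 (hσ'.trans (Nat.mul_le_mul_right _ (le_max_right _ _))) hX4 w1 w2 w3
    (fun v => (w4 v).trans (Nat.mul_le_mul_right _ (le_max_left _ _))) (by omega)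
    (hcn _ (by omega))
  have hI := hQ V H X E0 τ s₁ (max C2 Cl) π σ σ' Λ S N M en W hch
    (hσ'.trans (Nat.mul_le_mul_right _ (le_max_right _ _))) W3 W4 W5
    (fun v => (W6 v).trans (Nat.mul_le_mul_right _ (le_max_left _ _)))
  obtain ⟨A, hAb⟩ := hA V al H X E0 γ τ s₁ _ _ _ _ _ W hHost hTors hXH hI hX4 (by omega)
    (hcn _ (by omega))
  have hTt := hTot V H X E0 r _ cb M γ τ π σ Λ S.gv ball W hXH hHE W3 W2 W5 b3
  have hpc : (univ.biUnion fun p => W (.pc p)) = univ.biUnion W₀ := by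
    congr 1
    funext p
    exact W1 p
  rw [hpc] at hTt
  obtain ⟨A', RT, a1, a2, a3, a4, a5, a6, a7, a8⟩ := hF V al H X E0 X' r γ τ s₁ _ _ _ _ _ W A
    hHost.nl hXH b1 hHE hEc (hss.trans hsn) hX4 (hI.mono (le_max_left _ _))
    (hAb.mono (le_max_right _ _)) (fun j => by rw [(hTt X' b1).1 j]; exact b4 j)
    (fun L hL hdiv h0 => by
      have h2 := hTt L (hL.trans b1)
      exact hState V H X E0 s₁ Cs r _ cb M γ τ π σ σ' Λ S N en ball W X' hch hXH hHE hEc b1 W3 W2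
        W5 b3 hHost.bd hHost.val hval0 le_rfl L hL (by rw [hpc]; exact h2.2 hdiv)
        (fun j => by rw [hpc, ← h2.1 j]; exact h0 j))
  have hC6 : ∀ x, C6 * x ≤ (C1 + C2 + C4 + C6 + 36) * x := fun x =>
    Nat.mul_le_mul_right _ (by omega)
  exact ⟨X', A', RT, b1, b2.trans (by omega), a1, a2, a3, fun v => (a4 v).trans (hC6 _),
    fun v => (a5 v).trans (hC6 _), fun e => (a6 e).trans (by omega), a7, a8⟩

end F3.OG
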