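import Pool.Agent.F3.OG.Base
import Pool.Agent.F2.O.Skel
import Pool.Agent.F2.O.State

/-!
# Project F3, block OG, row OG-5: the base skeleton with the special site
-/

set_option autoImplicit false
set_option linter.unusedSectionVars false

namespace F3.OG

open Finset NW F1 F2.O

section OgFive

variable {V : Type} [Fintype V] [DecidableEq V]

/-- the skeleton of F2, with a possible site for every piece -/
theorem og5_skel {X : Finset (Sym2 V)} {ℒ : Finset (F2.Lab V)} {𝒞 : Finset (Finset (F2.Lab V))}
    {can : Sym2 V → F2.Lab V} {c s : ℕ} (h : Cell X ℒ 𝒞 can c s) (hst : StateC X ℒ 𝒞 can) :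
    ∃ S : Skel V X s (100 * (c + 1)) (PcT X 𝒞) (StT ℒ 𝒞), ∀ p, ∃ t, S.ok p t := by
  have hl := sk_lab h
  refine ⟨{
    gv := gvC X 𝒞
    ok := okC X ℒ 𝒞 can
    xs := xsC X ℒ 𝒞 can
    gv_card := sk_gv h
    π_card := ?_
    σ_card := ?_
    gv_mult := ?_
    ok_le := sk_ok h
    at_le := ?_
    xs_sub := ?_
    xs_card := ?_
    xs_ex := ?_
    xs_uniq := ?_
    state := hst }, ?_⟩
  · calc Fintype.card (PcT X 𝒞) * s ≤ ((c + 2) * ℒ.card) * s :=
          Nat.mul_le_mul_right _ (sk_pc h)
      _ = (c + 2) * (ℒ.card * s) := by ring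
      _ ≤ (c + 2) * (2 * Fintype.card V ^ 2) := Nat.mul_le_mul_left _ hl
      _ = (2 * (c + 2)) * Fintype.card V ^ 2 := by ring
      _ ≤ 100 * (c + 1) * Fintype.card V ^ 2 := Nat.mul_le_mul_right _ (by omega)
  · calc Fintype.card (StT ℒ 𝒞) * s ≤ ((c + 1) * ℒ.card) * s :=
          Nat.mul_le_mul_right _ (sk_st h)
      _ = (c + 1) * (ℒ.card * s) := by ring
      _ ≤ (c + 1) * (2 * Fintype.card V ^ 2) := Nat.mul_le_mul_left _ hl
      _ = (2 * (c + 1)) * Fintype.card V ^ 2 := by ring
      _ ≤ 100 * (c + 1) * Fintype.card V ^ 2 := Nat.mul_le_mul_right _ (by omega)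
  · intro v
    calc (univ.filter (fun p => v ∈ gvC X 𝒞 p)).card * s ≤ c * (4 * Fintype.card V) :=
          sk_mult h v
      _ = (4 * c) * Fintype.card V := by ring
      _ ≤ 100 * (c + 1) * Fintype.card V := Nat.mul_le_mul_right _ (by omega)
  · intro t
    obtain ⟨P, h1, h2⟩ := sk_at h t
    exact ⟨P, by omega, h2⟩
  · intro t e he
    exact (sk_xs he).1
  · intro t
    rw [card_le_one]
    intro e he e' he'
    obtain ⟨_, h1, h2⟩ := sk_xs he
    obtain ⟨_, h3, h4⟩ := sk_xs he'
    rw [h2] at h4
    have h5 : can e = can e' := congrArg Subtype.val (Sum.inl.inj h4)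
    rw [← h.can_snd e, ← h.can_snd e', h5]
  · intro e he
    refine ⟨Sum.inl ⟨can e, h.can_mem e he⟩, ?_⟩
    have h1 : (can e).2 ∈ X ∧ can (can e).2 = can e := by
      rw [h.can_snd]
      exact ⟨he, rfl⟩
    have h2 : xsC X ℒ 𝒞 can (Sum.inl ⟨can e, h.can_mem e he⟩) =
        if (can e).2 ∈ X ∧ can (can e).2 = can e then {(can e).2} else ∅ := rfl
    rw [h2, if_pos h1, mem_singleton, h.can_snd]
  · intro t t' e he he'
    obtain ⟨_, h1, h2⟩ := sk_xs he
    obtain ⟨_, h3, h4⟩ := sk_xs he'
    rw [h2, h4]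
  · intro p
    rcases p with x | x
    · exact ⟨Sum.inl ⟨x.1.1, h.sub _ x.2.1 x.2.2⟩, rfl⟩
    · exact ⟨Sum.inl ⟨can (xe X x.1), h.can_mem _ (X.equivFin.symm x.1).2⟩, Or.inl rfl⟩

/-- the skeleton with a special site and a few more pieces -/
theorem og5_gen {X E0 : Finset (Sym2 V)} {s s₁ C0 : ℕ} {π σ κ : Type} [Fintype π] [Fintype σ]
    [Fintype κ] [DecidableEq π] [DecidableEq σ] [DecidableEq κ] (S : Skel V X s C0 π σ)
    (hok : ∀ p, ∃ t, S.ok p t) (hX : Disjoint X E0) (gx : κ → Finset V)
    (hgx : ∀ i, gx i = ∅ ∨ (gx i).card = 2) (hκ : Fintype.card κ ≤ 3) (hs₁ : s₁ ≤ s)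
    (hs : s ≤ Fintype.card V)
    (hdiv : ∀ W : κ → Finset (Sym2 V), (∀ i, Piece (gx i) (W i)) →
      (∀ i j, i ≠ j → Disjoint (W i) (W j)) → (∀ i, Disjoint (W i) E0) →
      NW.Divis (E0 ∪ univ.biUnion W)) :
    Nonempty (BSk V X E0 s₁ (C0 + 4) (π ⊕ κ) (Option σ)) := by
  classical
  have hsV : s₁ ≤ Fintype.card V ^ 2 := by nlinarith
  refine ⟨{
    gv := Sum.elim S.gv gx
    ok := fun p t => Sum.elim (fun q => ∃ u, t = some u ∧ S.ok q u) (fun _ => t = none) p
    xs := fun t => t.elim ∅ S.xs
    z := fun t => t.elim E0 (fun _ => ∅)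
    gv_card := ?_
    π_card := ?_
    σ_card := ?_
    σ_ne := ?_
    gv_mult := ?_
    ok_ex := ?_
    ok_le := ?_
    at_le := ?_
    xs_sub := ?_
    xs_card := ?_
    xs_ex := ?_
    xs_uniq := ?_
    z_sub := ?_
    z_ex := ?_
    z_uniq := ?_
    state := ?_ }⟩
  · rintro (p | i)
    · exact S.gv_card p
    · exact hgx i
  · have h1 := (Nat.mul_le_mul_left (Fintype.card π) hs₁).trans S.π_card
    rw [Fintype.card_sum]
    nlinarith
  · have h1 := (Nat.mul_le_mul_left (Fintype.card σ) hs₁).trans S.σ_card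
    rw [Fintype.card_option]
    nlinarith
  · rw [Fintype.card_option]
    omega
  · intro v
    have h1 := (Nat.mul_le_mul_left (univ.filter (fun p => v ∈ S.gv p)).card hs₁).trans
      (S.gv_mult v)
    have h2 : (univ.filter (fun p : π ⊕ κ => v ∈ Sum.elim S.gv gx p)).card ≤
        (univ.filter (fun p => v ∈ S.gv p)).card + 3 := by
      rw [sk_sum]
      refine Nat.add_le_add le_rfl ?_
      exact (card_le_univ _).trans hκ
    nlinarith
  · rintro (p | i)
    · obtain ⟨t, ht⟩ := hok p
      exact ⟨some t, t, rfl, ht⟩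
    · exact ⟨none, rfl⟩
  · rintro (p | i)
    · obtain ⟨T, h1, h2⟩ := S.ok_le p
      refine ⟨T.image some, card_image_le.trans h1, ?_⟩
      rintro t ⟨u, rfl, hu⟩
      exact mem_image_of_mem _ (h2 u hu)
    · refine ⟨{none}, by simp, ?_⟩
      intro t ht
      exact mem_singleton.2 ht
  · rintro (_ | t)
    · refine ⟨univ.image Sum.inr, card_image_le.trans ?_, ?_⟩
      · rw [card_univ]
        omega
      · rintro (p | i) hp
        · obtain ⟨u, hu, _⟩ := hp
          exact absurd hu (by simp)
        · exact mem_image_of_mem _ (mem_univ _)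
    · obtain ⟨P, h1, h2⟩ := S.at_le t
      refine ⟨P.image Sum.inl, card_image_le.trans (by omega), ?_⟩
      rintro (p | i) hp
      · obtain ⟨u, hu, hp⟩ := hp
        have h3 : t = u := Option.some.inj hu
        subst h3
        exact mem_image_of_mem _ (h2 p hp)
      · exact absurd hp (by simp)
  · rintro (_ | t)
    · exact empty_subset _
    · exact S.xs_sub t
  · rintro (_ | t)
    · exact Nat.zero_le _
    · exact S.xs_card t
  · intro e he
    obtain ⟨t, ht⟩ := S.xs_ex e he
    exact ⟨some t, ht⟩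
  · rintro (_ | t) (_ | t') e he he'
    · rfl
    · exact absurd he (notMem_empty _)
    · exact absurd he' (notMem_empty _)
    · exact congrArg some (S.xs_uniq t t' e he he')
  · rintro (_ | t)
    · exact subset_rfl
    · exact empty_subset _
  · intro e he
    exact ⟨none, he⟩
  · rintro (_ | t) (_ | t') e he he'
    · rfl
    · exact absurd he' (notMem_empty _)
    · exact absurd he (notMem_empty _)
    · exact absurd he (notMem_empty _)
  · intro W hW hWd hWX L hL hD
    have hx : Disjoint (univ.biUnion (fun p => W (Sum.inl p)) ∪ L)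
        (E0 ∪ univ.biUnion (fun i => W (Sum.inr i))) := by
      rw [disjoint_left]
      intro e he he'
      rcases mem_union.1 he with h | h
      · obtain ⟨p, _, hp⟩ := mem_biUnion.1 h
        rcases mem_union.1 he' with h' | h'
        · exact disjoint_left.1 (hWX (Sum.inl p)) hp (mem_union_right _ h')
        · obtain ⟨i, _, hi⟩ := mem_biUnion.1 h'
          exact disjoint_left.1 (hWd (Sum.inl p) (Sum.inr i) (by simp)) hp hi
      · rcases mem_union.1 he' with h' | h'
        · exact disjoint_left.1 hX (hL h) h'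
        · obtain ⟨i, _, hi⟩ := mem_biUnion.1 h'
          exact disjoint_left.1 (hWX (Sum.inr i)) hi (mem_union_left _ (hL h))
    have hd3 : NW.Divis (E0 ∪ univ.biUnion (fun i => W (Sum.inr i))) := by
      apply hdiv
      · intro i
        exact hW (Sum.inr i)
      · intro i j hij
        exact hWd _ _ (fun h => hij (Sum.inr.inj h))
      · intro i
        exact disjoint_of_subset_right subset_union_right (hWX (Sum.inr i))
    have hset : univ.biUnion W ∪ (E0 ∪ L) = (univ.biUnion (fun p => W (Sum.inl p)) ∪ L) ∪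
        (E0 ∪ univ.biUnion (fun i => W (Sum.inr i))) := by
      ext e
      simp only [mem_union, mem_biUnion, mem_univ, true_and, Sum.exists]
      tauto
    rw [hset] at hD
    obtain ⟨loc, h1, h2⟩ := S.state (fun p => W (Sum.inl p)) (fun p => hW (Sum.inl p))
      (fun p q hpq => hWd _ _ (fun h => hpq (Sum.inl.inj h)))
      (fun p => disjoint_of_subset_right subset_union_left (hWX (Sum.inl p))) L hL
      (divis_of_union hD hd3 hx)
    refine ⟨Sum.elim (fun p => some (loc p)) (fun _ => none), ?_, ?_⟩
    · rintro (p | i)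
      · exact ⟨loc p, rfl, h1 p⟩
      · exact rfl
    · rintro (_ | t)
      · convert hd3 using 1
        unfold siteD
        ext e
        simp only [mem_union, mem_biUnion, mem_filter, mem_univ, true_and, Sum.exists,
          Sum.elim_inl, Sum.elim_inr, Option.elim, mem_inter, notMem_empty, and_false, or_false,
          reduceCtorEq, false_and, exists_false, false_or]
      · convert h2 t using 1
        unfold siteD
        ext e
        simp only [mem_union, mem_biUnion, mem_filter, mem_univ, true_and, Sum.exists,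
          Sum.elim_inl, Sum.elim_inr, Option.elim, mem_inter, notMem_empty, or_false,
          reduceCtorEq, false_and, exists_false, false_or, Option.some.injEq]

/-- the special edge with its three pieces -/
theorem og5_div {e₀ : Sym2 V} (he : ¬ e₀.IsDiag) (W : Fin 3 → Finset (Sym2 V))
    (hW : ∀ i, Piece (if i = 0 then univ.filter (fun v => v ∈ e₀) else ∅) (W i))
    (hd : ∀ i j, i ≠ j → Disjoint (W i) (W j)) (hE : ∀ i, Disjoint (W i) {e₀}) :
    NW.Divis ({e₀} ∪ univ.biUnion W) := by
  classical
  have hdd : Disjoint ({e₀} : Finset (Sym2 V)) (univ.biUnion W) := by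
    rw [disjoint_biUnion_right]
    intro i _
    exact (hE i).symm
  have hne : univ.filter (fun v => v ∈ e₀) ≠ ∅ := by
    intro h
    have h1 := sk_ends he
    rw [h, card_empty] at h1
    omega
  refine ⟨?_, ?_, ?_⟩
  · intro e h
    rcases mem_union.1 h with h | h
    · rw [mem_singleton.1 h]
      exact he
    · obtain ⟨i, _, hi⟩ := mem_biUnion.1 h
      exact (hW i).nl e hi
  · intro v
    rw [deg_union hdd, Nat.even_add, even_deg_iff univ _ W (fun i _ => hW i)
      (fun i _ j _ hij => hd i j hij) v, ← card_inc]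
    by_cases hv : v ∈ e₀
    · have h1 : (({e₀} : Finset (Sym2 V)).filter (fun d => v ∈ d)) = {e₀} := by
        ext d
        simp only [mem_filter, mem_singleton]
        constructor
        · exact fun h => h.1
        · rintro rfl
          exact ⟨rfl, hv⟩
      have h2 : (univ.filter (fun i : Fin 3 => v ∈ (if i = 0 then univ.filter (fun v => v ∈ e₀)
          else ∅ : Finset V))) = {0} := by
        ext i
        by_cases hi : i = 0
        · simp [hi, hv]
        · simp [hi]
      rw [h1, h2, card_singleton, card_singleton]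
    · have h1 : (({e₀} : Finset (Sym2 V)).filter (fun d => v ∈ d)) = ∅ := by
        rw [filter_eq_empty_iff]
        intro d hd'
        rw [mem_singleton.1 hd']
        exact hv
      have h2 : (univ.filter (fun i : Fin 3 => v ∈ (if i = 0 then univ.filter (fun v => v ∈ e₀)
          else ∅ : Finset V))) = ∅ := by
        rw [filter_eq_empty_iff]
        intro i _
        by_cases hi : i = 0
        · simp [hi, hv]
        · simp [hi]
      rw [h1, h2, card_empty, card_empty]
  · rw [card_union_of_disjoint hdd, card_singleton, card_biUnion (fun i _ j _ hij => hd i j hij),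
      Fin.sum_univ_three]
    have h0 := (hW 0).card3 (by simpa using hne)
    have h1 := (hW 1).card4 (by simp)
    have h2 := (hW 2).card4 (by simp)
    rw [h0, h1, h2]
    exact ⟨4, rfl⟩

end OgFive

theorem bsk (h : CellLStatement) : BSkStatement := by
  refine ⟨100 * (32 + 1) + 4, ?_⟩
  intro V _ _ H E0 s s₁ ro co hNL hG h1 hs₁ hs hE
  have hV : 1 ≤ Fintype.card V := h1.trans (hs₁.trans hs)
  obtain ⟨_, 𝒞, can, hC⟩ := h V H s ro co hNL hG hV
  obtain ⟨S, hok⟩ := og5_skel hC (state V _ _ _ _ _ _ hC)
  have hcard : Fintype.card (Option (StT (labs ro co) 𝒞)) * s ≤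
      (100 * (32 + 1) + 4) * Fintype.card V ^ 2 := by
    have h2 := S.σ_card
    rw [Fintype.card_option]
    nlinarith
  rcases hE with hE | ⟨e₀, hE, he, hed⟩
  · subst hE
    refine ⟨_, _, _, _, _, _, og5_gen (κ := Fin 0) S hok (disjoint_empty_right _) (fun _ => ∅)
      (fun _ => Or.inl rfl) (by rw [Fintype.card_fin]; omega) hs₁ hs ?_, hcard⟩
    intro W _ _ _
    have h3 : (∅ : Finset (Sym2 V)) ∪ univ.biUnion W = ∅ := by
      rw [empty_union, univ_eq_empty, biUnion_empty]
    rw [h3]
    exact divis_empty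
  · subst hE
    refine ⟨_, _, _, _, _, _, og5_gen (κ := Fin 3) S hok ?_
      (fun i => if i = 0 then univ.filter (fun v => v ∈ e₀) else ∅) ?_
      (by rw [Fintype.card_fin]) hs₁ hs ?_, hcard⟩
    · rw [disjoint_singleton_right]
      intro h3
      exact he (mem_filter.1 h3).1
    · intro i
      split_ifs
      · exact Or.inr (sk_ends hed)
      · exact Or.inl rfl
    · intro W hW hd hE
      exact og5_div hed W hW hd hE

end F3.OG
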