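import Pool.Agent.F3.OG.Base

/-!
# Project F3, block OG, row OG-11: deletion of a few reserve edges and the ballast
-/

set_option autoImplicit false
set_option linter.unusedSectionVars false

namespace F3.OG

open Finset NW F1 F2.O

/-- distribution of an integer over a finite set -/
private theorem og11_dist {σ : Type} [DecidableEq σ] (c : ℤ) (hc : 0 ≤ c) (s : Finset σ) :
    ∀ T : ℤ, |T| ≤ c * s.card → ∃ f : σ → ℤ, (∀ u, |f u| ≤ c) ∧ ∑ u ∈ s, f u = T := by
  induction s using Finset.induction_on with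
  | empty =>
    intro T hT
    rw [card_empty, Nat.cast_zero, mul_zero] at hT
    refine ⟨fun _ => 0, fun _ => by simpa using hc, ?_⟩
    rw [sum_empty]
    exact (abs_nonpos_iff.1 hT).symm
  | insert a s ha ih =>
    intro T hT
    rw [card_insert_of_notMem ha] at hT
    push_cast at hT
    have hcs : 0 ≤ c * (s.card : ℤ) := mul_nonneg hc (by positivity)
    have key : ∃ t : ℤ, |t| ≤ c ∧ |T - t| ≤ c * s.card := by
      rw [abs_le] at hT
      rcases lt_or_ge c T with h | h
      · refine ⟨c, by rw [abs_of_nonneg hc], ?_⟩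
        rw [abs_le]
        constructor <;> linarith
      · rcases lt_or_ge T (-c) with h' | h'
        · refine ⟨-c, by rw [abs_neg, abs_of_nonneg hc], ?_⟩
          rw [abs_le]
          constructor <;> linarith
        · refine ⟨T, abs_le.2 ⟨h', h⟩, ?_⟩
          rw [sub_self, abs_zero]
          exact hcs
    obtain ⟨t, ht, hr⟩ := key
    obtain ⟨f, hf1, hf2⟩ := ih (T - t) hr
    refine ⟨Function.update f a t, fun u => ?_, ?_⟩
    · by_cases hu : u = a
      · rw [hu, Function.update_self]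
        exact ht
      · rw [Function.update_of_ne hu]
        exact hf1 u
    · rw [sum_insert ha, Function.update_self,
        sum_congr rfl fun u hu => Function.update_of_ne (ne_of_mem_of_not_mem hu ha) _ _, hf2]
      ring

/-- the number of pieces -/
private theorem og11_pi {V : Type} [Fintype V] [DecidableEq V] {X E0 : Finset (Sym2 V)} {s C : ℕ}
    {π σ : Type} [Fintype π] [Fintype σ] [DecidableEq π] [DecidableEq σ]
    (S : BSk V X E0 s C π σ) : Fintype.card π ≤ C * Fintype.card σ := by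
  classical
  choose P hP1 hP2 using S.at_le
  have h1 : (univ : Finset π) ⊆ (univ : Finset σ).biUnion P := by
    intro p _
    obtain ⟨t, ht⟩ := S.ok_ex p
    exact mem_biUnion.2 ⟨t, mem_univ _, hP2 t p ht⟩
  have h2 := (card_le_card h1).trans (card_biUnion_le_card_mul univ P C fun t _ => hP1 t)
  rw [card_univ, card_univ, mul_comm] at h2
  exact h2

/-- the number of reserve edges -/
private theorem og11_X {V : Type} [Fintype V] [DecidableEq V] {X E0 : Finset (Sym2 V)} {s C : ℕ}
    {π σ : Type} [Fintype π] [Fintype σ] [DecidableEq π] [DecidableEq σ]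
    (S : BSk V X E0 s C π σ) : X.card ≤ Fintype.card σ := by
  have h1 : X ⊆ (univ : Finset σ).biUnion S.xs := by
    intro e he
    obtain ⟨t, ht⟩ := S.xs_ex e he
    exact mem_biUnion.2 ⟨t, mem_univ _, ht⟩
  have h2 := (card_le_card h1).trans (card_biUnion_le_card_mul univ S.xs 1 fun t _ => S.xs_card t)
  rwa [card_univ, mul_one] at h2

/-- **Row OG-11.** -/
theorem ball_st : BallStatement := by
  intro C
  refine ⟨4 * (4 * C + 2), ?_⟩
  intro V _ _ X E0 s π σ _ _ _ _ S r γ W hE hW hγ hR hXE hWX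
  obtain ⟨R, hRX, hRc, hdiv⟩ := hR
  have hU : univ.biUnion W ∪ (E0 ∪ (X \ R)) = (univ.biUnion W ∪ (E0 ∪ X)) \ R := by
    ext e
    simp only [mem_union, mem_sdiff]
    constructor
    · rintro (h | h | ⟨h, h'⟩)
      · refine ⟨Or.inl h, fun hr => ?_⟩
        obtain ⟨p, -, hp⟩ := mem_biUnion.1 h
        exact disjoint_left.1 (hWX p) hp (mem_union_left _ (hRX hr))
      · exact ⟨Or.inr (Or.inl h), fun hr => disjoint_left.1 hXE (hRX hr) h⟩
      · exact ⟨Or.inr (Or.inr h), h'⟩
    · rintro ⟨h | h | h, h'⟩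
      · exact Or.inl h
      · exact Or.inr (Or.inl h)
      · exact Or.inr (Or.inr ⟨h, h'⟩)
  have h1 := og11_pi S
  have h2 := og11_X S
  have h3 := S.σ_ne
  have hcard : (univ.biUnion W ∪ (E0 ∪ (X \ R))).card ≤ (4 * C + 2) * Fintype.card σ := by
    have a1 : (univ.biUnion W).card ≤ Fintype.card π * 4 :=
      card_biUnion_le_card_mul univ W 4 fun p _ => hW p
    have a2 : (X \ R).card ≤ X.card := card_le_card sdiff_subset
    have a3 := card_union_le (univ.biUnion W) (E0 ∪ (X \ R))
    have a4 := card_union_le E0 (X \ R)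
    nlinarith
  have hT : ∀ j : Fin r, ∃ f : σ → ℤ, (∀ u, |f u| ≤ ((4 * (4 * C + 2) : ℕ) : ℤ)) ∧
      ∑ e ∈ univ.biUnion W ∪ (E0 ∪ (X \ R)), γ j e + 6 * ∑ u, f u = 0 := by
    intro j
    obtain ⟨t, ht⟩ := hdiv j
    rw [← hU] at ht
    have b1 : |∑ e ∈ univ.biUnion W ∪ (E0 ∪ (X \ R)), γ j e| ≤
        4 * ((4 * C + 2) * Fintype.card σ : ℕ) := by
      refine (abs_sum_le_sum_abs _ _).trans ?_
      refine (sum_le_card_nsmul _ _ 4 fun e _ => hγ j e).trans ?_
      rw [nsmul_eq_mul, mul_comm]
      exact mul_le_mul_of_nonneg_left (by exact_mod_cast hcard) (by norm_num)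
    have b2 : |-t| ≤ ((4 * (4 * C + 2) : ℕ) : ℤ) * (univ : Finset σ).card := by
      rw [ht, abs_mul, abs_of_pos (by norm_num : (0 : ℤ) < 6)] at b1
      rw [abs_neg, card_univ]
      push_cast at b1 ⊢
      have b3 := abs_nonneg t
      nlinarith
    obtain ⟨f, f1, f2⟩ := og11_dist _ (by positivity) univ (-t) b2
    refine ⟨f, f1, ?_⟩
    rw [ht, f2]
    ring
  choose f hf1 hf2 using hT
  refine ⟨X \ R, fun u j => f j u, sdiff_subset, ?_, fun u j => hf1 j u, fun j => hf2 j⟩
  rw [Finset.sdiff_sdiff_eq_self hRX]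
  exact hRc

end F3.OG
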