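import Pool.Agent.F3.OG.Base
import Pool.Agent.F2.O.CellG

/-!
# Project F3, block OG, row OG-4: the cells of a grid
-/

set_option autoImplicit false
set_option linter.unusedSectionVars false

namespace F3.OG

open Finset NW F1 F2.O

theorem og4_deg_Xs {V : Type} [Fintype V] [DecidableEq V] (H : Finset (Sym2 V)) {s : ℕ}
    {ro co : V → ℕ} (hG : GridS V s ro co) (v : V) :
    NW.deg (F2.Xs ro co H) v * s ≤ 4 * Fintype.card V := by
  have h1 : NW.nbr (F2.Xs ro co H) v ⊆ F2.Rw ro (ro v) ∪ F2.Rw co (co v) := by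
    intro u hu
    rw [NW.mem_nbr] at hu
    unfold F2.Xs at hu
    rw [Finset.mem_filter] at hu
    obtain ⟨-, a, b, hab, h⟩ := hu
    rw [Sym2.eq_iff] at hab
    rw [Finset.mem_union]
    unfold F2.Rw
    rw [Finset.mem_filter, Finset.mem_filter]
    rcases hab with ⟨rfl, rfl⟩ | ⟨rfl, rfl⟩
    · rcases h with h | h
      · exact Or.inl ⟨Finset.mem_univ _, h.symm⟩
      · exact Or.inr ⟨Finset.mem_univ _, h.symm⟩
    · rcases h with h | h
      · exact Or.inl ⟨Finset.mem_univ _, h⟩
      · exact Or.inr ⟨Finset.mem_univ _, h⟩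
  have h2 : NW.deg (F2.Xs ro co H) v ≤ (F2.Rw ro (ro v)).card + (F2.Rw co (co v)).card :=
    (Finset.card_le_card h1).trans (Finset.card_union_le _ _)
  calc NW.deg (F2.Xs ro co H) v * s
      ≤ ((F2.Rw ro (ro v)).card + (F2.Rw co (co v)).card) * s := Nat.mul_le_mul_right _ h2
    _ = (F2.Rw ro (ro v)).card * s + (F2.Rw co (co v)).card * s := Nat.add_mul _ _ _
    _ ≤ 2 * Fintype.card V + 2 * Fintype.card V := Nat.add_le_add (hG.row _) (hG.col _)
    _ = 4 * Fintype.card V := by ring

/-- row OG-4 -/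
theorem cellL : CellLStatement := by
  classical
  intro V _ _ E s ro co hE hG hV
  refine ⟨fun v => og4_deg_Xs E hG v, ?_⟩
  have hNV : Nonempty V := Fintype.card_pos_iff.1 (by omega)
  have hne := hG.ne
  let w : ℕ → ℕ → V := fun x y =>
    if h : (F2.Pt ro co x y).Nonempty then h.choose else Classical.arbitrary V
  have hw : ∀ x y, x < s → y < s → ro (w x y) = x ∧ co (w x y) = y := by
    intro x y hx hy
    have h1 := hne x hx y hy
    have h2 : w x y = h1.choose := dif_pos h1
    have h3 := h1.choose_spec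
    rw [← h2] at h3
    exact (mem_filter.1 h3).2
  refine ⟨F2.allCells ro co s w, cgCan ro, ?_⟩
  refine
    { nl := hE.mono (filter_subset _ _)
      nd := fun f hf => (cg_mem_labs.1 hf).1
      can_mem := fun e he => cg_can_mem hE he
      can_snd := fun e => rfl
      sub := fun C hC => cg_sub hw hC
      ne := ?_
      card4 := ?_
      even := ?_
      mult := fun f => cg_mult hw f
      span := ?_
      ldeg := ?_ }
  · intro C hC
    rcases cg_cases hC with ⟨x, i, j, hx, hij, hj, rfl⟩ | ⟨x, i, j, hx, hij, hj, rfl⟩ |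
      ⟨x, y, i, hx, hy, hi, rfl⟩ | ⟨x, y, hx, hy, rfl⟩
    · exact cg_row_ne _ _ _ _
    · exact cg_row_ne _ _ _ _
    · exact insert_nonempty _ _
    · exact insert_nonempty _ _
  · intro C hC
    rcases cg_cases hC with ⟨x, i, j, hx, hij, hj, rfl⟩ | ⟨x, i, j, hx, hij, hj, rfl⟩ |
      ⟨x, y, i, hx, hy, hi, rfl⟩ | ⟨x, y, hx, hy, rfl⟩
    · exact cg_row_card _ _ _ _
    · exact cg_row_card _ _ _ _
    · exact card_le_two.trans (by norm_num)
    · exact card_le_four
  · intro C hC v
    rcases cg_cases hC with ⟨x, i, j, hx, hij, hj, rfl⟩ | ⟨x, i, j, hx, hij, hj, rfl⟩ |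
      ⟨x, y, i, hx, hy, hi, rfl⟩ | ⟨x, y, hx, hy, rfl⟩
    · exact cg_row_even _ (fun i j hi hj h => F2.en_inj hi hj h) hij hj v
    · exact cg_row_even _ (fun i j hi hj h => F2.en_inj hi hj h) hij hj v
    · refine cg_two_even (fun h => ?_) v
      have := F2.en_inj (by omega) (by omega) h
      omega
    · exact cg_grid_even hw hx hy v
  · intro ℓ hℓ he
    exact F2.span_cells s ro co hG.ro_lt hG.co_lt w hw ℓ (fun f hf => cg_mem_labs.1 (hℓ hf)) he
  · intro v
    have h1 := cg_ldeg ro co v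
    have h2 := hG.row (ro v)
    have h3 := hG.col (co v)
    calc ((labs ro co).filter (fun f => v ∈ f.2)).card * s
        ≤ ((F2.Rw ro (ro v)).card + (F2.Rw co (co v)).card) * s := Nat.mul_le_mul_right _ h1
      _ = (F2.Rw ro (ro v)).card * s + (F2.Rw co (co v)).card * s := by ring
      _ ≤ 4 * Fintype.card V := by omega

end F3.OG
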