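import Pool.Agent.F3.OG.Base

/-!
# Project F3, block OG, row OG-3: three small statements
-/

set_option autoImplicit false
set_option linter.unusedSectionVars false

namespace F3.OG

open Finset NW F1 F2.O

/-! ### The chain -/

/-- `og3_b v i = true` iff the token `i` moves to the site `i + 1` -/
def og3_b (v : ℕ → ZMod 4) : ℕ → Bool
  | 0 => !decide (v 0 = 2)
  | i + 1 => !decide (v (i + 1) + (if og3_b v i = true then 2 else 0) = 2)

theorem og3_zero (v : ℕ → ZMod 4) (h : v 0 = 0 ∨ v 0 = 2) :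
    v 0 + (if og3_b v 0 = true then (0 : ZMod 4) else 2) = 0 := by
  have e : og3_b v 0 = !decide (v 0 = 2) := rfl
  rw [e]
  rcases h with h | h
  · rw [h]
    decide
  · rw [h]
    decide

theorem og3_succ (v : ℕ → ZMod 4) (i : ℕ) (h : v (i + 1) = 0 ∨ v (i + 1) = 2) :
    v (i + 1) + ((if og3_b v i = true then (2 : ZMod 4) else 0) +
      (if og3_b v (i + 1) = true then (0 : ZMod 4) else 2)) = 0 := by
  have e : og3_b v (i + 1) = !decide (v (i + 1) + (if og3_b v i = true then 2 else 0) = 2) := rfl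
  rw [e]
  generalize og3_b v i = c
  rcases h with h | h
  · rw [h]
    cases c <;> decide
  · rw [h]
    cases c <;> decide

theorem og3_sum_zero (b : ℕ → Bool) (M : ℕ) (hM : 0 < M) :
    ∑ k ∈ range M, (if k + (if b k = true then 1 else 0) = 0 then (2 : ZMod 4) else 0) =
      if b 0 = true then 0 else 2 := by
  rw [Finset.sum_eq_single_of_mem 0 (Finset.mem_range.2 hM)]
  · cases b 0 <;> rfl
  · intro k _ hk
    rw [if_neg]
    omega

theorem og3_sum_succ (b : ℕ → Bool) (M i : ℕ) (hM : i + 1 < M) :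
    ∑ k ∈ range M, (if k + (if b k = true then 1 else 0) = i + 1 then (2 : ZMod 4) else 0) =
      (if b i = true then 2 else 0) + (if b (i + 1) = true then 0 else 2) := by
  rw [Finset.sum_eq_add_of_mem i (i + 1) (Finset.mem_range.2 (by omega)) (Finset.mem_range.2 hM)
    (by omega)]
  · congr 1
    · cases h : b i
      · simp
      · simp
    · cases h : b (i + 1)
      · simp
      · simp
  · rintro k _ ⟨h1, h2⟩
    rw [if_neg]
    split_ifs <;> omega

theorem chain : ChainStatement := by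
  intro M v hv
  refine ⟨fun k => og3_b v k, fun i hi => ?_⟩
  have h1 : ∑ k ∈ univ.filter (fun k : Fin M =>
      (k : ℕ) + (if og3_b v k = true then 1 else 0) = i), (2 : ZMod 4) =
      ∑ k ∈ range M, (if k + (if og3_b v k = true then 1 else 0) = i then (2 : ZMod 4) else 0) := by
    rw [Finset.sum_filter, Finset.sum_range]
  rw [h1]
  cases i with
  | zero =>
    rw [og3_sum_zero _ M hi]
    exact og3_zero v (hv 0)
  | succ i =>
    rw [og3_sum_succ _ M i hi]
    exact og3_succ v i (hv (i + 1))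

/-! ### The enumeration -/

theorem en_st : EnStatement := by
  intro σ' _ _ t
  have hc : Fintype.card {x : σ' // x ≠ t} = Fintype.card σ' - 1 := by
    rw [Fintype.card_subtype, Finset.filter_ne', Finset.card_erase_of_mem (Finset.mem_univ t),
      Finset.card_univ]
  let e := Fintype.equivFinOfCardEq hc
  refine ⟨fun i => if h : i < Fintype.card σ' - 1 then (e.symm ⟨i, h⟩ : σ') else t, ?_, ?_⟩
  · intro i j hi hj hij
    by_cases h1 : i < Fintype.card σ' - 1
    · by_cases h2 : j < Fintype.card σ' - 1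
      · simp only [dif_pos h1, dif_pos h2] at hij
        have h3 := e.symm.injective (Subtype.ext hij)
        exact congrArg Fin.val h3
      · simp only [dif_pos h1, dif_neg h2] at hij
        exact absurd hij (e.symm ⟨i, h1⟩).2
    · by_cases h2 : j < Fintype.card σ' - 1
      · simp only [dif_neg h1, dif_pos h2] at hij
        exact absurd hij.symm (e.symm ⟨j, h2⟩).2
      · omega
  · intro t' ht'
    refine ⟨(e ⟨t', ht'⟩ : ℕ), (e ⟨t', ht'⟩).2, ?_⟩
    have h1 : (e ⟨t', ht'⟩ : ℕ) < Fintype.card σ' - 1 := (e ⟨t', ht'⟩).2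
    show (if h : (e ⟨t', ht'⟩ : ℕ) < Fintype.card σ' - 1 then
      (e.symm ⟨(e ⟨t', ht'⟩ : ℕ), h⟩ : σ') else t) = t'
    rw [dif_pos h1, Fin.eta, Equiv.symm_apply_apply]

/-! ### The size of the network -/

theorem log_st : LogStatement := by
  intro C
  refine ⟨2 * (Nat.log 2 (C + 1) + 4) * (C + 1), ?_⟩
  intro n s s₁ a b h1 h2 h3 h4 h5
  have hs : 1 ≤ s := le_trans h1 (le_trans (Nat.le_mul_of_pos_right _ (by omega)) h2)
  have hn : 1 ≤ n := hs.trans h3
  have ha : a + 1 ≤ (C + 1) * n ^ 2 := by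
    have h6 : a ≤ a * s := Nat.le_mul_of_pos_right _ hs
    have h7 : 1 ≤ n ^ 2 := Nat.one_le_pow _ _ hn
    calc a + 1 ≤ C * n ^ 2 + n ^ 2 := by omega
      _ = (C + 1) * n ^ 2 := by ring
  have hC : C + 1 < 2 ^ (Nat.log 2 (C + 1) + 1) := Nat.lt_pow_succ_log_self (by norm_num) _
  have hN : n < 2 ^ (Nat.log 2 n + 1) := Nat.lt_pow_succ_log_self (by norm_num) _
  have hN2 : n ^ 2 ≤ 2 ^ (2 * (Nat.log 2 n + 1)) := by
    calc n ^ 2 ≤ (2 ^ (Nat.log 2 n + 1)) ^ 2 := Nat.pow_le_pow_left hN.le 2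
      _ = 2 ^ (2 * (Nat.log 2 n + 1)) := by rw [← pow_mul, mul_comm]
  have hlt : a + 1 < 2 ^ (Nat.log 2 (C + 1) + 1 + 2 * (Nat.log 2 n + 1)) := by
    calc a + 1 ≤ (C + 1) * n ^ 2 := ha
      _ < 2 ^ (Nat.log 2 (C + 1) + 1) * n ^ 2 :=
        Nat.mul_lt_mul_of_pos_right hC (by positivity)
      _ ≤ 2 ^ (Nat.log 2 (C + 1) + 1) * 2 ^ (2 * (Nat.log 2 n + 1)) :=
        Nat.mul_le_mul_left _ hN2
      _ = 2 ^ (Nat.log 2 (C + 1) + 1 + 2 * (Nat.log 2 n + 1)) := by rw [← pow_add]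
  have hlog : Nat.log 2 (a + 1) < Nat.log 2 (C + 1) + 1 + 2 * (Nat.log 2 n + 1) :=
    Nat.log_lt_of_lt_pow (by omega) hlt
  have hK : Nat.log 2 (a + 1) + 2 ≤ (Nat.log 2 (C + 1) + 4) * (Nat.log 2 n + 1) := by
    nlinarith [Nat.zero_le (Nat.log 2 (C + 1)), Nat.zero_le (Nat.log 2 n),
      Nat.zero_le (Nat.log 2 (C + 1) * Nat.log 2 n)]
  calc b * s₁ ≤ 2 * (a + 1) * (Nat.log 2 (a + 1) + 2) * s₁ := Nat.mul_le_mul_right _ h5
    _ ≤ 2 * (a + 1) * ((Nat.log 2 (C + 1) + 4) * (Nat.log 2 n + 1)) * s₁ :=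
        Nat.mul_le_mul_right _ (Nat.mul_le_mul_left _ hK)
    _ = 2 * (Nat.log 2 (C + 1) + 4) * ((a + 1) * (s₁ * (Nat.log 2 n + 1))) := by ring
    _ ≤ 2 * (Nat.log 2 (C + 1) + 4) * ((a + 1) * s) :=
        Nat.mul_le_mul_left _ (Nat.mul_le_mul_left _ h2)
    _ ≤ 2 * (Nat.log 2 (C + 1) + 4) * ((C + 1) * n ^ 2) := by
        apply Nat.mul_le_mul_left
        have h8 : n ≤ n ^ 2 := Nat.le_self_pow (by norm_num) n
        calc (a + 1) * s = a * s + s := by ring
          _ ≤ C * n ^ 2 + n ^ 2 := by omega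
          _ = (C + 1) * n ^ 2 := by ring
    _ = 2 * (Nat.log 2 (C + 1) + 4) * (C + 1) * n ^ 2 := by ring

end F3.OG
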