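import Pool.Agent.F3.OG.Base
import Pool.Agent.F2.O.Greedy

/-!
# Project F3, block OG, row OG-6: the greedy algorithm in a robust host
-/

set_option autoImplicit false
set_option linter.unusedSectionVars false

namespace F3.OG

open Finset NW F1 F2.O

private theorem og6_deg {V : Type} [Fintype V] [DecidableEq V] (Z X : Finset (Sym2 V)) (v : V) :
    NW.deg (Z ∪ X) v ≤ NW.deg Z v + NW.deg X v := by
  unfold NW.deg
  refine (Finset.card_le_card (t := nbr Z v ∪ nbr X v) fun u hu => ?_).trans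
    (Finset.card_union_le _ _)
  rw [Finset.mem_union, mem_nbr, mem_nbr]
  rw [mem_nbr] at hu
  exact Finset.mem_union.1 hu

theorem embG : EmbGStatement := by
  intro c₀ c₂ η hη
  obtain ⟨c₁, hG⟩ := F2.O.greedy c₀ c₂ η hη
  refine ⟨max c₁ 1, ⌈((c₁ + c₀ : ℕ) : ℝ) / η⌉₊ + 1, ?_⟩
  intro V _ _ H X s ι _ _ G P hs hc hX hι hGm hP
  have hs1 : 1 ≤ s := le_trans (Nat.le_add_left _ _) hs
  have hsn : s ≤ Fintype.card V :=
    (Nat.le_mul_of_pos_left s (lt_of_lt_of_le one_pos (le_max_right c₁ 1))).trans hc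
  have hsη : ((c₁ + c₀ : ℕ) : ℝ) ≤ s * η := by
    have h1 : ((c₁ + c₀ : ℕ) : ℝ) / η ≤ (s : ℝ) :=
      (Nat.le_ceil _).trans (by exact_mod_cast (Nat.le_succ _).trans hs)
    rwa [div_le_iff₀ hη] at h1
  obtain ⟨A, hA1, hA2, hA3⟩ := hG V (H \ X) s ι G P hs1 hsn hι hGm (by
    intro i Z F hZ hF
    have hsm : Sm η (Z ∪ X) := by
      intro v
      have h1 := og6_deg Z X v
      have h2 : NW.deg (Z ∪ X) v * s ≤ (c₁ + c₀) * Fintype.card V := by
        calc NW.deg (Z ∪ X) v * s ≤ (NW.deg Z v + NW.deg X v) * s := Nat.mul_le_mul_right _ h1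
          _ = NW.deg Z v * s + NW.deg X v * s := by ring
          _ ≤ c₁ * Fintype.card V + c₀ * Fintype.card V := Nat.add_le_add (hZ v) (hX v)
          _ = _ := by ring
      have h3 : (NW.deg (Z ∪ X) v : ℝ) * s ≤ ((c₁ + c₀ : ℕ) : ℝ) * nn V := by
        unfold nn
        exact_mod_cast h2
      have hn : 0 ≤ nn V := by unfold nn; positivity
      have h4 : ((c₁ + c₀ : ℕ) : ℝ) * nn V ≤ (η * nn V) * s := by
        calc ((c₁ + c₀ : ℕ) : ℝ) * nn V ≤ (s * η) * nn V := mul_le_mul_of_nonneg_right hsη hn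
          _ = _ := by ring
      have hs0 : (0 : ℝ) < s := by exact_mod_cast hs1
      exact le_of_mul_le_mul_right (h3.trans h4) hs0
    obtain ⟨A, h1, h2, h3, h4⟩ := hP i (Z ∪ X) F hsm hF
    refine ⟨A, ?_, h2, h3, h4⟩
    intro e he
    have h5 := Finset.mem_sdiff.1 (h1 he)
    refine Finset.mem_sdiff.2 ⟨Finset.mem_sdiff.2 ⟨h5.1, fun h => h5.2
      (Finset.mem_union_right _ h)⟩, fun h => h5.2 (Finset.mem_union_left _ h)⟩)
  exact ⟨A, hA1, hA2, fun v => (hA3 v).trans (Nat.mul_le_mul_right _ (le_max_left c₁ 1))⟩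

end F3.OG
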