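import Pool.Agent.F3.OG.Base

/-!
# Project F3, block OG, row 16: from the embedded system to the omni-absorber
-/

set_option autoImplicit false
set_option linter.unusedSectionVars false

namespace F3.OG

open Finset NW F1 F2.O

section

variable {V : Type} [Fintype V] [DecidableEq V]

theorem og16_pk (al : Tri V → Prop) (E : Finset (Sym2 V)) : ∃ 𝒯 : Finset (Tri V), DecA al E →
    (∀ T ∈ 𝒯, al T) ∧
    (∀ T ∈ 𝒯, ∀ T' ∈ 𝒯, T ≠ T' → Disjoint (NW.edg T.1) (NW.edg T'.1)) ∧
    𝒯.biUnion (fun T => NW.edg T.1) = E ∧ 𝒯.card ≤ E.card := by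
  classical
  by_cases hE : DecA al E
  · obtain ⟨𝒯, hal, hdis, hun⟩ := hE
    refine ⟨𝒯, fun _ => ⟨hal, hdis, hun, ?_⟩⟩
    rw [← hun, card_biUnion hdis, card_eq_sum_ones]
    refine sum_le_sum fun T _ => ?_
    rw [Nat.succ_le_iff, card_pos]
    obtain ⟨a, b, c, hab, hac, hbc, h⟩ := card_eq_three.1 T.2
    exact ⟨s(a, b), by rw [h, mk_mem_edg]; simp [hab]⟩
  · exact ⟨∅, fun h => absurd h hE⟩

/-- a triangle at `v` has an edge at `v` -/
theorem og16_edge {r : Tri V} {v : V} (hv : v ∈ r.1) : ∃ e ∈ NW.edg r.1, v ∈ e := by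
  have h1 : 1 < r.1.card := by rw [r.2]; norm_num
  obtain ⟨u, hu, huv⟩ := exists_mem_ne h1 v
  exact ⟨s(v, u), mk_mem_edg.2 ⟨hv, hu, huv.symm⟩, Sym2.mem_mk_left _ _⟩

theorem og16_div {ι : Type*} [DecidableEq ι] (T : Finset ι) (A : ι → Finset (Sym2 V))
    (h : ∀ t ∈ T, NW.Divis (A t)) (hd : ∀ t t', t ≠ t' → Disjoint (A t) (A t')) :
    NW.Divis (T.biUnion A) := by
  classical
  induction T using Finset.induction_on with
  | empty =>
    rw [biUnion_empty]
    exact divis_empty
  | insert a T ha ih =>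
    rw [biUnion_insert]
    refine divis_union (h a (mem_insert_self _ _))
      (ih fun t ht => h t (mem_insert_of_mem ht)) ?_
    rw [disjoint_biUnion_right]
    intro t ht
    exact hd a t (fun hat => ha (hat ▸ ht))

end

theorem finF : FinFStatement := by
  classical
  intro Q C
  set K : ℕ := 2 ^ (12 * Q + 1) * (C + (1 + (12 * Q + 1))) with hK
  refine ⟨5 * K * ((2 * C + 1) + 4) + (2 * C + 1) + 5 * K, ?_⟩
  intro V _ _ al H X E0 X' r γ τ s ι σ _ _ _ _ ok xs z W A hH hXH hX'X hHE hE0 hs hXd I B hsum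
    hstate
  choose pk hpk using (fun E : Finset (Sym2 V) => og16_pk al E)
  -- the available edges at a site
  set Y : σ → Finset (Sym2 V) := fun t =>
    (univ.filter (fun i => ok i t)).biUnion W ∪ (xs t ∩ X') with hY
  have hYcard : ∀ t, (Y t).card ≤ 12 * Q + 1 := by
    intro t
    obtain ⟨P, hP, hP'⟩ := I.at_le t
    have h1 : ((univ.filter (fun i => ok i t)).biUnion W).card ≤ 12 * Q := by
      refine (card_biUnion_le_card_mul _ _ 12 fun i _ => I.W_card i).trans ?_
      have h2 : (univ.filter (fun i => ok i t)).card ≤ Q :=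
        (card_le_card fun p hp => hP' p (mem_filter.1 hp).2).trans hP
      calc _ ≤ Q * 12 := Nat.mul_le_mul_right 12 h2
        _ = 12 * Q := by ring
    exact (card_union_le _ _).trans (Nat.add_le_add h1
      ((card_le_card inter_subset_left).trans (I.xs_card t)))
  have hzcard : ∀ t, (z t).card ≤ 1 := fun t => (card_le_card (I.z_sub t)).trans hE0
  have hdec : ∀ t D, D ⊆ Y t → Phi γ τ (z t) D → DecA al (A t ∪ (z t ∪ D)) := by
    intro t D hD hP
    refine B.A_abs t D (fun e he => ?_) hP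
    rcases mem_union.1 (hD he) with h | h
    · obtain ⟨i, hi, hei⟩ := mem_biUnion.1 h
      exact Or.inr ⟨i, (mem_filter.1 hi).2, hei⟩
    · exact Or.inl (mem_inter.1 h).1
  set RTt : σ → Finset (Tri V) := fun t =>
    ((Y t).powerset.filter (fun D => Phi γ τ (z t) D)).biUnion
      (fun D => pk (A t ∪ (z t ∪ D))) with hRTt
  set RT : Finset (Tri V) := univ.biUnion RTt with hRT
  set BW : Finset (Sym2 V) := univ.biUnion W with hBW
  set BA : Finset (Sym2 V) := univ.biUnion A with hBA
  have hWB : ∀ p, W p ⊆ BW := fun p => subset_biUnion_of_mem W (mem_univ p)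
  have hAB : ∀ t, A t ⊆ BA := fun t => subset_biUnion_of_mem A (mem_univ t)
  have hBWH : BW ⊆ H \ X := biUnion_subset.2 fun p _ => I.W_sub p
  have hBAH : BA ⊆ H \ (X ∪ BW) := biUnion_subset.2 fun t _ => B.A_sub t
  have hedge : ∀ t, ∀ r ∈ RTt t, al r ∧ NW.edg r.1 ⊆ A t ∪ (z t ∪ Y t) := by
    intro t r hr
    obtain ⟨D, hD, hr'⟩ := mem_biUnion.1 hr
    obtain ⟨hD1, hD2⟩ := mem_filter.1 hD
    have hD1' := mem_powerset.1 hD1
    obtain ⟨h0, -, h2, -⟩ := hpk _ (hdec t D hD1' hD2)
    have h3 : NW.edg r.1 ⊆ (pk (A t ∪ (z t ∪ D))).biUnion (fun T => NW.edg T.1) :=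
      subset_biUnion_of_mem (fun T : Tri V => NW.edg T.1) hr'
    rw [h2] at h3
    exact ⟨h0 r hr', h3.trans (union_subset_union_right (union_subset_union_right hD1'))⟩
  have hRcard : ∀ t, (RTt t).card ≤ K := by
    intro t
    have h1 : ((Y t).powerset.filter (fun D => Phi γ τ (z t) D)).card ≤ 2 ^ (12 * Q + 1) :=
      (card_filter_le _ _).trans (by
        rw [card_powerset]
        exact Nat.pow_le_pow_right (by norm_num) (hYcard t))
    refine (card_biUnion_le_card_mul _ _ (C + (1 + (12 * Q + 1))) fun D hD => ?_).trans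
      (Nat.mul_le_mul_right _ h1)
    obtain ⟨hD1, hD2⟩ := mem_filter.1 hD
    have hD1' := mem_powerset.1 hD1
    obtain ⟨-, -, -, h3⟩ := hpk _ (hdec t D hD1' hD2)
    exact h3.trans ((card_union_le _ _).trans (Nat.add_le_add (B.A_card t)
      ((card_union_le _ _).trans (Nat.add_le_add (hzcard t)
        ((card_le_card hD1').trans (hYcard t))))))
  have hYB : ∀ t, A t ∪ (z t ∪ Y t) ⊆ ((BW ∪ BA) ∪ E0) ∪ X' := by
    intro t e he
    rcases mem_union.1 he with h | h
    · exact mem_union_left _ (mem_union_left _ (mem_union_right _ (hAB t h)))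
    · rcases mem_union.1 h with h | h
      · exact mem_union_left _ (mem_union_right _ (I.z_sub t h))
      · rcases mem_union.1 h with h | h
        · obtain ⟨p, -, hp⟩ := mem_biUnion.1 h
          exact mem_union_left _ (mem_union_left _ (mem_union_left _ (hWB p hp)))
        · exact mem_union_right _ (mem_inter.1 h).2
  have hRsub : ∀ r ∈ RT, al r ∧ NW.edg r.1 ⊆ ((BW ∪ BA) ∪ E0) ∪ X' := by
    intro r hr
    obtain ⟨t, -, ht⟩ := mem_biUnion.1 hr
    exact ⟨(hedge t r ht).1, (hedge t r ht).2.trans (hYB t)⟩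
  -- the sites of an edge
  have hsite : ∀ e, ∃ T : Finset σ, T.card ≤ 5 ∧ ∀ t, e ∈ A t ∪ (z t ∪ Y t) → t ∈ T := by
    intro e
    have h1 : (univ.filter (fun t => e ∈ A t)).card ≤ 1 := by
      rw [card_le_one]
      intro t ht t' ht'
      by_contra hne
      exact disjoint_left.1 (B.A_disj t t' hne) (mem_filter.1 ht).2 (mem_filter.1 ht').2
    have h3 : (univ.filter (fun t => e ∈ xs t)).card ≤ 1 := by
      rw [card_le_one]
      intro t ht t' ht'
      exact I.xs_uniq t t' e (mem_filter.1 ht).2 (mem_filter.1 ht').2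
    have h4 : (univ.filter (fun t => e ∈ z t)).card ≤ 1 := by
      rw [card_le_one]
      intro t ht t' ht'
      exact I.z_uniq t t' e (mem_filter.1 ht).2 (mem_filter.1 ht').2
    obtain ⟨T2, h2, h2'⟩ : ∃ T : Finset σ, T.card ≤ 2 ∧ ∀ p t, e ∈ W p → ok p t → t ∈ T := by
      by_cases hp : ∃ p, e ∈ W p
      · obtain ⟨p, hp⟩ := hp
        obtain ⟨T, hT, hT'⟩ := I.ok_le p
        refine ⟨T, hT, fun q t hq hqt => ?_⟩
        have hpq : p = q := by
          by_contra hne
          exact disjoint_left.1 (I.W_disj p q hne) hp hq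
        exact hT' t (hpq ▸ hqt)
      · exact ⟨∅, by simp, fun p t h => absurd ⟨p, h⟩ hp⟩
    refine ⟨univ.filter (fun t => e ∈ A t) ∪ T2 ∪ univ.filter (fun t => e ∈ xs t) ∪
      univ.filter (fun t => e ∈ z t), ?_, fun t ht => ?_⟩
    · have g0 := card_union_le (univ.filter (fun t => e ∈ A t) ∪ T2 ∪
        univ.filter (fun t => e ∈ xs t)) (univ.filter (fun t => e ∈ z t))
      have g1 := card_union_le (univ.filter (fun t => e ∈ A t) ∪ T2)
        (univ.filter (fun t => e ∈ xs t))
      have g2 := card_union_le (univ.filter (fun t => e ∈ A t)) T2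
      omega
    · rcases mem_union.1 ht with h | h
      · exact mem_union_left _ (mem_union_left _ (mem_union_left _
          (mem_filter.2 ⟨mem_univ _, h⟩)))
      · rcases mem_union.1 h with h | h
        · exact mem_union_right _ (mem_filter.2 ⟨mem_univ _, h⟩)
        · rcases mem_union.1 h with h | h
          · obtain ⟨p, hp, hp'⟩ := mem_biUnion.1 h
            exact mem_union_left _ (mem_union_left _ (mem_union_right _
              (h2' p t hp' (mem_filter.1 hp).2)))
          · exact mem_union_left _ (mem_union_right _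
              (mem_filter.2 ⟨mem_univ _, (mem_inter.1 h).1⟩))
  have hmult : ∀ e, (RT.filter (fun r => e ∈ NW.edg r.1)).card ≤ 5 * K := by
    intro e
    obtain ⟨T, hT, hT'⟩ := hsite e
    have h1 : RT.filter (fun r => e ∈ NW.edg r.1) ⊆ T.biUnion RTt := by
      intro r hr
      obtain ⟨hr1, hr2⟩ := mem_filter.1 hr
      obtain ⟨t, -, ht⟩ := mem_biUnion.1 hr1
      exact mem_biUnion.2 ⟨t, hT' t ((hedge t r ht).2 hr2), ht⟩
    exact (card_le_card h1).trans ((card_biUnion_le_card_mul _ _ K fun t _ => hRcard t).trans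
      (Nat.mul_le_mul_right _ hT))
  have hdegB : ∀ v, NW.deg ((BW ∪ BA) ∪ E0) v * s ≤ (2 * C + 1) * Fintype.card V := by
    intro v
    have h0 := deg_union_le (BW ∪ BA) E0 v
    have h1 := deg_union_le BW BA v
    have h2 := I.W_deg v
    have h3 := B.A_deg v
    have h4 : NW.deg E0 v ≤ 1 := (deg_le_card E0 v).trans hE0
    calc NW.deg ((BW ∪ BA) ∪ E0) v * s ≤ (NW.deg BW v + NW.deg BA v + 1) * s :=
          Nat.mul_le_mul_right _ (by omega)
      _ = NW.deg BW v * s + NW.deg BA v * s + s := by ring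
      _ ≤ C * Fintype.card V + C * Fintype.card V + Fintype.card V :=
          Nat.add_le_add (Nat.add_le_add h2 h3) hs
      _ = (2 * C + 1) * Fintype.card V := by ring
  -- disjointness
  have hdWX : Disjoint BW X := disjoint_of_subset_left hBWH sdiff_disjoint
  have hdAX : Disjoint BA X := by
    refine disjoint_of_subset_left hBAH ?_
    exact disjoint_of_subset_right subset_union_left sdiff_disjoint
  have hdWA : Disjoint BW BA := by
    refine disjoint_of_subset_right hBAH ?_
    exact disjoint_of_subset_left subset_union_right disjoint_sdiff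
  have hdWE : Disjoint BW E0 := disjoint_of_subset_left (hBWH.trans sdiff_subset) hHE
  have hdAE : Disjoint BA E0 := disjoint_of_subset_left (hBAH.trans sdiff_subset) hHE
  have hdXE : Disjoint X E0 := disjoint_of_subset_left hXH hHE
  have hBAdiv : NW.Divis BA := og16_div univ A (fun t _ => (B.A_div t).1) B.A_disj
  have hBAsum : ∀ j, ∑ e ∈ BA, γ j e = 0 := by
    intro j
    rw [hBA, sum_biUnion (fun t _ t' _ h => B.A_disj t t' h)]
    exact sum_eq_zero fun t _ => (B.A_div t).2 j
  have hsplit : ∀ L, ((BW ∪ BA) ∪ E0) ∪ L = (BW ∪ (E0 ∪ L)) ∪ BA := by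
    intro L
    ext e
    simp only [mem_union]
    tauto
  have hdis0 : ∀ L, L ⊆ X → Disjoint (BW ∪ (E0 ∪ L)) BA := by
    intro L hL
    exact disjoint_union_left.2 ⟨hdWA, disjoint_union_left.2 ⟨hdAE.symm,
      (disjoint_of_subset_right hL hdAX).symm⟩⟩
  have hdegA : ∀ v, NW.deg (((BW ∪ BA) ∪ E0) ∪ X') v * s ≤
      ((2 * C + 1) + 4) * Fintype.card V := by
    intro v
    have h3 := deg_union_le ((BW ∪ BA) ∪ E0) X' v
    have h4 := hdegB v
    have h5 := hXd v
    have h6 : NW.deg X' v ≤ NW.deg X v := NW.deg_mono hX'X v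
    calc NW.deg (((BW ∪ BA) ∪ E0) ∪ X') v * s
        ≤ (NW.deg ((BW ∪ BA) ∪ E0) v + NW.deg X v) * s :=
          Nat.mul_le_mul_right _ (by omega)
      _ = NW.deg ((BW ∪ BA) ∪ E0) v * s + NW.deg X v * s := by ring
      _ ≤ (2 * C + 1) * Fintype.card V + 4 * Fintype.card V := Nat.add_le_add h4 h5
      _ = ((2 * C + 1) + 4) * Fintype.card V := by ring
  refine ⟨(BW ∪ BA) ∪ E0, RT, ?_, subset_union_right, hRsub, fun v => ?_,
    fun v => ?_, fun e => ?_, fun j => ?_, fun L hL hdiv hgam => ?_⟩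
  · refine union_subset_union (union_subset hBWH (hBAH.trans ?_)) (Subset.refl _)
    exact sdiff_subset_sdiff (Subset.refl _) subset_union_left
  · exact (hdegB v).trans (Nat.mul_le_mul_right _ (by omega))
  · -- the triangles at a vertex
    have h1 : RT.filter (fun r => v ∈ r.1) ⊆
        ((((BW ∪ BA) ∪ E0) ∪ X').filter (fun e => v ∈ e)).biUnion
          (fun e => RT.filter (fun r => e ∈ NW.edg r.1)) := by
      intro r hr
      obtain ⟨hr1, hr2⟩ := mem_filter.1 hr
      obtain ⟨e, he, hve⟩ := og16_edge hr2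
      exact mem_biUnion.2 ⟨e, mem_filter.2 ⟨(hRsub r hr1).2 he, hve⟩, mem_filter.2 ⟨hr1, he⟩⟩
    have h2 : (RT.filter (fun r => v ∈ r.1)).card ≤
        NW.deg (((BW ∪ BA) ∪ E0) ∪ X') v * (5 * K) := by
      refine (card_le_card h1).trans ((card_biUnion_le_card_mul _ _ (5 * K)
        fun e _ => hmult e).trans ?_)
      rw [card_inc]
    calc (RT.filter (fun r => v ∈ r.1)).card * s
        ≤ (NW.deg (((BW ∪ BA) ∪ E0) ∪ X') v * (5 * K)) * s := Nat.mul_le_mul_right _ h2
      _ = 5 * K * (NW.deg (((BW ∪ BA) ∪ E0) ∪ X') v * s) := by ring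
      _ ≤ 5 * K * (((2 * C + 1) + 4) * Fintype.card V) := Nat.mul_le_mul_left _ (hdegA v)
      _ = (5 * K * ((2 * C + 1) + 4)) * Fintype.card V := by ring
      _ ≤ _ := Nat.mul_le_mul_right _ (by omega)
  · exact (hmult e).trans (by omega)
  · rw [hsplit, sum_union (hdis0 X' hX'X), hsum j, hBAsum j, add_zero]
  · -- the decomposition
    have hLX : L ⊆ X := hL.trans hX'X
    rw [hsplit] at hdiv
    have hdiv' : NW.Divis (BW ∪ (E0 ∪ L)) := divis_of_union hdiv hBAdiv (hdis0 L hLX)
    have hgam' : ∀ j, ∑ e ∈ BW ∪ (E0 ∪ L), γ j e = 0 := by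
      intro j
      have h1 := hgam j
      rw [hsplit, sum_union (hdis0 L hLX), hBAsum j, add_zero] at h1
      exact h1
    obtain ⟨loc, hl1, hl2⟩ := hstate L hL hdiv' hgam'
    set D : σ → Finset (Sym2 V) := fun t =>
      (univ.filter (fun p => loc p = t)).biUnion W ∪ (L ∩ xs t) with hD
    have hDY : ∀ t, D t ⊆ Y t := by
      intro t
      refine union_subset_union (biUnion_subset_biUnion_of_subset_left _ fun p hp => ?_) ?_
      · rw [mem_filter] at hp ⊢
        exact ⟨mem_univ _, hp.2 ▸ hl1 p⟩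
      · intro e he
        exact mem_inter.2 ⟨(mem_inter.1 he).2, hL (mem_inter.1 he).1⟩
    have hDd : ∀ t, DecA al (A t ∪ (z t ∪ D t)) := fun t => hdec t (D t) (hDY t) (hl2 t)
    have hDWX : ∀ t, D t ⊆ BW ∪ X := by
      intro t
      refine union_subset_union (biUnion_subset.2 fun p _ => hWB p) ?_
      exact inter_subset_right.trans (I.xs_sub t)
    have hdisAD : ∀ t t', Disjoint (A t) (z t' ∪ D t') := by
      intro t t'
      refine disjoint_of_subset_left (hAB t) (disjoint_union_right.2 ⟨?_, ?_⟩)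
      · exact disjoint_of_subset_right (I.z_sub t') hdAE
      · exact disjoint_of_subset_right (hDWX t') (disjoint_union_right.2 ⟨hdWA.symm, hdAX⟩)
    have hdiszD : ∀ t t', Disjoint (z t) (D t') := by
      intro t t'
      refine disjoint_of_subset_left (I.z_sub t) (disjoint_of_subset_right (hDWX t') ?_)
      exact disjoint_union_right.2 ⟨hdWE.symm, hdXE.symm⟩
    have hdisDD : ∀ t t', t ≠ t' → Disjoint (D t) (D t') := by
      intro t t' hne
      rw [disjoint_left]
      intro e he he'
      rcases mem_union.1 he with h | h <;> rcases mem_union.1 he' with h' | h'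
      · obtain ⟨p, hp, hep⟩ := mem_biUnion.1 h
        obtain ⟨p', hp', hep'⟩ := mem_biUnion.1 h'
        have hpp : p = p' := by
          by_contra hcon
          exact disjoint_left.1 (I.W_disj p p' hcon) hep hep'
        subst hpp
        exact hne ((mem_filter.1 hp).2.symm.trans (mem_filter.1 hp').2)
      · obtain ⟨p, hp, hep⟩ := mem_biUnion.1 h
        exact disjoint_left.1 hdWX (hWB p hep) (I.xs_sub _ (mem_inter.1 h').2)
      · obtain ⟨p, hp, hep⟩ := mem_biUnion.1 h'
        exact disjoint_left.1 hdWX (hWB p hep) (I.xs_sub _ (mem_inter.1 h).2)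
      · exact hne (I.xs_uniq t t' e (mem_inter.1 h).2 (mem_inter.1 h').2)
    have hdiszz : ∀ t t', t ≠ t' → Disjoint (z t) (z t') := by
      intro t t' hne
      rw [disjoint_left]
      intro e he he'
      exact hne (I.z_uniq t t' e he he')
    have hsubT : ∀ t, ∀ T ∈ pk (A t ∪ (z t ∪ D t)), NW.edg T.1 ⊆ A t ∪ (z t ∪ D t) := by
      intro t T hT
      obtain ⟨-, -, h2, -⟩ := hpk _ (hDd t)
      have h3 : NW.edg T.1 ⊆ (pk (A t ∪ (z t ∪ D t))).biUnion (fun T => NW.edg T.1) :=
        subset_biUnion_of_mem (fun T : Tri V => NW.edg T.1) hT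
      rwa [h2] at h3
    refine ⟨univ.biUnion (fun t => pk (A t ∪ (z t ∪ D t))), ?_, ?_, ?_⟩
    · intro T hT
      obtain ⟨t, -, ht⟩ := mem_biUnion.1 hT
      refine mem_biUnion.2 ⟨t, mem_univ _, mem_biUnion.2 ⟨D t, ?_, ht⟩⟩
      exact mem_filter.2 ⟨mem_powerset.2 (hDY t), hl2 t⟩
    · intro T hT T' hT' hne
      obtain ⟨t, -, ht⟩ := mem_biUnion.1 hT
      obtain ⟨t', -, ht'⟩ := mem_biUnion.1 hT'
      by_cases htt : t = t'
      · subst htt
        exact (hpk _ (hDd t)).2.1 T ht T' ht' hne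
      · refine disjoint_of_subset_left (hsubT t T ht)
          (disjoint_of_subset_right (hsubT t' T' ht') ?_)
        refine disjoint_union_left.2 ⟨disjoint_union_right.2 ⟨B.A_disj t t' htt, hdisAD t t'⟩,
          disjoint_union_right.2 ⟨(hdisAD t' t).symm, ?_⟩⟩
        refine disjoint_union_left.2 ⟨disjoint_union_right.2 ⟨hdiszz t t' htt, hdiszD t t'⟩,
          disjoint_union_right.2 ⟨(hdiszD t' t).symm, hdisDD t t' htt⟩⟩
    · ext e
      simp only [mem_biUnion]
      constructor
      · rintro ⟨T, ⟨t, -, ht⟩, he⟩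
        rcases mem_union.1 (hsubT t T ht he) with h | h
        · exact mem_union_left _ (mem_union_left _ (mem_union_right _ (hAB t h)))
        · rcases mem_union.1 h with h | h
          · exact mem_union_left _ (mem_union_right _ (I.z_sub t h))
          · rcases mem_union.1 h with h | h
            · obtain ⟨p, -, hp⟩ := mem_biUnion.1 h
              exact mem_union_left _ (mem_union_left _ (mem_union_left _ (hWB p hp)))
            · exact mem_union_right _ (mem_inter.1 h).1
      · intro he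
        obtain ⟨t, ht⟩ : ∃ t, e ∈ A t ∪ (z t ∪ D t) := by
          rcases mem_union.1 he with h | h
          · rcases mem_union.1 h with h | h
            · rcases mem_union.1 h with h | h
              · obtain ⟨p, -, hp⟩ := mem_biUnion.1 h
                exact ⟨loc p, mem_union_right _ (mem_union_right _ (mem_union_left _
                  (mem_biUnion.2 ⟨p, mem_filter.2 ⟨mem_univ _, rfl⟩, hp⟩)))⟩
              · obtain ⟨t, -, ht⟩ := mem_biUnion.1 h
                exact ⟨t, mem_union_left _ ht⟩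
            · obtain ⟨t, ht⟩ := I.z_ex e h
              exact ⟨t, mem_union_right _ (mem_union_left _ ht)⟩
          · obtain ⟨t, ht⟩ := I.xs_ex e (hLX h)
            exact ⟨t, mem_union_right _ (mem_union_right _ (mem_union_right _
              (mem_inter.2 ⟨h, ht⟩)))⟩
        have h2 := (hpk _ (hDd t)).2.2.1
        rw [← h2] at ht
        obtain ⟨T, hT, heT⟩ := mem_biUnion.1 ht
        exact ⟨T, ⟨t, mem_univ _, hT⟩, heT⟩

end F3.OG
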