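import Pool.Agent.F3.OG.Base

/-!
# Project F3, block OG, row OG-9: the combinatorics of the sites
-/

set_option autoImplicit false
set_option linter.unusedSectionVars false

namespace F3.OG

open Finset NW F1 F2.O

section

variable {V : Type} [Fintype V] [DecidableEq V] {π σ σ' Λ : Type} {r c cb M : ℕ}
  [Fintype π] [Fintype σ] [Fintype σ'] [Fintype Λ] [DecidableEq π] [DecidableEq σ]
  [DecidableEq σ'] [DecidableEq Λ] {X E0 : Finset (Sym2 V)} {s C : ℕ}

theorem og9_one (N : Net σ σ' Λ) (t : σ') : (univ.filter (fun u => N.base u = t)).card ≤ 1 := by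
  rw [Finset.card_le_one]
  intro a ha b hb
  rw [mem_filter] at ha hb
  exact N.inj (ha.2.trans hb.2.symm)

theorem og9_ok_le (S : BSk V X E0 s C π σ) (N : Net σ σ' Λ) (en : ℕ → σ')
    (i : It π σ Λ r c cb M) :
    ∃ T : Finset σ', T.card ≤ 2 ∧ ∀ t, okF S N en i t → t ∈ T := by
  cases i with
  | pc p =>
    obtain ⟨T, hT, h⟩ := S.ok_le p
    refine ⟨T.image N.base, card_image_le.trans hT, ?_⟩
    rintro t ⟨u, rfl, hu⟩
    exact mem_image_of_mem _ (h u hu)
  | lk k j b i =>
    refine ⟨{N.a k, N.b k}, card_le_two, ?_⟩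
    rintro t (rfl | rfl) <;> simp
  | bl u j i =>
    refine ⟨{N.base u}, by simp, ?_⟩
    intro t (ht : t = N.base u)
    rw [ht]
    simp
  | ch i =>
    refine ⟨{en i, en (i + 1)}, card_le_two, ?_⟩
    rintro t (rfl | rfl) <;> simp

/-- the tokens of the chain at a site -/
theorem og9_ch (en : ℕ → σ') (h : M = 0 ∨ ∀ i j, i ≤ M → j ≤ M → en i = en j → i = j) (t : σ') :
    (univ.filter (fun i : Fin M => t = en i ∨ t = en (i + 1))).card ≤ 2 := by
  rcases h with h | h
  · subst h
    simp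
  · have h1 : (univ.filter (fun i : Fin M => t = en i)).card ≤ 1 := by
      rw [Finset.card_le_one]
      intro a ha b hb
      rw [mem_filter] at ha hb
      exact Fin.ext (h a b a.2.le b.2.le (ha.2.symm.trans hb.2))
    have h2 : (univ.filter (fun i : Fin M => t = en (i + 1))).card ≤ 1 := by
      rw [Finset.card_le_one]
      intro a ha b hb
      rw [mem_filter] at ha hb
      have := h (a + 1) (b + 1) a.2 b.2 (ha.2.symm.trans hb.2)
      exact Fin.ext (by omega)
    rw [filter_or]
    exact (card_union_le _ _).trans (by omega)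

theorem og9_at_le (S : BSk V X E0 s C π σ) (N : Net σ σ' Λ) (en : ℕ → σ')
    (h : M = 0 ∨ ∀ i j, i ≤ M → j ≤ M → en i = en j → i = j) (t : σ') :
    ∃ P : Finset (It π σ Λ r c cb M), P.card ≤ C + 8 * r * c + r * cb + 2 ∧
      ∀ i, okF S N en i t → i ∈ P := by
  have hP0 : ∃ P0 : Finset π, P0.card ≤ C ∧ ∀ p, (∃ u, N.base u = t ∧ S.ok p u) → p ∈ P0 := by
    by_cases hu : ∃ u, N.base u = t
    · obtain ⟨u, hu⟩ := hu
      obtain ⟨P0, h1, h2⟩ := S.at_le u
      refine ⟨P0, h1, ?_⟩
      rintro p ⟨u', hu', hp⟩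
      have := N.inj (hu'.trans hu.symm)
      rw [this] at hp
      exact h2 p hp
    · exact ⟨∅, by simp, fun p hp => absurd ⟨hp.choose, hp.choose_spec.1⟩ hu⟩
  obtain ⟨P0, hP0c, hP0⟩ := hP0
  let K := univ.filter (fun k => N.a k = t ∨ N.b k = t)
  let U := univ.filter (fun u => N.base u = t)
  let I := univ.filter (fun i : Fin M => t = en i ∨ t = en (i + 1))
  have hK : K.card ≤ 4 := N.deg t
  have hU : U.card ≤ 1 := og9_one N t
  have hI : I.card ≤ 2 := og9_ch en h t
  let A : Finset (It π σ Λ r c cb M) := P0.image It.pc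
  let B : Finset (It π σ Λ r c cb M) :=
    (K ×ˢ (univ : Finset (Fin r × Bool × Fin c))).image
      (fun x => It.lk x.1 x.2.1 x.2.2.1 x.2.2.2)
  let D : Finset (It π σ Λ r c cb M) :=
    (U ×ˢ (univ : Finset (Fin r × Fin cb))).image (fun x => It.bl x.1 x.2.1 x.2.2)
  let G : Finset (It π σ Λ r c cb M) := I.image It.ch
  have hA : A.card ≤ C := card_image_le.trans hP0c
  have hB : B.card ≤ 4 * (r * (2 * c)) := by
    refine card_image_le.trans ?_
    rw [card_product, card_univ]
    simp only [Fintype.card_prod, Fintype.card_fin, Fintype.card_bool]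
    exact Nat.mul_le_mul_right _ hK
  have hD : D.card ≤ 1 * (r * cb) := by
    refine card_image_le.trans ?_
    rw [card_product, card_univ]
    simp only [Fintype.card_prod, Fintype.card_fin]
    exact Nat.mul_le_mul_right _ hU
  have hG : G.card ≤ 2 := card_image_le.trans hI
  refine ⟨A ∪ (B ∪ (D ∪ G)), ?_, ?_⟩
  · have h1 := card_union_le A (B ∪ (D ∪ G))
    have h2 := card_union_le B (D ∪ G)
    have h3 := card_union_le D G
    have h4 : 4 * (r * (2 * c)) = 8 * r * c := by ring
    omega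
  · intro i hi
    cases i with
    | pc p =>
      exact mem_union_left _ (mem_image_of_mem _ (hP0 p hi))
    | lk k j b i =>
      refine mem_union_right _ (mem_union_left _ ?_)
      refine mem_image.2 ⟨(k, j, b, i), ?_, rfl⟩
      rw [mem_product]
      refine ⟨mem_filter.2 ⟨mem_univ _, ?_⟩, mem_univ _⟩
      rcases hi with hi | hi
      · exact Or.inl hi.symm
      · exact Or.inr hi.symm
    | bl u j i =>
      refine mem_union_right _ (mem_union_right _ (mem_union_left _ ?_))
      refine mem_image.2 ⟨(u, j, i), ?_, rfl⟩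
      rw [mem_product]
      have hi' : t = N.base u := hi
      exact ⟨mem_filter.2 ⟨mem_univ _, hi'.symm⟩, mem_univ _⟩
    | ch i =>
      refine mem_union_right _ (mem_union_right _ (mem_union_right _ ?_))
      exact mem_image_of_mem _ (mem_filter.2 ⟨mem_univ _, hi⟩)

end

/-- OG-9 -/
theorem itm : ItmStatement := by
  intro r Cs cT cb
  refine ⟨Cs + 8 * r * cT + r * cb + 2, ?_⟩
  intro V _ _ H X E0 τ s C π σ σ' Λ _ _ _ _ _ _ _ _ S N M en W hch hσ' hW hW12 hWd hWdeg
  have hM : M = 0 ∨ ∀ i j, i ≤ M → j ≤ M → en i = en j → i = j := by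
    rcases hch with h | h
    · exact Or.inl h.1
    · exact Or.inr h.1
  refine
    { W_sub := hW
      W_card := hW12
      W_disj := hWd
      W_deg := hWdeg
      σ_card := hσ'
      ok_le := og9_ok_le S N en
      at_le := og9_at_le S N en hM
      xs_sub := ?_
      xs_card := ?_
      xs_ex := ?_
      xs_uniq := ?_
      z_sub := ?_
      z_ex := ?_
      z_uniq := ?_ }
  · intro t
    exact biUnion_subset.2 fun u _ => S.xs_sub u
  · intro t
    unfold xsF
    refine card_biUnion_le.trans ?_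
    refine (Finset.sum_le_card_nsmul _ _ 1 fun u _ => S.xs_card u).trans ?_
    rw [smul_eq_mul, mul_one]
    exact og9_one N t
  · intro e he
    obtain ⟨u, hu⟩ := S.xs_ex e he
    exact ⟨N.base u, mem_biUnion.2 ⟨u, mem_filter.2 ⟨mem_univ _, rfl⟩, hu⟩⟩
  · intro t t' e he he'
    obtain ⟨u, hu, hu2⟩ := mem_biUnion.1 he
    obtain ⟨u', hu', hu2'⟩ := mem_biUnion.1 he'
    rw [mem_filter] at hu hu'
    have := S.xs_uniq u u' e hu2 hu2'
    rw [← hu.2, ← hu'.2, this]
  · intro t
    exact biUnion_subset.2 fun u _ => S.z_sub u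
  · intro e he
    obtain ⟨u, hu⟩ := S.z_ex e he
    exact ⟨N.base u, mem_biUnion.2 ⟨u, mem_filter.2 ⟨mem_univ _, rfl⟩, hu⟩⟩
  · intro t t' e he he'
    obtain ⟨u, hu, hu2⟩ := mem_biUnion.1 he
    obtain ⟨u', hu', hu2'⟩ := mem_biUnion.1 he'
    rw [mem_filter] at hu hu'
    have := S.z_uniq u u' e hu2 hu2'
    rw [← hu.2, ← hu'.2, this]

end F3.OG
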