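import Pool.Agent.F3.OG.Base

/-!
# Project F3, row OG-1: the butterfly network
-/

set_option autoImplicit false
set_option linter.unusedSectionVars false

namespace F3.OG

open Finset NW F1 F2.O

/-- signs for the rounding -/
theorem og1_half {B : Type} [Fintype B] [DecidableEq B] (w : B → ℤ) (hw : ∑ t, w t = 0) :
    ∃ h : B → ℤ, (∀ t, (h t = 0 ∧ w t % 2 = 0) ∨ ((h t = 1 ∨ h t = -1) ∧ w t % 2 = 1)) ∧
      ∑ t, h t = 0 := by
  set O : Finset B := univ.filter (fun t => w t % 2 = 1) with hO
  have h1 : ∃ m : ℤ, (O.card : ℤ) = 2 * m := by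
    have h2 : (2 : ℤ) ∣ ∑ t, (w t - if t ∈ O then 1 else 0) := by
      apply Finset.dvd_sum
      intro t _
      by_cases ht : t ∈ O
      · rw [if_pos ht]
        rw [hO, mem_filter] at ht
        omega
      · rw [if_neg ht]
        rw [hO, mem_filter] at ht
        have : ¬ w t % 2 = 1 := fun h => ht ⟨mem_univ _, h⟩
        omega
    rw [Finset.sum_sub_distrib, hw, Finset.sum_ite_mem, univ_inter, Finset.sum_const,
      nsmul_eq_mul, mul_one] at h2
    obtain ⟨m, hm⟩ := h2
    exact ⟨-m, by linarith⟩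
  obtain ⟨m, hm⟩ := h1
  obtain ⟨P, hPO, hPc⟩ := Finset.exists_subset_card_eq (s := O) (n := O.card / 2)
    (Nat.div_le_self _ _)
  refine ⟨fun t => if t ∈ O then (if t ∈ P then 1 else -1) else 0, ?_, ?_⟩
  · intro t
    by_cases ht : t ∈ O
    · right
      refine ⟨?_, ?_⟩
      · simp only [if_pos ht]
        by_cases hp : t ∈ P
        · rw [if_pos hp]; exact Or.inl rfl
        · rw [if_neg hp]; exact Or.inr rfl
      · rw [hO, mem_filter] at ht
        exact ht.2
    · left
      refine ⟨by simp only [if_neg ht], ?_⟩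
      rw [hO, mem_filter] at ht
      have : ¬ w t % 2 = 1 := fun h => ht ⟨mem_univ _, h⟩
      omega
  · rw [Finset.sum_ite_mem, univ_inter]
    have h3 : ∀ t ∈ O, (if t ∈ P then (1 : ℤ) else -1) = 2 * (if t ∈ P then 1 else 0) - 1 := by
      intro t _
      split_ifs <;> ring
    rw [Finset.sum_congr rfl h3, Finset.sum_sub_distrib, ← Finset.mul_sum, Finset.sum_ite_mem,
      inter_eq_right.2 hPO, Finset.sum_const, Finset.sum_const, nsmul_eq_mul, nsmul_eq_mul,
      mul_one, mul_one, hPc]
    omega

section Step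

variable {B S Λ : Type} [Fintype B] [Fintype S] [Fintype Λ] [DecidableEq B] [DecidableEq S]
  [DecidableEq Λ]

/-- the first ends -/
def og1_a (N : Net B S Λ) : B ⊕ ((Bool × B) ⊕ (Bool × Λ)) → (Bool × B) ⊕ (Bool × S)
  | Sum.inl t => Sum.inl (false, t)
  | Sum.inr (Sum.inl p) => Sum.inl p
  | Sum.inr (Sum.inr p) => Sum.inr (p.1, N.a p.2)

/-- the second ends -/
def og1_b (N : Net B S Λ) : B ⊕ ((Bool × B) ⊕ (Bool × Λ)) → (Bool × B) ⊕ (Bool × S)
  | Sum.inl t => Sum.inl (true, t)
  | Sum.inr (Sum.inl p) => Sum.inr (p.1, N.base p.2)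
  | Sum.inr (Sum.inr p) => Sum.inr (p.1, N.b p.2)

theorem og1_sum_base {A : Type} [AddCommMonoid A] (N : Net B S Λ) (t : B) (f : B → A) :
    ∑ u, (if N.base u = N.base t then f u else 0) = f t := by
  have h : ∀ u, (if N.base u = N.base t then f u else 0) = if u = t then f u else 0 := by
    intro u
    by_cases hu : u = t
    · rw [hu, if_pos rfl, if_pos rfl]
    · rw [if_neg hu, if_neg fun h => hu (N.inj h)]
  rw [Finset.sum_congr rfl fun u _ => h u, Finset.sum_ite_eq', if_pos (mem_univ t)]

theorem og1_deg_inl (N : Net B S Λ) (p : Bool × B) :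
    (univ.filter (fun k => og1_a N k = Sum.inl p ∨ og1_b N k = Sum.inl p)).card ≤ 2 := by
  obtain ⟨b, t⟩ := p
  rw [Finset.card_filter, Fintype.sum_sum_type, Fintype.sum_sum_type]
  have h1 : ∑ u : B, (if og1_a N (Sum.inl u) = Sum.inl (b, t) ∨
      og1_b N (Sum.inl u) = Sum.inl (b, t) then 1 else 0) = 1 := by
    have h : ∀ u : B, (if og1_a N (Sum.inl u) = Sum.inl (b, t) ∨
        og1_b N (Sum.inl u) = Sum.inl (b, t) then 1 else 0) = if u = t then 1 else 0 := by
      intro u
      have : (og1_a N (Sum.inl u) = Sum.inl (b, t) ∨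
        og1_b N (Sum.inl u) = Sum.inl (b, t)) ↔ u = t := by
        simp only [og1_a, og1_b, Sum.inl.injEq, Prod.mk.injEq]
        cases b <;> simp
      by_cases hu : u = t
      · rw [if_pos (this.2 hu), if_pos hu]
      · rw [if_neg fun h => hu (this.1 h), if_neg hu]
    rw [Finset.sum_congr rfl fun u _ => h u, Finset.sum_ite_eq', if_pos (mem_univ t)]
  have h2 : ∑ q : Bool × B, (if og1_a N (Sum.inr (Sum.inl q)) = Sum.inl (b, t) ∨
      og1_b N (Sum.inr (Sum.inl q)) = Sum.inl (b, t) then 1 else 0) = 1 := by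
    have h : ∀ q : Bool × B, (if og1_a N (Sum.inr (Sum.inl q)) = Sum.inl (b, t) ∨
        og1_b N (Sum.inr (Sum.inl q)) = Sum.inl (b, t) then 1 else 0) =
        if q = (b, t) then 1 else 0 := by
      intro q
      simp only [og1_a, og1_b, Sum.inl.injEq, reduceCtorEq, or_false]
    rw [Finset.sum_congr rfl fun u _ => h u, Finset.sum_ite_eq', if_pos (mem_univ _)]
  have h3 : ∑ q : Bool × Λ, (if og1_a N (Sum.inr (Sum.inr q)) = Sum.inl (b, t) ∨
      og1_b N (Sum.inr (Sum.inr q)) = Sum.inl (b, t) then 1 else 0) = 0 := by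
    apply Finset.sum_eq_zero
    intro q _
    simp only [og1_a, og1_b, reduceCtorEq, or_false, if_false]
  rw [h1, h2, h3]
  norm_num

theorem og1_deg_inr (N : Net B S Λ) (hN : ∀ u, (univ.filter (fun k => N.a k = N.base u ∨
    N.b k = N.base u)).card ≤ 2) (p : Bool × S) :
    (univ.filter (fun k => og1_a N k = Sum.inr p ∨ og1_b N k = Sum.inr p)).card ≤ 4 := by
  obtain ⟨b, s⟩ := p
  rw [Finset.card_filter, Fintype.sum_sum_type, Fintype.sum_sum_type]
  have h1 : ∑ u : B, (if og1_a N (Sum.inl u) = Sum.inr (b, s) ∨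
      og1_b N (Sum.inl u) = Sum.inr (b, s) then 1 else 0) = 0 := by
    apply Finset.sum_eq_zero
    intro q _
    simp only [og1_a, og1_b, reduceCtorEq, or_false, if_false]
  have h2 : ∑ q : Bool × B, (if og1_a N (Sum.inr (Sum.inl q)) = Sum.inr (b, s) ∨
      og1_b N (Sum.inr (Sum.inl q)) = Sum.inr (b, s) then 1 else 0) =
      ∑ t : B, if N.base t = s then 1 else 0 := by
    rw [Fintype.sum_prod_type, Fintype.sum_bool]
    simp only [og1_a, og1_b, Sum.inr.injEq, Prod.mk.injEq, reduceCtorEq, false_or]
    cases b <;> simp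
  have h3 : ∑ q : Bool × Λ, (if og1_a N (Sum.inr (Sum.inr q)) = Sum.inr (b, s) ∨
      og1_b N (Sum.inr (Sum.inr q)) = Sum.inr (b, s) then 1 else 0) =
      ∑ k : Λ, if N.a k = s ∨ N.b k = s then 1 else 0 := by
    rw [Fintype.sum_prod_type, Fintype.sum_bool]
    simp only [og1_a, og1_b, Sum.inr.injEq, Prod.mk.injEq]
    cases b <;> simp
  rw [h1, h2, h3, ← Finset.card_filter, ← Finset.card_filter]
  by_cases hs : ∃ t, N.base t = s
  · obtain ⟨t, rfl⟩ := hs
    have h4 : (univ.filter (fun u => N.base u = N.base t)).card = 1 := by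
      rw [Finset.card_filter]
      exact og1_sum_base N t fun _ => 1
    have h5 := hN t
    omega
  · have h4 : univ.filter (fun u => N.base u = s) = ∅ := by
      apply Finset.filter_false_of_mem
      intro u _ h
      exact hs ⟨u, h⟩
    rw [h4, card_empty]
    have h5 := N.deg s
    omega

theorem og1_flow (N : Net B S Λ) (c : ℕ) (d : Bool × B → ℤ) (hd : ∀ u, |d u| ≤ c)
    (h0 : ∑ u, d u = 0) :
    ∃ x : B ⊕ ((Bool × B) ⊕ (Bool × Λ)) → ℤ, (∀ k, |x k| ≤ c) ∧
      ∀ t : (Bool × B) ⊕ (Bool × S),
        (∑ u ∈ univ.filter (fun u => (Sum.inl u : (Bool × B) ⊕ (Bool × S)) = t), d u) +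
        (∑ k ∈ univ.filter (fun k => og1_b N k = t), x k) -
        (∑ k ∈ univ.filter (fun k => og1_a N k = t), x k) = 0 := by
  rw [Fintype.sum_prod_type, Fintype.sum_bool, ← Finset.sum_add_distrib] at h0
  obtain ⟨h, hh, hs⟩ := og1_half (fun t => d (true, t) + d (false, t)) h0
  -- the new values
  set d' : Bool → B → ℤ := fun b t =>
    (d (true, t) + d (false, t) + (if b = true then - h t else h t)) / 2 with hd'
  have hval : ∀ t, 2 * d' true t = d (true, t) + d (false, t) - h t ∧
      2 * d' false t = d (true, t) + d (false, t) + h t := by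
    intro t
    have h1 := hh t
    simp only [hd', if_true, Bool.false_eq_true, if_false]
    constructor
    · omega
    · omega
  have hbd : ∀ b t, |d' b t| ≤ c := by
    intro b t
    have h1 := hh t
    have h2 := hval t
    have h3 := abs_le.1 (hd (true, t))
    have h4 := abs_le.1 (hd (false, t))
    rw [abs_le]
    cases b
    · constructor <;> omega
    · constructor <;> omega
  have hsum : ∀ b, ∑ t, d' b t = 0 := by
    intro b
    have h1 : 2 * ∑ t, d' b t = 0 := by
      rw [Finset.mul_sum]
      cases b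
      · rw [Finset.sum_congr rfl fun t _ => (hval t).2, Finset.sum_add_distrib, h0, hs, add_zero]
      · rw [Finset.sum_congr rfl fun t _ => (hval t).1, Finset.sum_sub_distrib, h0, hs, sub_zero]
    omega
  have hfl := fun b => N.flow c (d' b) (hbd b) (hsum b)
  choose x hx1 hx2 using hfl
  refine ⟨Sum.elim (fun t => d (false, t) - d' false t)
    (Sum.elim (fun p => d' p.1 p.2) (fun p => x p.1 p.2)), ?_, ?_⟩
  · rintro (t | p | p)
    · simp only [Sum.elim_inl]
      have h1 := hh t
      have h2 := hval t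
      have h3 := abs_le.1 (hd (true, t))
      have h4 := abs_le.1 (hd (false, t))
      rw [abs_le]
      constructor <;> omega
    · simp only [Sum.elim_inr, Sum.elim_inl]
      exact hbd p.1 p.2
    · simp only [Sum.elim_inr]
      exact hx1 p.1 p.2
  · rintro (⟨b, t⟩ | ⟨b, s⟩)
    · -- base sites
      simp only [Finset.sum_filter, Fintype.sum_sum_type, Fintype.sum_prod_type, Fintype.sum_bool,
        og1_a, og1_b, Sum.elim_inl, Sum.elim_inr, Sum.inl.injEq, Prod.mk.injEq, reduceCtorEq,
        if_false, Finset.sum_const_zero, add_zero]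
      have h2 := hval t
      cases b
      · simp
      · simp
        omega
    · simp only [Finset.sum_filter, Fintype.sum_sum_type, Fintype.sum_prod_type, Fintype.sum_bool,
        og1_a, og1_b, Sum.elim_inl, Sum.elim_inr, Sum.inr.injEq, Prod.mk.injEq, reduceCtorEq,
        if_false, Finset.sum_const_zero, add_zero, zero_add]
      have h3 := hx2 b s
      simp only [Finset.sum_filter] at h3
      cases b
      · simp
        linarith
      · simp
        linarith

/-- the step of the recursion -/
def og1_step (N : Net B S Λ) (hN : ∀ u, (univ.filter (fun k => N.a k = N.base u ∨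
    N.b k = N.base u)).card ≤ 2) :
    Net (Bool × B) ((Bool × B) ⊕ (Bool × S)) (B ⊕ ((Bool × B) ⊕ (Bool × Λ))) where
  base := Sum.inl
  a := og1_a N
  b := og1_b N
  inj := Sum.inl_injective
  ab := by
    rintro (t | p | p) h
    · simp [og1_a, og1_b] at h
    · simp [og1_a, og1_b] at h
    · simp only [og1_a, og1_b, Sum.inr.injEq, Prod.mk.injEq, true_and] at h
      exact N.ab p.2 h
  deg := by
    rintro (p | p)
    · exact (og1_deg_inl N p).trans (by norm_num)
    · exact og1_deg_inr N hN p
  flow := fun c d hd h0 => og1_flow N c d hd h0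

end Step

/-- the network with one site -/
def og1_zero : Net Unit Unit Empty where
  base := id
  a := Empty.elim
  b := Empty.elim
  inj := Function.injective_id
  ab := fun k => k.elim
  deg := fun t => by
    rw [Finset.univ_eq_empty, Finset.filter_empty, card_empty]
    norm_num
  flow := by
    intro c d _ h0
    refine ⟨Empty.elim, fun k => k.elim, ?_⟩
    intro t
    have h1 : d () = 0 := by simpa using h0
    simp [h1]

theorem og1_main (q : ℕ) : ∃ (B S Λ : Type) (_ : Fintype B) (_ : Fintype S) (_ : Fintype Λ)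
    (_ : DecidableEq B) (_ : DecidableEq S) (_ : DecidableEq Λ) (N : Net B S Λ),
    (∀ u, (univ.filter (fun k => N.a k = N.base u ∨ N.b k = N.base u)).card ≤ 2) ∧
    Fintype.card B = 2 ^ q ∧ Fintype.card S = (q + 1) * 2 ^ q ∧
    2 * Fintype.card Λ = 3 * q * 2 ^ q := by
  induction q with
  | zero =>
    refine ⟨Unit, Unit, Empty, inferInstance, inferInstance, inferInstance, inferInstance,
      inferInstance, inferInstance, og1_zero, ?_, by simp, by simp, by simp⟩
    intro u
    rw [Finset.univ_eq_empty, Finset.filter_empty, card_empty]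
    norm_num
  | succ q ih =>
    obtain ⟨B, S, Λ, _, _, _, _, _, _, N, h1, h2, h3, h4⟩ := ih
    refine ⟨Bool × B, (Bool × B) ⊕ (Bool × S), B ⊕ ((Bool × B) ⊕ (Bool × Λ)), inferInstance,
      inferInstance, inferInstance, inferInstance, inferInstance, inferInstance,
      og1_step N h1, fun u => og1_deg_inl N u, ?_, ?_, ?_⟩
    · rw [Fintype.card_prod, Fintype.card_bool, h2, pow_succ]
      ring
    · rw [Fintype.card_sum, Fintype.card_prod, Fintype.card_prod, Fintype.card_bool, h2, h3,
        pow_succ]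
      ring
    · rw [Fintype.card_sum, Fintype.card_sum, Fintype.card_prod, Fintype.card_prod,
        Fintype.card_bool, h2, pow_succ]
      have : 2 * (2 ^ q + (2 * 2 ^ q + 2 * Fintype.card Λ)) =
          6 * 2 ^ q + 2 * (2 * Fintype.card Λ) := by ring
      rw [this, h4]
      ring

/-- restriction to fewer base sites -/
def og1_comap {σ B S Λ : Type} [Fintype σ] [Fintype B] [Fintype S] [Fintype Λ] [DecidableEq σ]
    [DecidableEq B] [DecidableEq S] [DecidableEq Λ] (N : Net B S Λ) (f : σ → B)
    (hf : Function.Injective f) : Net σ S Λ where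
  base := fun u => N.base (f u)
  a := N.a
  b := N.b
  inj := N.inj.comp hf
  ab := N.ab
  deg := N.deg
  flow := by
    intro c d hd h0
    have h1 : ∀ v, ∑ u ∈ univ.filter (fun u => f u = v), d u = 0 ∨
        ∃ u, ∑ u ∈ univ.filter (fun u => f u = v), d u = d u := by
      intro v
      by_cases h : ∃ u, f u = v
      · obtain ⟨u, rfl⟩ := h
        right
        refine ⟨u, ?_⟩
        have h2 : univ.filter (fun w => f w = f u) = {u} := by
          ext w
          simp only [mem_filter, mem_univ, true_and, mem_singleton]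
          exact ⟨fun h => hf h, fun h => by rw [h]⟩
        rw [h2, sum_singleton]
      · left
        apply Finset.sum_eq_zero
        intro u hu
        rw [mem_filter] at hu
        exact absurd ⟨u, hu.2⟩ h
    obtain ⟨x, hx1, hx2⟩ := N.flow c (fun v => ∑ u ∈ univ.filter (fun u => f u = v), d u) (by
      intro v
      rcases h1 v with h | ⟨u, h⟩
      · simp only [h, abs_zero]
        exact Nat.cast_nonneg c
      · simp only [h]
        exact hd u) (by
      rw [← h0]
      exact Finset.sum_fiberwise _ _ _)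
    refine ⟨x, hx1, fun t => ?_⟩
    rw [← hx2 t]
    congr 2
    rw [← Finset.sum_fiberwise_of_maps_to (s := univ.filter (fun u => N.base (f u) = t))
      (t := univ.filter (fun v => N.base v = t)) (g := f) (f := d)]
    · apply Finset.sum_congr rfl
      intro v hv
      apply Finset.sum_congr ?_ fun _ _ => rfl
      ext u
      simp only [mem_filter, mem_univ, true_and] at hv ⊢
      constructor
      · rintro ⟨_, h⟩
        exact h
      · intro h
        rw [h]
        exact ⟨hv, rfl⟩
    · intro u hu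
      simp only [mem_filter, mem_univ, true_and] at hu ⊢
      exact hu

theorem net : NetStatement := by
  intro σ _ _
  set m := Fintype.card σ + 1 with hm
  obtain ⟨B, S, Λ, _, _, _, _, _, _, N, _, h2, h3, h4⟩ := og1_main (Nat.log 2 m + 1)
  have h5 : Fintype.card σ ≤ Fintype.card B := by
    rw [h2]
    have := Nat.lt_pow_succ_log_self (by norm_num : 1 < 2) m
    rw [Nat.succ_eq_add_one] at this
    omega
  obtain ⟨f⟩ := Function.Embedding.nonempty_of_card_le h5
  have h6 : 2 ^ Nat.log 2 m ≤ m := Nat.pow_log_le_self 2 (by omega)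
  refine ⟨S, Λ, inferInstance, inferInstance, inferInstance, inferInstance,
    ⟨og1_comap N f f.injective⟩, ?_, ?_⟩
  · rw [h3, pow_succ]
    calc (Nat.log 2 m + 1 + 1) * (2 ^ Nat.log 2 m * 2)
        = 2 * 2 ^ Nat.log 2 m * (Nat.log 2 m + 2) := by ring
      _ ≤ 2 * m * (Nat.log 2 m + 2) :=
          Nat.mul_le_mul_right _ (Nat.mul_le_mul_left _ h6)
  · rw [h3]
    have h7 : 2 * Fintype.card Λ ≤ 4 * ((Nat.log 2 m + 1 + 1) * 2 ^ (Nat.log 2 m + 1)) := by
      rw [h4]
      calc 3 * (Nat.log 2 m + 1) * 2 ^ (Nat.log 2 m + 1)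
          ≤ 4 * (Nat.log 2 m + 1 + 1) * 2 ^ (Nat.log 2 m + 1) :=
            Nat.mul_le_mul_right _ (by omega)
        _ = _ := by ring
    omega

end F3.OG
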