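import Pool.Agent.F3.OG.Base

/-!
# Project F3, block OG, row OG-7: embedding of the pieces
-/

set_option autoImplicit false
set_option linter.unusedSectionVars false

namespace F3.OG

open Finset NW F1 F2.O

theorem pc (h : EmbGStatement) : PcStatement := by
  intro Cs η hη
  obtain ⟨c, s₀, hE⟩ := h (max Cs 4) 4 η hη
  refine ⟨c, s₀, ?_⟩
  intro V _ _ H X E0 s π σ _ _ _ _ S hP hX hs hc
  obtain ⟨W, hW1, hW2, hW3⟩ := hE V H X s π S.gv (fun p W => Piece (S.gv p) W) hs hc
    (fun v => (hX v).trans (Nat.mul_le_mul_right _ (le_max_right Cs 4)))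
    (S.π_card.trans (Nat.mul_le_mul_right _ (le_max_left Cs 4)))
    (fun v => (S.gv_mult v).trans (Nat.mul_le_mul_right _ (le_max_left Cs 4)))
    (by
      intro i Z F hZ hF
      obtain ⟨W, h1, h2, h3⟩ := hP Z F (S.gv i) hZ hF (S.gv_card i)
      exact ⟨W, h1, h2.card_le, h3, h2⟩)
  exact ⟨W, fun p => (hW1 p).1, fun p => (hW1 p).2.2, hW2, hW3⟩

end F3.OG
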