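import Pool.Agent.F3.OG.Base

/-!
# Project F3, block OG: sums over the edges of a site (OG-13)
-/

set_option autoImplicit false
set_option linter.unusedSectionVars false

namespace F3.OG

open Finset NW F1 F2.O

/-- a sum over the items at a site of the network, grouped by the base sites -/
theorem og13_fib {A : Type*} [AddCommMonoid A] {π σ σ' : Type} [Fintype π] [Fintype σ]
    [DecidableEq σ] [DecidableEq σ'] (base : σ → σ') (l : π → σ) (t : σ') (g : π → A) :
    ∑ p, (if base (l p) = t then g p else 0) =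
      ∑ u ∈ univ.filter (fun u => base u = t), ∑ p ∈ univ.filter (fun p => l p = u), g p := by
  rw [← sum_fiberwise univ l, sum_filter]
  refine sum_congr rfl fun u _ => ?_
  split_ifs with h
  · refine sum_congr rfl fun p hp => ?_
    rw [(mem_filter.1 hp).2, if_pos h]
  · refine sum_eq_zero fun p hp => ?_
    rw [(mem_filter.1 hp).2, if_neg h]

section

variable {V : Type} [Fintype V] [DecidableEq V] {H X E0 : Finset (Sym2 V)}
  {s C r cT cb M : ℕ} {π σ σ' Λ : Type} [Fintype π] [Fintype σ] [Fintype σ'] [Fintype Λ]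
  [DecidableEq π] [DecidableEq σ] [DecidableEq σ'] [DecidableEq Λ]

theorem og13_zF_sub (S : BSk V X E0 s C π σ) (N : Net σ σ' Λ) (t : σ') : zF S N t ⊆ E0 := by
  intro e he
  obtain ⟨u, _, hu⟩ := mem_biUnion.1 he
  exact S.z_sub u hu

theorem og13_xsF_sub (S : BSk V X E0 s C π σ) (N : Net σ σ' Λ) (t : σ') : xsF S N t ⊆ X := by
  intro e he
  obtain ⟨u, _, hu⟩ := mem_biUnion.1 he
  exact S.xs_sub u hu

theorem og13_zF_sum (S : BSk V X E0 s C π σ) (N : Net σ σ' Λ) (t : σ') {A : Type*}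
    [AddCommMonoid A] (f : Sym2 V → A) : ∑ e ∈ zF S N t, f e =
      ∑ u ∈ univ.filter (fun u => N.base u = t), ∑ e ∈ S.z u, f e := by
  unfold zF
  refine sum_biUnion fun u _ u' _ huu => ?_
  change Disjoint (S.z u) (S.z u')
  rw [disjoint_left]
  exact fun e he he' => huu (S.z_uniq u u' e he he')

theorem og13_xsF_sum (S : BSk V X E0 s C π σ) (N : Net σ σ' Λ) (t : σ') {A : Type*}
    [AddCommMonoid A] (f : Sym2 V → A) (L : Finset (Sym2 V)) : ∑ e ∈ L ∩ xsF S N t, f e =
      ∑ u ∈ univ.filter (fun u => N.base u = t), ∑ e ∈ L ∩ S.xs u, f e := by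
  unfold xsF
  rw [inter_biUnion]
  refine sum_biUnion fun u _ u' _ huu => ?_
  change Disjoint (L ∩ S.xs u) (L ∩ S.xs u')
  rw [disjoint_left]
  exact fun e he he' => huu (S.xs_uniq u u' e (mem_inter.1 he).2 (mem_inter.1 he').2)

theorem og13_items (N : Net σ σ' Λ) (en : ℕ → σ') (l : π → σ)
    (lL : Fin r → Λ × Bool × Fin cT → σ') (lC : Fin M → Bool) (t : σ') {A : Type*}
    [AddCommMonoid A] (g : It π σ Λ r cT cb M → A) :
    ∑ x ∈ univ.filter (fun x => locF N en l lL lC x = t), g x =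
      ∑ u ∈ univ.filter (fun u => N.base u = t),
        ∑ p ∈ univ.filter (fun p => l p = u), g (.pc p) +
      (∑ j : Fin r, ∑ x ∈ univ.filter (fun x : Λ × Bool × Fin cT => lL j x = t),
          g (.lk x.1 j x.2.1 x.2.2) +
        (∑ u ∈ univ.filter (fun u => N.base u = t), ∑ j : Fin r, ∑ k : Fin cb, g (.bl u j k) +
          ∑ i ∈ univ.filter (fun i : Fin M => en (i + (if lC i = true then 1 else 0)) = t),
            g (.ch i))) := by
  rw [sum_filter, sum_it, ← og13_fib N.base l t (fun p => g (.pc p))]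
  have h1 : ∑ k : Λ, ∑ j : Fin r, ∑ b : Bool, ∑ i : Fin cT,
      (if locF (cb := cb) N en l lL lC (.lk k j b i) = t then g (.lk k j b i) else 0) =
      ∑ j : Fin r, ∑ x ∈ univ.filter (fun x : Λ × Bool × Fin cT => lL j x = t),
          g (.lk x.1 j x.2.1 x.2.2) := by
    rw [sum_comm]
    refine sum_congr rfl fun j _ => ?_
    rw [sum_filter, Fintype.sum_prod_type]
    refine sum_congr rfl fun k _ => ?_
    rw [Fintype.sum_prod_type]
    rfl
  have h2 : ∑ u : σ, ∑ j : Fin r, ∑ i : Fin cb,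
      (if locF (c := cT) N en l lL lC (.bl u j i) = t then g (.bl u j i) else 0) =
      ∑ u ∈ univ.filter (fun u => N.base u = t), ∑ j : Fin r, ∑ k : Fin cb, g (.bl u j k) := by
    rw [sum_filter]
    refine sum_congr rfl fun u _ => ?_
    split_ifs with h
    · refine sum_congr rfl fun j _ => sum_congr rfl fun i _ => ?_
      exact if_pos h
    · refine sum_eq_zero fun j _ => sum_eq_zero fun i _ => ?_
      exact if_neg h
  rw [h1, h2, sum_filter (fun i : Fin M => en (i + (if lC i = true then 1 else 0)) = t)]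
  rfl

theorem og13_one (S : BSk V X E0 s C π σ) (N : Net σ σ' Λ) (en : ℕ → σ')
    (W : It π σ Λ r cT cb M → Finset (Sym2 V)) (l : π → σ)
    (lL : Fin r → Λ × Bool × Fin cT → σ') (lC : Fin M → Bool) (L : Finset (Sym2 V))
    (hXH : X ⊆ H) (hHE : Disjoint H E0) (hW : ∀ x, W x ⊆ H \ X)
    (hWd : ∀ x y, x ≠ y → Disjoint (W x) (W y)) (t : σ') {A : Type*} [AddCommMonoid A]
    (f : Sym2 V → A) :
    ∑ e ∈ siteD (zF S N) (xsF S N) W (locF N en l lL lC) L t, f e =
      ∑ u ∈ univ.filter (fun u => N.base u = t),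
        (∑ e ∈ siteD S.z S.xs (fun p => W (.pc p)) l L u, f e +
          ∑ j : Fin r, ∑ k : Fin cb, ∑ e ∈ W (.bl u j k), f e) +
      ∑ j : Fin r, ∑ x ∈ univ.filter (fun x : Λ × Bool × Fin cT => lL j x = t),
        ∑ e ∈ W (.lk x.1 j x.2.1 x.2.2), f e +
      ∑ i ∈ univ.filter (fun i : Fin M => en (i + (if lC i = true then 1 else 0)) = t),
        ∑ e ∈ W (.ch i), f e := by
  rw [sum_siteD f _ hHE hXH hW hWd t (og13_zF_sub S N t) (og13_xsF_sub S N t),
    og13_zF_sum, og13_xsF_sum, og13_items N en l lL lC t (fun x => ∑ e ∈ W x, f e)]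
  have h1 : ∀ u : σ, ∑ e ∈ siteD S.z S.xs (fun p => W (.pc p)) l L u, f e =
      ∑ e ∈ S.z u, f e + (∑ p ∈ univ.filter (fun p => l p = u), ∑ e ∈ W (.pc p), f e +
        ∑ e ∈ L ∩ S.xs u, f e) := fun u =>
    sum_siteD f l hHE hXH (fun p => hW _)
      (fun p q hpq => hWd _ _ (fun h => hpq (It.pc.inj h))) u (S.z_sub u) (S.xs_sub u)
  simp only [h1, sum_add_distrib]
  abel

/-- divisibility of sums over a site -/
theorem og13_dvd (S : BSk V X E0 s C π σ) (N : Net σ σ' Λ) (en : ℕ → σ')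
    (W : It π σ Λ r cT cb M → Finset (Sym2 V)) (l : π → σ)
    (lL : Fin r → Λ × Bool × Fin cT → σ') (lC : Fin M → Bool) (L : Finset (Sym2 V))
    (hXH : X ⊆ H) (hHE : Disjoint H E0) (hW : ∀ x, W x ⊆ H \ X)
    (hWd : ∀ x y, x ≠ y → Disjoint (W x) (W y)) (t : σ')
    (h1 : ∀ u, NW.Divis (siteD S.z S.xs (fun p => W (.pc p)) l L u))
    (h2 : ∀ k j b i, NW.Divis (W (.lk k j b i))) (h3 : ∀ u j k, NW.Divis (W (.bl u j k)))
    (h4 : ∀ i, NW.Divis (W (.ch i))) (d : ℕ) (f : Sym2 V → ℕ)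
    (hf : ∀ D, NW.Divis D → d ∣ ∑ e ∈ D, f e) :
    d ∣ ∑ e ∈ siteD (zF S N) (xsF S N) W (locF N en l lL lC) L t, f e := by
  rw [og13_one S N en W l lL lC L hXH hHE hW hWd t f]
  refine dvd_add (dvd_add (dvd_sum fun u _ => ?_) ?_) ?_
  · exact dvd_add (hf _ (h1 u)) (dvd_sum fun j _ => dvd_sum fun k _ => hf _ (h3 u j k))
  · exact dvd_sum fun j _ => dvd_sum fun x _ => hf _ (h2 _ _ _ _)
  · exact dvd_sum fun i _ => hf _ (h4 i)

theorem og13_nl (S : BSk V X E0 s C π σ) (N : Net σ σ' Λ) (en : ℕ → σ')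
    (W : It π σ Λ r cT cb M → Finset (Sym2 V)) (l : π → σ)
    (lL : Fin r → Λ × Bool × Fin cT → σ') (lC : Fin M → Bool) (L : Finset (Sym2 V)) (t : σ')
    (h1 : ∀ u, NW.Divis (siteD S.z S.xs (fun p => W (.pc p)) l L u))
    (h2 : ∀ k j b i, NW.Divis (W (.lk k j b i))) (h3 : ∀ u j k, NW.Divis (W (.bl u j k)))
    (h4 : ∀ i, NW.Divis (W (.ch i))) :
    NW.NL (siteD (zF S N) (xsF S N) W (locF N en l lL lC) L t) := by
  intro e he
  unfold siteD at he
  rcases mem_union.1 he with he | he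
  · obtain ⟨u, _, hu⟩ := mem_biUnion.1 he
    exact (h1 u).1 e (mem_union_left _ hu)
  · rcases mem_union.1 he with he | he
    · obtain ⟨x, _, hx⟩ := mem_biUnion.1 he
      cases x with
      | pc p =>
        refine (h1 (l p)).1 e (mem_union_right _ (mem_union_left _ ?_))
        exact mem_biUnion.2 ⟨p, mem_filter.2 ⟨mem_univ _, rfl⟩, hx⟩
      | lk k j b i => exact (h2 k j b i).1 e hx
      | bl u j k => exact (h3 u j k).1 e hx
      | ch i => exact (h4 i).1 e hx
    · obtain ⟨heL, he⟩ := mem_inter.1 he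
      obtain ⟨u, _, hu⟩ := mem_biUnion.1 he
      exact (h1 u).1 e (mem_union_right _ (mem_union_right _ (mem_inter.2 ⟨heL, hu⟩)))

end

/-- OG-13 -/
theorem site : SiteStatement := by
  intro V _ _ H X E0 s C r cT cb M π σ σ' Λ _ _ _ _ _ _ _ _ S N en W l lL lC L hXH hHE _ hW hWd t
  refine ⟨fun A _ f => og13_one S N en W l lL lC L hXH hHE hW hWd t f, fun h1 h2 h3 h4 => ?_⟩
  refine ⟨og13_nl S N en W l lL lC L t h1 h2 h3 h4, fun v => ?_, ?_⟩
  · have h := og13_dvd S N en W l lL lC L hXH hHE hW hWd t h1 h2 h3 h4 2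
      (fun e => if v ∈ e then 1 else 0) (fun D hD => by
        rw [← card_filter, card_inc]
        exact even_iff_two_dvd.1 (hD.2.1 v))
    rw [← card_filter, card_inc] at h
    exact even_iff_two_dvd.2 h
  · rw [card_eq_sum_ones]
    refine og13_dvd S N en W l lL lC L hXH hHE hW hWd t h1 h2 h3 h4 3 (fun _ => 1) fun D hD => ?_
    rw [← card_eq_sum_ones]
    exact hD.2.2

end F3.OG
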