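import Pool.Agent.F3.OG.Base

/-!
# Project F3, block OG: the states of the full system (row OG-14)
-/

set_option autoImplicit false
set_option linter.unusedSectionVars false

namespace F3.OG

open Finset NW F1 F2.O

/-- the sum of the ballast tokens of one site -/
theorem og14_ball (b : ℤ) (cb : ℕ) (hb : |b| ≤ (cb : ℤ)) :
    ∑ k : Fin cb, (if ((k : ℕ) : ℤ) < |b| then 6 * b.sign else 0) = 6 * b := by
  rw [Fin.sum_univ_eq_sum_range (fun k : ℕ => if (k : ℤ) < |b| then 6 * b.sign else 0) cb]
  rw [← Finset.sum_filter]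
  have h : (Finset.range cb).filter (fun k : ℕ => (k : ℤ) < |b|) = Finset.range b.natAbs := by
    ext k
    simp only [mem_filter, mem_range]
    rw [Int.abs_eq_natAbs] at hb ⊢
    omega
  rw [h, sum_const, card_range, nsmul_eq_mul]
  have h1 := Int.sign_mul_natAbs b
  calc (b.natAbs : ℤ) * (6 * b.sign) = 6 * (b.sign * b.natAbs) := by ring
    _ = 6 * b := by rw [h1]

/-- multiples of two in `ZMod 4` -/
theorem og14_two (n : ℕ) : n • (2 : ZMod 4) = 0 ∨ n • (2 : ZMod 4) = 2 := by
  induction n with
  | zero => left; simp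
  | succ n ih =>
    rw [succ_nsmul]
    rcases ih with h | h
    · right; rw [h]; decide
    · left; rw [h]; decide

/-- a difference of elements of `{0, 2}` in `ZMod 4` -/
theorem og14_diff : ∀ a b c : ZMod 4, (a = 0 ∨ a = 2) → (b = 0 ∨ b = 2) → a = c + b →
    (c = 0 ∨ c = 2) := by decide

theorem stateF (h1 : TokStatement) (h2 : ChainStatement) (h3 : ValsStatement)
    (h4 : SiteStatement) : StateFStatement := by
  intro V _ _ H X E0 s C r cT cb M γ τ π σ σ' Λ _ _ _ _ _ _ _ _ S N en ball W X' hch hXH hHE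
    hE0 hX' hWs hWP hWd hball hγ hdiv hdivE hcT L hL hLdiv hLsum
  obtain ⟨l, d, hl, hld, hd6, hdc, hd0⟩ := h3 V H X E0 s C r cb γ π σ S ball
    (fun p => W (.pc p)) X' hXH hHE hE0 hX' (fun p => hWs _) (fun p => hWP (.pc p))
    (fun p q hpq => hWd _ _ (fun h => hpq (It.pc.inj h))) hball hγ
    (fun D hD hDd => (hdiv D hD hDd).1) hdivE L hL hLdiv hLsum
  have hdcT : ∀ j u, |d j u| ≤ (cT : ℤ) := by
    intro j u
    refine (hdc j u).trans ?_
    exact_mod_cast hcT
  choose lL hlL hflow using fun j => h1 σ σ' Λ N cT (d j) (hdcT j) (hd0 j)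
  have hLX : L ⊆ X := hL.trans hX'
  have hS := fun lC => h4 V H X E0 s C r cT cb M π σ σ' Λ S N en W l lL lC L hXH hHE hLX hWs hWd
  have hlk : ∀ k j b i, NW.Divis (W (.lk k j b i)) := fun k j b i => (hWP (.lk k j b i)).1
  have hbl : ∀ u j k, NW.Divis (W (.bl u j k)) := fun u j k => (hWP (.bl u j k)).1
  have hchd : ∀ i, NW.Divis (W (.ch i)) := fun i => (hWP (.ch i)).1
  -- divisibility at every site
  have hD : ∀ lC t, NW.Divis (siteD (zF S N) (xsF S N) W (locF N en l lL lC) L t) :=
    fun lC t => (hS lC t).2 hld hlk hbl hchd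
  -- the invariants at every site
  have hG : ∀ lC t j,
      ∑ e ∈ siteD (zF S N) (xsF S N) W (locF N en l lL lC) L t, γ j e = 0 := by
    intro lC t j
    rw [(hS lC t).1 ℤ (γ j)]
    have e1 : ∀ u, ∑ e ∈ siteD S.z S.xs (fun p => W (.pc p)) l L u, γ j e +
        ∑ j' : Fin r, ∑ k : Fin cb, ∑ e ∈ W (.bl u j' k), γ j e = 6 * d j u := by
      intro u
      rw [hd6 j u]
      congr 1
      rw [Finset.sum_eq_single j]
      · rw [← og14_ball (ball u j) cb (hball u j)]
        refine Finset.sum_congr rfl fun k _ => ?_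
        rw [(hWP (.bl u j k)).2.1 j]
        simp
      · intro j' _ hj'
        refine Finset.sum_eq_zero fun k _ => ?_
        rw [(hWP (.bl u j' k)).2.1 j]
        rw [if_neg]
        rintro ⟨h, _⟩
        exact hj' h.symm
      · intro h
        exact absurd (mem_univ j) h
    have e2 : ∑ j' : Fin r, ∑ x ∈ univ.filter (fun x : Λ × Bool × Fin cT => lL j' x = t),
        ∑ e ∈ W (.lk x.1 j' x.2.1 x.2.2), γ j e =
        6 * ∑ x ∈ univ.filter (fun x : Λ × Bool × Fin cT => lL j x = t),
          (if x.2.1 = true then (1 : ℤ) else -1) := by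
      rw [Finset.sum_eq_single j]
      · rw [Finset.mul_sum]
        refine Finset.sum_congr rfl fun x _ => ?_
        rw [(hWP (.lk x.1 j x.2.1 x.2.2)).2.1 j, if_pos rfl]
        split_ifs <;> norm_num
      · intro j' _ hj'
        refine Finset.sum_eq_zero fun x _ => ?_
        rw [(hWP (.lk x.1 j' x.2.1 x.2.2)).2.1 j, if_neg (Ne.symm hj')]
      · intro h
        exact absurd (mem_univ j) h
    have e3 : ∑ i ∈ univ.filter (fun i : Fin M => en (i + (if lC i = true then 1 else 0)) = t),
        ∑ e ∈ W (.ch i), γ j e = 0 :=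
      Finset.sum_eq_zero fun i _ => (hWP (.ch i)).2.1 j
    rw [e2, e3, Finset.sum_congr rfl (fun u _ => e1 u), ← Finset.mul_sum]
    have := hflow j t
    linarith
  -- the sites are subsets of `H`
  have hsub : ∀ lC t, zF S N t = ∅ →
      siteD (zF S N) (xsF S N) W (locF N en l lL lC) L t ⊆ H := by
    intro lC t hz e he
    unfold siteD at he
    rw [hz, empty_union] at he
    rcases mem_union.1 he with h | h
    · obtain ⟨i, _, hi⟩ := mem_biUnion.1 h
      exact (mem_sdiff.1 (hWs i hi)).1
    · exact hXH (hLX (mem_inter.1 h).1)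
  have hchT : ∀ (P : Fin M → Prop) [DecidablePred P],
      ∑ i ∈ univ.filter P, ∑ e ∈ W (.ch i), τ e = ∑ i ∈ univ.filter P, (2 : ZMod 4) :=
    fun P _ => Finset.sum_congr rfl fun i _ => (hWP (.ch i)).2.2
  obtain ⟨lC, hlC⟩ : ∃ lC : Fin M → Bool, ∀ t, zF S N t = ∅ →
      ∑ e ∈ siteD (zF S N) (xsF S N) W (locF N en l lL lC) L t, τ e = 0 := by
    rcases hch with ⟨_, hτ⟩ | ⟨hinj, hsurj⟩
    · exact ⟨fun _ => false, fun t _ => Finset.sum_eq_zero fun e _ => hτ e⟩
    · let R : σ' → ZMod 4 := fun t =>
        ∑ u ∈ univ.filter (fun u => N.base u = t),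
          (∑ e ∈ siteD S.z S.xs (fun p => W (.pc p)) l L u, τ e +
            ∑ j : Fin r, ∑ k : Fin cb, ∑ e ∈ W (.bl u j k), τ e) +
        ∑ j : Fin r, ∑ x ∈ univ.filter (fun x : Λ × Bool × Fin cT => lL j x = t),
          ∑ e ∈ W (.lk x.1 j x.2.1 x.2.2), τ e
      have hR : ∀ lC t, ∑ e ∈ siteD (zF S N) (xsF S N) W (locF N en l lL lC) L t, τ e =
          R t + ∑ i ∈ univ.filter (fun i : Fin M =>
            en (i + (if lC i = true then 1 else 0)) = t), (2 : ZMod 4) := by
        intro lC t
        rw [(hS lC t).1 (ZMod 4) τ, hchT]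
      have hR2 : ∀ t, zF S N t = ∅ → R t = 0 ∨ R t = 2 := by
        intro t hz
        have a1 := (hdiv _ (hsub (fun _ => false) t hz) (hD _ t)).2
        have a2 := hR (fun _ => false) t
        have a3 : ∑ i ∈ univ.filter (fun i : Fin M =>
            en (i + (if (fun _ => false : Fin M → Bool) i = true then 1 else 0)) = t),
            (2 : ZMod 4) = 0 ∨ ∑ i ∈ univ.filter (fun i : Fin M =>
            en (i + (if (fun _ => false : Fin M → Bool) i = true then 1 else 0)) = t),
            (2 : ZMod 4) = 2 := by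
          rw [sum_const]
          exact og14_two _
        exact og14_diff _ _ _ a1 a3 a2
      obtain ⟨lC, hlC⟩ := h2 M (fun i => if zF S N (en i) = ∅ then R (en i) else 0) (by
        intro i
        by_cases h : zF S N (en i) = ∅
        · simp only [h, if_true]
          exact hR2 _ h
        · simp only [h, if_false]
          exact Or.inl trivial)
      refine ⟨lC, fun t hz => ?_⟩
      obtain ⟨i, hi, rfl⟩ := hsurj t hz
      rw [hR]
      have b1 := hlC i hi
      simp only [hz, if_true] at b1
      have b2 : univ.filter (fun k : Fin M => en (k + (if lC k = true then 1 else 0)) = en i) =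
          univ.filter (fun k : Fin M => (k : ℕ) + (if lC k = true then 1 else 0) = i) := by
        ext k
        simp only [mem_filter, mem_univ, true_and]
        constructor
        · intro h
          refine hinj _ _ ?_ hi.le h
          have := k.2
          split_ifs <;> omega
        · intro h
          rw [h]
      rw [b2]
      exact b1
  refine ⟨locF N en l lL lC, ?_, ?_⟩
  · intro x
    cases x with
    | pc p => exact ⟨l p, rfl, hl p⟩
    | lk k j b i => exact hlL j (k, b, i)
    | bl u j i => exact rfl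
    | ch i =>
      show en (i + (if lC i = true then 1 else 0)) = en i ∨
        en (i + (if lC i = true then 1 else 0)) = en (i + 1)
      by_cases h : lC i = true
      · right; rw [if_pos h]
      · left; rw [if_neg h]; rfl
  · intro t
    refine ⟨hD lC t, fun j => hG lC t j, fun hz => ?_⟩
    have := hlC t hz
    unfold siteD at this
    rw [hz, empty_union] at this
    exact this

end F3.OG
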