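import Pool.Agent.F3.OG.Base

/-!
# Project F3, block OG, row OG-2: the tokens realise the flow
-/

set_option autoImplicit false
set_option linter.unusedSectionVars false

namespace F3.OG

open Finset NW F1 F2.O

private theorem og2_count (c : ℕ) (m : ℤ) (h : m ≤ c) :
    ∑ i : Fin c, (if ((i : ℕ) : ℤ) < m then (1 : ℤ) else 0) = (m.toNat : ℤ) := by
  rw [Fin.sum_univ_eq_sum_range (fun i : ℕ => if (i : ℤ) < m then (1 : ℤ) else 0) c]
  rw [← Finset.sum_filter, Finset.sum_const, nsmul_eq_mul, mul_one]
  have h1 : (range c).filter (fun i : ℕ => (i : ℤ) < m) = range m.toNat := by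
    ext i
    simp only [mem_filter, mem_range]
    omega
  rw [h1, card_range]

private theorem og2_link {σ' : Type} [DecidableEq σ'] (A B t : σ') (c : ℕ) (m : ℤ)
    (hm : |m| ≤ c) :
    ∑ b : Bool, ∑ i : Fin c,
      (if (if ((i : ℕ) : ℤ) < (if b = true then m else -m) then B else A) = t
        then (if b = true then (1 : ℤ) else -1) else 0) =
      (if B = t then m else 0) - (if A = t then m else 0) := by
  have h0 := abs_le.1 hm
  have h1 : ∀ (s m' : ℤ), m' ≤ c → ∑ i : Fin c,
      (if (if ((i : ℕ) : ℤ) < m' then B else A) = t then s else 0) =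
      (if A = t then s * c else 0) +
        ((if B = t then s * (m'.toNat : ℤ) else 0) - (if A = t then s * (m'.toNat : ℤ) else 0)) := by
    intro s m' hm'
    have h2 : ∀ i : Fin c, (if (if ((i : ℕ) : ℤ) < m' then B else A) = t then s else 0) =
        (if A = t then s else 0) + ((if B = t then s else 0) - (if A = t then s else 0)) *
          (if ((i : ℕ) : ℤ) < m' then (1 : ℤ) else 0) := by
      intro i
      by_cases hc : ((i : ℕ) : ℤ) < m'
      · simp only [if_pos hc]
        ring
      · simp only [if_neg hc]
        ring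
    rw [Finset.sum_congr rfl fun i _ => h2 i, Finset.sum_add_distrib, ← Finset.mul_sum,
      og2_count c m' hm', Finset.sum_const, Finset.card_univ, Fintype.card_fin, nsmul_eq_mul]
    by_cases hA : A = t <;> by_cases hB : B = t <;> simp only [hA, hB, if_true, if_false] <;> ring
  rw [Fintype.sum_bool]
  have h3 := h1 1 m h0.2
  have h4 := h1 (-1) (-m) (by linarith [h0.1])
  simp only [if_true, Bool.false_eq_true, if_false]
  rw [h3, h4]
  have h5 : ((m.toNat : ℤ)) - (((-m).toNat : ℕ) : ℤ) = m := by omega
  by_cases hA : A = t <;> by_cases hB : B = t <;> simp only [hA, hB, if_true, if_false] <;>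
    linarith

/-- row OG-2 -/
theorem tok : TokStatement := by
  intro σ σ' Λ _ _ _ _ _ _ N c d hd hs
  obtain ⟨x, hx, hflow⟩ := N.flow c d hd hs
  refine ⟨fun y => if (((y.2.2 : ℕ) : ℤ) < if y.2.1 = true then x y.1 else - x y.1)
    then N.b y.1 else N.a y.1, ?_, ?_⟩
  · intro y
    by_cases h : (((y.2.2 : ℕ) : ℤ) < if y.2.1 = true then x y.1 else - x y.1)
    · right
      simp only [if_pos h]
    · left
      simp only [if_neg h]
  · intro t
    have h1 : ∑ y ∈ univ.filter (fun y : Λ × Bool × Fin c =>
        (if (((y.2.2 : ℕ) : ℤ) < if y.2.1 = true then x y.1 else - x y.1)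
          then N.b y.1 else N.a y.1) = t), (if y.2.1 = true then (1 : ℤ) else -1) =
        ∑ k, ((if N.b k = t then x k else 0) - (if N.a k = t then x k else 0)) := by
      rw [Finset.sum_filter, Fintype.sum_prod_type]
      refine Finset.sum_congr rfl fun k _ => ?_
      rw [Fintype.sum_prod_type]
      exact og2_link (N.a k) (N.b k) t c (x k) (hx k)
    rw [h1, Finset.sum_sub_distrib, ← Finset.sum_filter, ← Finset.sum_filter]
    have h2 := hflow t
    linarith

end F3.OG
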