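import Pool.Agent.F3.OG.Base

/-!
# Project F3, row OG-15: the sum of all tokens
-/

set_option autoImplicit false
set_option linter.unusedSectionVars false

namespace F3.OG

open Finset NW F1 F2.O

/-- a disjoint union of divisible sets is divisible -/
theorem og15_divis_biUnion {V : Type} [Fintype V] [DecidableEq V] {ι : Type*} [DecidableEq ι]
    (T : Finset ι) (A : ι → Finset (Sym2 V)) (h : ∀ i ∈ T, NW.Divis (A i))
    (hd : ∀ i ∈ T, ∀ j ∈ T, i ≠ j → Disjoint (A i) (A j)) : NW.Divis (T.biUnion A) := by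
  induction T using Finset.induction_on with
  | empty =>
    rw [biUnion_empty]
    exact divis_empty
  | insert i T hi ih =>
    rw [biUnion_insert]
    refine divis_union (h i (mem_insert_self _ _)) (ih ?_ ?_) ?_
    · exact fun j hj => h j (mem_insert_of_mem hj)
    · exact fun j hj k hk => hd j (mem_insert_of_mem hj) k (mem_insert_of_mem hk)
    · rw [disjoint_biUnion_right]
      intro j hj
      refine hd i (mem_insert_self _ _) j (mem_insert_of_mem hj) ?_
      rintro rfl
      exact hi hj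

/-- the sum of the ballast tokens of one site and one invariant -/
theorem og15_sign (cb : ℕ) (b : ℤ) (hb : |b| ≤ cb) :
    ∑ k : Fin cb, (if ((k : ℕ) : ℤ) < |b| then 6 * b.sign else 0) = 6 * b := by
  have h1 : ∑ k : Fin cb, (if ((k : ℕ) : ℤ) < |b| then 6 * b.sign else 0) =
      ∑ k ∈ range cb, (if (k : ℤ) < |b| then 6 * b.sign else 0) :=
    Fin.sum_univ_eq_sum_range (fun k : ℕ => if (k : ℤ) < |b| then 6 * b.sign else 0) cb
  have h2 : (range cb).filter (fun k : ℕ => (k : ℤ) < |b|) = range b.natAbs := by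
    ext k
    rw [mem_filter, mem_range, mem_range]
    have h3 : |b| = (b.natAbs : ℤ) := (Int.natCast_natAbs b).symm
    rw [h3] at hb ⊢
    omega
  have h4 : (b.natAbs : ℤ) * b.sign = b := by
    rw [mul_comm]
    exact Int.sign_mul_natAbs b
  rw [h1, ← sum_filter, h2, sum_const, card_range, nsmul_eq_mul]
  calc (b.natAbs : ℤ) * (6 * b.sign) = 6 * ((b.natAbs : ℤ) * b.sign) := by ring
    _ = 6 * b := by rw [h4]

section

variable {V : Type} [Fintype V] [DecidableEq V] {π σ Λ : Type} {r cT cb M : ℕ}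
  [Fintype π] [Fintype σ] [Fintype Λ] [DecidableEq π] [DecidableEq σ] [DecidableEq Λ]

/-- the sum over all items of an invariant -/
theorem og15_sum (γ : Fin r → Sym2 V → ℤ) (τ : Sym2 V → ZMod 4) (gv : π → Finset V)
    (ball : σ → Fin r → ℤ) (W : It π σ Λ r cT cb M → Finset (Sym2 V))
    (hP : ∀ x, ItP γ τ gv ball x (W x)) (hb : ∀ u j, |ball u j| ≤ cb) (j : Fin r) :
    ∑ x, ∑ e ∈ W x, γ j e = ∑ p, ∑ e ∈ W (.pc p), γ j e + 6 * ∑ u, ball u j := by
  rw [sum_it]
  have h1 : ∑ k : Λ, ∑ j' : Fin r, ∑ b : Bool, ∑ i : Fin cT,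
      ∑ e ∈ W (.lk k j' b i), γ j e = 0 := by
    refine sum_eq_zero (fun k _ => sum_eq_zero (fun j' _ => ?_))
    have h : ∀ (b : Bool) (i : Fin cT), ∑ e ∈ W (.lk k j' b i), γ j e =
        if j = j' then (if b = true then 6 else -6) else 0 := fun b i =>
      (hP (.lk k j' b i)).2.1 j
    simp only [h]
    rw [Fintype.sum_bool, ← sum_add_distrib]
    refine sum_eq_zero (fun i _ => ?_)
    by_cases hj : j = j'
    · simp [hj]
    · simp [hj]
  have h2 : ∀ u : σ, ∑ j' : Fin r, ∑ k : Fin cb, ∑ e ∈ W (.bl u j' k), γ j e =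
      6 * ball u j := by
    intro u
    have h : ∀ (j' : Fin r) (k : Fin cb), ∑ e ∈ W (.bl u j' k), γ j e =
        if j = j' ∧ ((k : ℕ) : ℤ) < |ball u j'| then 6 * (ball u j').sign else 0 := fun j' k =>
      (hP (.bl u j' k)).2.1 j
    simp only [h]
    rw [sum_eq_single j]
    · rw [← og15_sign cb (ball u j) (hb u j)]
      refine sum_congr rfl (fun k _ => ?_)
      by_cases hk : ((k : ℕ) : ℤ) < |ball u j|
      · rw [if_pos ⟨rfl, hk⟩, if_pos hk]
      · rw [if_neg (fun hh => hk hh.2), if_neg hk]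
    · intro j' _ hj'
      refine sum_eq_zero (fun k _ => ?_)
      rw [if_neg (fun hh => hj' hh.1.symm)]
    · intro hj
      exact absurd (mem_univ j) hj
  have h3 : ∑ i : Fin M, ∑ e ∈ W (.ch i), γ j e = 0 :=
    sum_eq_zero (fun i _ => (hP (.ch i)).2.1 j)
  rw [h1, h3, sum_congr rfl (fun u _ => h2 u), ← mul_sum]
  ring

end

/-- row OG-15 -/
theorem tot : TotStatement := by
  intro V _ _ H X E0 r cT cb M γ τ π σ Λ _ _ _ _ _ _ gv ball W hXH hHE hW hP hd hb L hL
  have hWL : ∀ x, Disjoint (W x) (E0 ∪ L) := by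
    intro x
    rw [disjoint_left]
    intro e he he'
    rcases mem_union.1 he' with h | h
    · exact disjoint_left.1 hHE (mem_sdiff.1 (hW x he)).1 h
    · exact (mem_sdiff.1 (hW x he)).2 (hL h)
  have hpc : ∀ p q : π, p ≠ q → (It.pc p : It π σ Λ r cT cb M) ≠ It.pc q := by
    intro p q hpq hh
    exact hpq (It.pc.inj hh)
  have hd1 : Disjoint (univ.biUnion W) (E0 ∪ L) := by
    rw [disjoint_biUnion_left]
    exact fun x _ => hWL x
  have hd2 : Disjoint (univ.biUnion (fun p => W (.pc p))) (E0 ∪ L) := by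
    rw [disjoint_biUnion_left]
    exact fun p _ => hWL (.pc p)
  refine ⟨fun j => ?_, fun hD => ?_⟩
  · rw [sum_union hd1, sum_union hd2, sum_biUnion (fun x _ y _ hxy => hd x y hxy),
      sum_biUnion (fun p _ q _ hpq => hd (.pc p) (.pc q) (hpc p q hpq)),
      og15_sum γ τ gv ball W hP hb j]
    ring
  · have key : univ.biUnion W ∪ (E0 ∪ L) = (univ.biUnion (fun p => W (.pc p)) ∪ (E0 ∪ L)) ∪
        (univ \ univ.image (fun p : π => (It.pc p : It π σ Λ r cT cb M))).biUnion W := by
      ext e
      simp only [mem_union, mem_biUnion, mem_univ, true_and, mem_sdiff, mem_image]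
      constructor
      · rintro (⟨x, hx⟩ | h)
        · by_cases hxp : ∃ p : π, (It.pc p : It π σ Λ r cT cb M) = x
          · obtain ⟨p, rfl⟩ := hxp
            exact Or.inl (Or.inl ⟨p, hx⟩)
          · exact Or.inr ⟨x, hxp, hx⟩
        · exact Or.inl (Or.inr h)
      · rintro ((⟨p, hp⟩ | h) | ⟨x, _, hx⟩)
        · exact Or.inl ⟨_, hp⟩
        · exact Or.inr h
        · exact Or.inl ⟨x, hx⟩
    rw [key] at hD
    refine divis_of_union hD ?_ ?_
    · refine og15_divis_biUnion _ W ?_ (fun i _ k _ => hd i k)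
      intro x hx
      have hx' := (mem_sdiff.1 hx).2
      have hPx := hP x
      cases x with
      | pc p => exact absurd (mem_image_of_mem _ (mem_univ p)) hx'
      | lk k j b i => exact hPx.1
      | bl u j k => exact hPx.1
      | ch i => exact hPx.1
    · rw [disjoint_union_left]
      constructor
      · rw [disjoint_biUnion_left]
        intro p _
        rw [disjoint_biUnion_right]
        intro x hx
        refine hd _ _ ?_
        rintro rfl
        exact (mem_sdiff.1 hx).2 (mem_image_of_mem _ (mem_univ p))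
      · rw [disjoint_biUnion_right]
        exact fun x _ => (hWL x).symm

end F3.OG
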