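import Pool.Agent.F3.OG.Base

/-!
# Project F3, block OG, row 12: the values of the invariants at the base sites
-/

set_option autoImplicit false
set_option linter.unusedSectionVars false

namespace F3.OG

open Finset NW F1 F2.O

section

variable {V : Type} [Fintype V] [DecidableEq V]

theorem og12_mem {ι σ : Type} [Fintype ι] [DecidableEq σ] {z xs : σ → Finset (Sym2 V)}
    {W : ι → Finset (Sym2 V)} {loc : ι → σ} {L : Finset (Sym2 V)} {t : σ} {e : Sym2 V} :
    e ∈ siteD z xs W loc L t ↔ e ∈ z t ∨ (∃ i, loc i = t ∧ e ∈ W i) ∨ (e ∈ L ∧ e ∈ xs t) := by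
  unfold siteD
  rw [mem_union, mem_union, mem_biUnion, mem_inter]
  constructor
  · rintro (h | ⟨i, hi, h⟩ | h)
    · exact Or.inl h
    · exact Or.inr (Or.inl ⟨i, (mem_filter.1 hi).2, h⟩)
    · exact Or.inr (Or.inr h)
  · rintro (h | ⟨i, hi, h⟩ | h)
    · exact Or.inl h
    · exact Or.inr (Or.inl ⟨i, mem_filter.2 ⟨mem_univ _, hi⟩, h⟩)
    · exact Or.inr (Or.inr h)

/-- a bounded weight on few edges -/
theorem og12_abs {f : Sym2 V → ℤ} (hf : ∀ e, |f e| ≤ 4) (D : Finset (Sym2 V)) {m : ℕ}
    (hD : D.card ≤ m) : |∑ e ∈ D, f e| ≤ 4 * (m : ℤ) := by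
  refine (Finset.abs_sum_le_sum_abs _ _).trans ?_
  refine (Finset.sum_le_sum fun e _ => hf e).trans ?_
  rw [Finset.sum_const, nsmul_eq_mul]
  have h1 : (D.card : ℤ) ≤ m := by exact_mod_cast hD
  linarith

end

theorem vals : ValsStatement := by
  intro V _ _ H X E0 s C r cb γ π σ _ _ _ _ S ball W X' hXH hHE hE0 hX' hW hP hWd hball hγ hdv
    hdv0 L hL hDiv hTot
  have hLX : L ⊆ X := hL.trans hX'
  have hWXE : ∀ p, Disjoint (W p) (X ∪ E0) := by
    intro p
    rw [disjoint_left]
    intro e he he'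
    have h1 := mem_sdiff.1 (hW p he)
    rcases mem_union.1 he' with h | h
    · exact h1.2 h
    · exact disjoint_left.1 hHE h1.1 h
  obtain ⟨loc, hok, hsite⟩ := S.state W hP hWd hWXE L hLX hDiv
  have hrest : ∀ u, (univ.filter (fun i => loc i = u)).biUnion W ∪ (L ∩ S.xs u) ⊆ H := by
    intro u e he
    rcases mem_union.1 he with h | h
    · obtain ⟨i, _, hi⟩ := mem_biUnion.1 h
      exact (mem_sdiff.1 (hW i hi)).1
    · exact hXH (hLX (mem_inter.1 h).1)
  -- divisibility
  have hsix : ∀ (j : Fin r) (u : σ), 6 ∣ ∑ e ∈ siteD S.z S.xs W loc L u, γ j e := by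
    intro j u
    have h1 := hsite u
    by_cases hz : S.z u = ∅
    · refine hdv _ ?_ h1 j
      unfold siteD
      rw [hz, empty_union]
      exact hrest u
    · have hz' : S.z u = E0 := by
        refine eq_of_subset_of_card_le (S.z_sub u) (hE0.trans ?_)
        exact Finset.card_pos.2 (Finset.nonempty_iff_ne_empty.2 hz)
      unfold siteD at h1 ⊢
      rw [hz'] at h1 ⊢
      exact hdv0 _ (hrest u) h1 j
  choose k hk using hsix
  -- size
  have hcard : ∀ u, (siteD S.z S.xs W loc L u).card ≤ 4 * C + 2 := by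
    intro u
    have h1 : (S.z u).card ≤ 1 := (card_le_card (S.z_sub u)).trans hE0
    have h2 : (L ∩ S.xs u).card ≤ 1 := (card_le_card inter_subset_right).trans (S.xs_card u)
    have h3 : ((univ.filter (fun i => loc i = u)).biUnion W).card ≤
        (univ.filter (fun i => loc i = u)).card * 4 :=
      card_biUnion_le_card_mul _ _ _ (fun i _ => (hP i).card_le)
    have h4 : (univ.filter (fun i => loc i = u)).card ≤ C := by
      obtain ⟨P, hPc, hPm⟩ := S.at_le u
      refine (card_le_card ?_).trans hPc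
      intro i hi
      refine hPm i ?_
      rw [← (mem_filter.1 hi).2]
      exact hok i
    unfold siteD
    refine (card_union_le _ _).trans ?_
    have h5 := card_union_le ((univ.filter (fun i => loc i = u)).biUnion W) (L ∩ S.xs u)
    omega
  -- the sites are disjoint
  have hdisj : ∀ u u', u ≠ u' →
      Disjoint (siteD S.z S.xs W loc L u) (siteD S.z S.xs W loc L u') := by
    intro u u' huu
    rw [disjoint_left]
    intro e he he'
    rw [og12_mem] at he he'
    have hEH : ∀ v, e ∈ S.z v → e ∉ H := fun v hv h => disjoint_left.1 hHE h (S.z_sub v hv)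
    have hWH : ∀ i, e ∈ W i → e ∈ H ∧ e ∉ X := fun i hi => mem_sdiff.1 (hW i hi)
    rcases he with h | ⟨i, hi, h⟩ | ⟨h, hx⟩
    · rcases he' with h' | ⟨i', hi', h'⟩ | ⟨h', hx'⟩
      · exact huu (S.z_uniq u u' e h h')
      · exact hEH u h (hWH i' h').1
      · exact hEH u h (hXH (hLX h'))
    · rcases he' with h' | ⟨i', hi', h'⟩ | ⟨h', hx'⟩
      · exact hEH u' h' (hWH i h).1
      · have hii : i ≠ i' := by
          rintro rfl
          exact huu (hi.symm.trans hi')
        exact disjoint_left.1 (hWd i i' hii) h h'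
      · exact (hWH i h).2 (hLX h')
    · rcases he' with h' | ⟨i', hi', h'⟩ | ⟨h', hx'⟩
      · exact hEH u' h' (hXH (hLX h))
      · exact (hWH i' h').2 (hLX h)
      · exact huu (S.xs_uniq u u' e hx hx')
  -- the sites cover everything
  have hcov : univ.biUnion (fun u => siteD S.z S.xs W loc L u) =
      univ.biUnion W ∪ (E0 ∪ L) := by
    ext e
    rw [mem_biUnion, mem_union, mem_union, mem_biUnion]
    constructor
    · rintro ⟨u, -, he⟩
      rw [og12_mem] at he
      rcases he with h | ⟨i, hi, h⟩ | ⟨h, hx⟩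
      · exact Or.inr (Or.inl (S.z_sub u h))
      · exact Or.inl ⟨i, mem_univ _, h⟩
      · exact Or.inr (Or.inr h)
    · rintro (⟨i, -, h⟩ | h | h)
      · exact ⟨loc i, mem_univ _, og12_mem.2 (Or.inr (Or.inl ⟨i, rfl, h⟩))⟩
      · obtain ⟨u, hu⟩ := S.z_ex e h
        exact ⟨u, mem_univ _, og12_mem.2 (Or.inl hu)⟩
      · obtain ⟨u, hu⟩ := S.xs_ex e (hLX h)
        exact ⟨u, mem_univ _, og12_mem.2 (Or.inr (Or.inr ⟨h, hu⟩))⟩
  refine ⟨loc, fun j u => k j u + ball u j, hok, hsite, ?_, ?_, ?_⟩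
  · intro j u
    rw [hk j u, mul_add]
  · intro j u
    have h1 := og12_abs (hγ j) _ (hcard u)
    rw [hk j u, abs_mul] at h1
    have h2 : |(6 : ℤ)| = 6 := rfl
    rw [h2] at h1
    have h3 : |k j u| ≤ 6 * |k j u| := by
      have := abs_nonneg (k j u)
      linarith
    push_cast at h1
    exact (abs_add_le _ _).trans (add_le_add (h3.trans h1) (hball u j))
  · intro j
    have h1 : ∑ u, ∑ e ∈ siteD S.z S.xs W loc L u, γ j e =
        ∑ e ∈ univ.biUnion W ∪ (E0 ∪ L), γ j e := by
      rw [← hcov, sum_biUnion (fun u _ u' _ huu => hdisj u u' huu)]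
    have h2 := hTot j
    rw [← h1, Finset.sum_congr rfl (fun u _ => hk j u), ← Finset.mul_sum, ← mul_add] at h2
    rw [Finset.sum_add_distrib]
    have h3 : (6 : ℤ) ≠ 0 := by norm_num
    exact (mul_eq_zero.1 h2).resolve_left h3

end F3.OG
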