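import Pool.Agent.F3.OG.Spec
import Pool.Agent.F2.O.Base

/-!
# Project F3, block OG: sums over the items
-/

set_option autoImplicit false
set_option linter.unusedSectionVars false

namespace F3.OG

open Finset NW F1 F2.O

/-- the items as a sum type -/
def itEquiv (π σ Λ : Type) (r c cb M : ℕ) : It π σ Λ r c cb M ≃
    π ⊕ ((Λ × Fin r × Bool × Fin c) ⊕ ((σ × Fin r × Fin cb) ⊕ Fin M)) where
  toFun
    | .pc p => Sum.inl p
    | .lk k j b i => Sum.inr (Sum.inl (k, j, b, i))
    | .bl u j i => Sum.inr (Sum.inr (Sum.inl (u, j, i)))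
    | .ch i => Sum.inr (Sum.inr (Sum.inr i))
  invFun
    | Sum.inl p => .pc p
    | Sum.inr (Sum.inl x) => .lk x.1 x.2.1 x.2.2.1 x.2.2.2
    | Sum.inr (Sum.inr (Sum.inl x)) => .bl x.1 x.2.1 x.2.2
    | Sum.inr (Sum.inr (Sum.inr i)) => .ch i
  left_inv x := by cases x <;> rfl
  right_inv x := by rcases x with x | x | x | x <;> rfl

section

variable {π σ Λ : Type} {r c cb M : ℕ} [Fintype π] [Fintype σ] [Fintype Λ]

/-- the sum over all items -/
theorem sum_it {A : Type*} [AddCommMonoid A] (f : It π σ Λ r c cb M → A) :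
    ∑ x, f x = ∑ p, f (.pc p) + (∑ k : Λ, ∑ j : Fin r, ∑ b : Bool, ∑ i : Fin c, f (.lk k j b i) +
      (∑ u : σ, ∑ j : Fin r, ∑ i : Fin cb, f (.bl u j i) + ∑ i : Fin M, f (.ch i))) := by
  rw [← (itEquiv π σ Λ r c cb M).symm.sum_comp]
  rw [Fintype.sum_sum_type, Fintype.sum_sum_type, Fintype.sum_sum_type]
  simp only [Fintype.sum_prod_type]
  rfl

/-- the number of items -/
theorem card_it : Fintype.card (It π σ Λ r c cb M) = Fintype.card π +
    (Fintype.card Λ * (r * (2 * c)) + (Fintype.card σ * (r * cb) + M)) := by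
  rw [Fintype.card_congr (itEquiv π σ Λ r c cb M)]
  simp only [Fintype.card_sum, Fintype.card_prod, Fintype.card_fin, Fintype.card_bool]

/-- the sum over the edges of a site -/
theorem sum_siteD {V : Type} [Fintype V] [DecidableEq V] {ι σ : Type} [Fintype ι]
    [DecidableEq ι] [DecidableEq σ] {A : Type*} [AddCommMonoid A] (f : Sym2 V → A)
    {z xs : σ → Finset (Sym2 V)} {W : ι → Finset (Sym2 V)} {H X E0 L : Finset (Sym2 V)}
    (loc : ι → σ) (hHE : Disjoint H E0) (hXH : X ⊆ H) (hW : ∀ i, W i ⊆ H \ X)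
    (hWd : ∀ i j, i ≠ j → Disjoint (W i) (W j)) (t : σ) (hz : z t ⊆ E0) (hxs : xs t ⊆ X) :
    ∑ e ∈ siteD z xs W loc L t, f e = ∑ e ∈ z t, f e +
      (∑ i ∈ univ.filter (fun i => loc i = t), ∑ e ∈ W i, f e + ∑ e ∈ L ∩ xs t, f e) := by
  have h1 : Disjoint ((univ.filter (fun i => loc i = t)).biUnion W) (L ∩ xs t) := by
    rw [disjoint_left]
    intro e he he'
    obtain ⟨i, _, hi⟩ := mem_biUnion.1 he
    exact (mem_sdiff.1 (hW i hi)).2 (hxs (mem_inter.1 he').2)
  have h2 : Disjoint (z t) ((univ.filter (fun i => loc i = t)).biUnion W ∪ (L ∩ xs t)) := by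
    rw [disjoint_left]
    intro e he he'
    refine disjoint_left.1 hHE ?_ (hz he)
    rcases mem_union.1 he' with h | h
    · obtain ⟨i, _, hi⟩ := mem_biUnion.1 h
      exact (mem_sdiff.1 (hW i hi)).1
    · exact hXH (hxs (mem_inter.1 h).2)
  unfold siteD
  rw [sum_union h2, sum_union h1, sum_biUnion (fun i _ j _ hij => hWd i j hij)]

end

end F3.OG
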