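import Pool.Agent.F3.Targets

/-!
# Project F3, block OG (omni-absorber with tokens): definitions and statements

See section 5 of the blueprint and the note F3-OG on MP_6a0350_co.
-/

set_option autoImplicit false
set_option linter.unusedSectionVars false

namespace F3.OG

open Finset NW F1 F2.O

/-! ## The network -/

/-- a network: sites `σ'` containing the base sites `σ`, links `Λ` with two ends -/
structure Net (σ σ' Λ : Type) [Fintype σ] [Fintype σ'] [Fintype Λ] [DecidableEq σ]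
    [DecidableEq σ'] [DecidableEq Λ] where
  base : σ → σ'
  a : Λ → σ'
  b : Λ → σ'
  inj : Function.Injective base
  ab : ∀ k, a k ≠ b k
  deg : ∀ t, (univ.filter (fun k => a k = t ∨ b k = t)).card ≤ 4
  flow : ∀ (c : ℕ) (d : σ → ℤ), (∀ u, |d u| ≤ c) → ∑ u, d u = 0 →
    ∃ x : Λ → ℤ, (∀ k, |x k| ≤ c) ∧ ∀ t : σ', (∑ u ∈ univ.filter (fun u => base u = t), d u) +
      (∑ k ∈ univ.filter (fun k => b k = t), x k) -
      (∑ k ∈ univ.filter (fun k => a k = t), x k) = 0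

/-- OG-1: a network with bounded degrees and bounded flows exists -/
def NetStatement : Prop :=
  ∀ (σ : Type) [Fintype σ] [DecidableEq σ], ∃ (σ' Λ : Type) (_ : Fintype σ') (_ : Fintype Λ)
    (_ : DecidableEq σ') (_ : DecidableEq Λ), Nonempty (Net σ σ' Λ) ∧
    Fintype.card σ' ≤ 2 * (Fintype.card σ + 1) * (Nat.log 2 (Fintype.card σ + 1) + 2) ∧
    Fintype.card Λ ≤ 2 * Fintype.card σ'

/-- OG-2: the tokens of the links realise the flow. The tokens of the link `k` are `(k, b, i)`,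
`b = true` for the positive ones -/
def TokStatement : Prop :=
  ∀ (σ σ' Λ : Type) [Fintype σ] [Fintype σ'] [Fintype Λ] [DecidableEq σ]
    [DecidableEq σ'] [DecidableEq Λ] (N : Net σ σ' Λ) (c : ℕ) (d : σ → ℤ), (∀ u, |d u| ≤ c) →
    ∑ u, d u = 0 → ∃ loc : Λ × Bool × Fin c → σ', (∀ x, loc x = N.a x.1 ∨ loc x = N.b x.1) ∧
      ∀ t : σ', (∑ u ∈ univ.filter (fun u => N.base u = t), d u) +
        ∑ x ∈ univ.filter (fun x => loc x = t), (if x.2.1 = true then (1 : ℤ) else -1) = 0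

/-- OG-3: the tokens of a chain; `loc i = true` means that the token `i` is at the site `i + 1` -/
def ChainStatement : Prop :=
  ∀ (M : ℕ) (v : ℕ → ZMod 4), (∀ i, v i = 0 ∨ v i = 2) → ∃ loc : Fin M → Bool,
    ∀ i < M, v i + ∑ k ∈ univ.filter (fun k : Fin M =>
      (k : ℕ) + (if loc k = true then 1 else 0) = i), (2 : ZMod 4) = 0

/-- OG-3: an enumeration of a finite type which ends with a given element -/
def EnStatement : Prop :=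
  ∀ (σ' : Type) [Fintype σ'] [DecidableEq σ'] (t : σ'), ∃ en : ℕ → σ',
    (∀ i j, i ≤ Fintype.card σ' - 1 → j ≤ Fintype.card σ' - 1 → en i = en j → i = j) ∧
    ∀ t', t' ≠ t → ∃ i < Fintype.card σ' - 1, en i = t'

/-- OG-3: the size of the network -/
def LogStatement : Prop :=
  ∀ C : ℕ, ∃ C' : ℕ, ∀ n s s₁ a b : ℕ, 1 ≤ s₁ → s₁ * (Nat.log 2 n + 1) ≤ s → s ≤ n →
    a * s ≤ C * n ^ 2 → b ≤ 2 * (a + 1) * (Nat.log 2 (a + 1) + 2) → b * s₁ ≤ C' * n ^ 2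

section Defs

variable {V : Type} [Fintype V] [DecidableEq V]

/-- the edges at the site `t`: special edges, the items located at `t`, reserve edges of `L` -/
def siteD {ι σ : Type} [Fintype ι] [DecidableEq σ] (z xs : σ → Finset (Sym2 V))
    (W : ι → Finset (Sym2 V)) (loc : ι → σ) (L : Finset (Sym2 V)) (t : σ) : Finset (Sym2 V) :=
  z t ∪ ((univ.filter (fun i => loc i = t)).biUnion W ∪ (L ∩ xs t))

end Defs

/-! ## The base skeleton -/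

/-- OG-4: the cells of a grid -/
def CellLStatement : Prop :=
  ∀ (V : Type) [Fintype V] [DecidableEq V] (H : Finset (Sym2 V)) (s : ℕ) (ro co : V → ℕ),
    NW.NL H → GridS V s ro co → 1 ≤ Fintype.card V →
    (∀ v, NW.deg (F2.Xs ro co H) v * s ≤ 4 * Fintype.card V) ∧
    ∃ (𝒞 : Finset (Finset (F2.Lab V))) (can : Sym2 V → F2.Lab V),
      Cell (F2.Xs ro co H) (labs ro co) 𝒞 can 32 s

/-- the base skeleton: the skeleton of block O of F2 and a special site for `E0` -/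
structure BSk (V : Type) [Fintype V] [DecidableEq V] (X E0 : Finset (Sym2 V)) (s C : ℕ)
    (π σ : Type) [Fintype π] [Fintype σ] [DecidableEq π] [DecidableEq σ] where
  gv : π → Finset V
  ok : π → σ → Prop
  xs : σ → Finset (Sym2 V)
  z : σ → Finset (Sym2 V)
  gv_card : ∀ p, gv p = ∅ ∨ (gv p).card = 2
  π_card : Fintype.card π * s ≤ C * Fintype.card V ^ 2
  σ_card : Fintype.card σ * s ≤ C * Fintype.card V ^ 2
  σ_ne : 1 ≤ Fintype.card σ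
  gv_mult : ∀ v, (univ.filter (fun p => v ∈ gv p)).card * s ≤ C * Fintype.card V
  ok_ex : ∀ p, ∃ t, ok p t
  ok_le : ∀ p, ∃ T : Finset σ, T.card ≤ 2 ∧ ∀ t, ok p t → t ∈ T
  at_le : ∀ t, ∃ P : Finset π, P.card ≤ C ∧ ∀ p, ok p t → p ∈ P
  xs_sub : ∀ t, xs t ⊆ X
  xs_card : ∀ t, (xs t).card ≤ 1
  xs_ex : ∀ e ∈ X, ∃ t, e ∈ xs t
  xs_uniq : ∀ t t' e, e ∈ xs t → e ∈ xs t' → t = t'
  z_sub : ∀ t, z t ⊆ E0
  z_ex : ∀ e ∈ E0, ∃ t, e ∈ z t
  z_uniq : ∀ t t' e, e ∈ z t → e ∈ z t' → t = t'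
  state : ∀ W : π → Finset (Sym2 V), (∀ p, Piece (gv p) (W p)) →
    (∀ p q, p ≠ q → Disjoint (W p) (W q)) → (∀ p, Disjoint (W p) (X ∪ E0)) →
    ∀ L, L ⊆ X → NW.Divis (univ.biUnion W ∪ (E0 ∪ L)) →
      ∃ loc : π → σ, (∀ p, ok p (loc p)) ∧ ∀ t, NW.Divis (siteD z xs W loc L t)

/-- OG-5 -/
def BSkStatement : Prop :=
  ∃ C : ℕ, ∀ (V : Type) [Fintype V] [DecidableEq V] (H E0 : Finset (Sym2 V)) (s s₁ : ℕ)
    (ro co : V → ℕ), NW.NL H → GridS V s ro co → 1 ≤ s₁ → s₁ ≤ s → s ≤ Fintype.card V →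
    (E0 = ∅ ∨ ∃ e₀ : Sym2 V, E0 = {e₀} ∧ e₀ ∉ H ∧ ¬ e₀.IsDiag) →
    ∃ (π σ : Type) (_ : Fintype π) (_ : Fintype σ) (_ : DecidableEq π) (_ : DecidableEq σ),
      Nonempty (BSk V (F2.Xs ro co H) E0 s₁ C π σ) ∧
      Fintype.card σ * s ≤ C * Fintype.card V ^ 2

/-! ## The items -/

/-- the items: pieces, tokens of the links, ballast tokens, tokens of the chain -/
inductive It (π σ Λ : Type) (r c cb M : ℕ) : Type where
  | pc (p : π) : It π σ Λ r c cb M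
  | lk (k : Λ) (j : Fin r) (b : Bool) (i : Fin c) : It π σ Λ r c cb M
  | bl (u : σ) (j : Fin r) (i : Fin cb) : It π σ Λ r c cb M
  | ch (i : Fin M) : It π σ Λ r c cb M
  deriving DecidableEq, Fintype

section Items

variable {V : Type} [Fintype V] [DecidableEq V] {π σ σ' Λ : Type} {r c cb M : ℕ}

/-- the properties of the items -/
def ItP (γ : Fin r → Sym2 V → ℤ) (τ : Sym2 V → ZMod 4) (gv : π → Finset V)
    (ball : σ → Fin r → ℤ) : It π σ Λ r c cb M → Finset (Sym2 V) → Prop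
  | .pc p, W => Piece (gv p) W
  | .lk _ j b _, W => NW.Divis W ∧ (∀ i, ∑ e ∈ W, γ i e =
      if i = j then (if b = true then 6 else -6) else 0) ∧ ∑ e ∈ W, τ e = 0
  | .bl u j k, W => NW.Divis W ∧ (∀ i, ∑ e ∈ W, γ i e =
      if i = j ∧ ((k : ℕ) : ℤ) < |ball u j| then 6 * (ball u j).sign else 0) ∧ ∑ e ∈ W, τ e = 0
  | .ch _, W => NW.Divis W ∧ (∀ i, ∑ e ∈ W, γ i e = 0) ∧ ∑ e ∈ W, τ e = 2

variable [Fintype π] [Fintype σ] [Fintype σ'] [Fintype Λ] [DecidableEq π] [DecidableEq σ]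
  [DecidableEq σ'] [DecidableEq Λ] {X E0 : Finset (Sym2 V)} {s C : ℕ}

/-- items at sites; `en` enumerates the sites of the chain -/
def okF (S : BSk V X E0 s C π σ) (N : Net σ σ' Λ) (en : ℕ → σ') : It π σ Λ r c cb M → σ' → Prop
  | .pc p, t => ∃ u, N.base u = t ∧ S.ok p u
  | .lk k _ _ _, t => t = N.a k ∨ t = N.b k
  | .bl u _ _, t => t = N.base u
  | .ch i, t => t = en i ∨ t = en (i + 1)

/-- the locations of the items -/
def locF (N : Net σ σ' Λ) (en : ℕ → σ') (l : π → σ) (lL : Fin r → Λ × Bool × Fin c → σ')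
    (lC : Fin M → Bool) : It π σ Λ r c cb M → σ'
  | .pc p => N.base (l p)
  | .lk k j b i => lL j (k, b, i)
  | .bl u _ _ => N.base u
  | .ch i => en (i + (if lC i = true then 1 else 0))

/-- reserve edges of the sites -/
def xsF (S : BSk V X E0 s C π σ) (N : Net σ σ' Λ) (t : σ') : Finset (Sym2 V) :=
  (univ.filter (fun u => N.base u = t)).biUnion S.xs

/-- special edges of the sites -/
def zF (S : BSk V X E0 s C π σ) (N : Net σ σ' Λ) (t : σ') : Finset (Sym2 V) :=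
  (univ.filter (fun u => N.base u = t)).biUnion S.z

/-- the chain passes through all sites which are not special, or there is no torsion -/
def ChainOK (S : BSk V X E0 s C π σ) (N : Net σ σ' Λ) (τ : Sym2 V → ZMod 4) (M : ℕ)
    (en : ℕ → σ') : Prop :=
  (M = 0 ∧ ∀ e, τ e = 0) ∨ ((∀ i j, i ≤ M → j ≤ M → en i = en j → i = j) ∧
    ∀ t, zF S N t = ∅ → ∃ i < M, en i = t)

end Items

/-- the condition at a site; `z` are the special edges of the site -/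
def Phi {V : Type} [Fintype V] [DecidableEq V] {r : ℕ} (γ : Fin r → Sym2 V → ℤ)
    (τ : Sym2 V → ZMod 4) (z D : Finset (Sym2 V)) : Prop :=
  NW.Divis (z ∪ D) ∧ (∀ j, ∑ e ∈ z ∪ D, γ j e = 0) ∧ (z = ∅ → ∑ e ∈ D, τ e = 0)

/-- embedded items `ι` with sites `σ` -/
structure Itm {V : Type} [Fintype V] [DecidableEq V] (H X E0 : Finset (Sym2 V)) (s Q C : ℕ)
    {ι σ : Type} [Fintype ι] [Fintype σ] [DecidableEq ι] [DecidableEq σ] (ok : ι → σ → Prop)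
    (xs z : σ → Finset (Sym2 V)) (W : ι → Finset (Sym2 V)) : Prop where
  W_sub : ∀ i, W i ⊆ H \ X
  W_card : ∀ i, (W i).card ≤ 12
  W_disj : ∀ i j, i ≠ j → Disjoint (W i) (W j)
  W_deg : ∀ v, NW.deg (univ.biUnion W) v * s ≤ C * Fintype.card V
  σ_card : Fintype.card σ * s ≤ C * Fintype.card V ^ 2
  ok_le : ∀ i, ∃ T : Finset σ, T.card ≤ 2 ∧ ∀ t, ok i t → t ∈ T
  at_le : ∀ t, ∃ P : Finset ι, P.card ≤ Q ∧ ∀ i, ok i t → i ∈ P
  xs_sub : ∀ t, xs t ⊆ X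
  xs_card : ∀ t, (xs t).card ≤ 1
  xs_ex : ∀ e ∈ X, ∃ t, e ∈ xs t
  xs_uniq : ∀ t t' e, e ∈ xs t → e ∈ xs t' → t = t'
  z_sub : ∀ t, z t ⊆ E0
  z_ex : ∀ e ∈ E0, ∃ t, e ∈ z t
  z_uniq : ∀ t t' e, e ∈ z t → e ∈ z t' → t = t'

/-- the absorbers of the sites -/
structure Abo {V : Type} [Fintype V] [DecidableEq V] (al : Tri V → Prop)
    (H X : Finset (Sym2 V)) {r : ℕ} (γ : Fin r → Sym2 V → ℤ) (τ : Sym2 V → ZMod 4) (s C : ℕ)
    {ι σ : Type} [Fintype ι] [Fintype σ] [DecidableEq ι] [DecidableEq σ] (ok : ι → σ → Prop)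
    (xs z : σ → Finset (Sym2 V)) (W : ι → Finset (Sym2 V)) (A : σ → Finset (Sym2 V)) : Prop where
  A_sub : ∀ t, A t ⊆ H \ (X ∪ univ.biUnion W)
  A_disj : ∀ t t', t ≠ t' → Disjoint (A t) (A t')
  A_card : ∀ t, (A t).card ≤ C
  A_div : ∀ t, NW.Divis (A t) ∧ ∀ j, ∑ e ∈ A t, γ j e = 0
  A_abs : ∀ t D, (∀ e ∈ D, e ∈ xs t ∨ ∃ i, ok i t ∧ e ∈ W i) → Phi γ τ (z t) D →
    DecA al (A t ∪ (z t ∪ D))
  A_deg : ∀ v, NW.deg (univ.biUnion A) v * s ≤ C * Fintype.card V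

/-! ## Embedding -/

/-- OG-6: the greedy algorithm in a robust host -/
def EmbGStatement : Prop :=
  ∀ (c₀ c₂ : ℕ) (η : ℝ), 0 < η → ∃ c s₀ : ℕ,
    ∀ (V : Type) [Fintype V] [DecidableEq V] (H X : Finset (Sym2 V)) (s : ℕ) (ι : Type) [Fintype ι]
      [DecidableEq ι] (G : ι → Finset V) (P : ι → Finset (Sym2 V) → Prop),
      s₀ ≤ s → c * s ≤ Fintype.card V → (∀ v, NW.deg X v * s ≤ c₀ * Fintype.card V) →
      Fintype.card ι * s ≤ c₀ * Fintype.card V ^ 2 →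
      (∀ v, (univ.filter (fun i => v ∈ G i)).card * s ≤ c₀ * Fintype.card V) →
      (∀ (i : ι) (Z : Finset (Sym2 V)) (F : Finset V), Sm η Z → SmF η F →
        ∃ A, A ⊆ H \ Z ∧ A.card ≤ c₂ ∧ (∀ v ∈ vE A, v ∈ G i ∨ v ∉ F) ∧ P i A) →
      ∃ A : ι → Finset (Sym2 V), (∀ i, A i ⊆ H \ X ∧ (A i).card ≤ c₂ ∧ P i (A i)) ∧
        (∀ i j, i ≠ j → Disjoint (A i) (A j)) ∧
        ∀ v, NW.deg (univ.biUnion A) v * s ≤ c * Fintype.card V

/-- OG-7: the pieces -/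
def PcStatement : Prop :=
  ∀ (Cs : ℕ) (η : ℝ), 0 < η → ∃ C s₀ : ℕ,
    ∀ (V : Type) [Fintype V] [DecidableEq V] (H X E0 : Finset (Sym2 V)) (s : ℕ) (π σ : Type)
      [Fintype π] [Fintype σ] [DecidableEq π] [DecidableEq σ] (S : BSk V X E0 s Cs π σ),
      PieceOK H η → (∀ v, NW.deg X v * s ≤ 4 * Fintype.card V) → s₀ ≤ s →
      C * s ≤ Fintype.card V →
      ∃ W : π → Finset (Sym2 V), (∀ p, W p ⊆ H \ X) ∧ (∀ p, Piece (S.gv p) (W p)) ∧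
        (∀ p q, p ≠ q → Disjoint (W p) (W q)) ∧
        ∀ v, NW.deg (univ.biUnion W) v * s ≤ C * Fintype.card V

/-- OG-8: the tokens -/
def TkStatement : Prop :=
  ∀ (r Cs Cw cT cb : ℕ) (η : ℝ), 0 < η → ∃ C s₀ : ℕ,
    ∀ (V : Type) [Fintype V] [DecidableEq V] (H X E0 : Finset (Sym2 V))
      (γ : Fin r → Sym2 V → ℤ) (τ : Sym2 V → ZMod 4) (s : ℕ) (π σ σ' Λ : Type)
      [Fintype π] [Fintype σ] [Fintype σ'] [Fintype Λ] [DecidableEq π]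
      [DecidableEq σ] [DecidableEq σ'] [DecidableEq Λ] (S : BSk V X E0 s Cs π σ)
      (N : Net σ σ' Λ) (M : ℕ) (W₀ : π → Finset (Sym2 V)) (ball : σ → Fin r → ℤ),
      (∀ (j : Fin r) (a : ℤ), (a = 1 ∨ a = -1) →
        TokenOK H γ τ η (fun i => if i = j then 6 * a else 0) 0) →
      (M = 0 ∨ TokenOK H γ τ η (fun _ => 0) 2) → M ≤ Fintype.card σ' →
      Fintype.card Λ ≤ 2 * Fintype.card σ' → Fintype.card σ' * s ≤ Cw * Fintype.card V ^ 2 →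
      (∀ v, NW.deg X v * s ≤ 4 * Fintype.card V) → (∀ p, W₀ p ⊆ H \ X) →
      (∀ p, Piece (S.gv p) (W₀ p)) → (∀ p q, p ≠ q → Disjoint (W₀ p) (W₀ q)) →
      (∀ v, NW.deg (univ.biUnion W₀) v * s ≤ Cw * Fintype.card V) → s₀ ≤ s →
      C * s ≤ Fintype.card V →
      ∃ W : It π σ Λ r cT cb M → Finset (Sym2 V), (∀ p, W (.pc p) = W₀ p) ∧
        (∀ x, ItP γ τ S.gv ball x (W x)) ∧ (∀ x, W x ⊆ H \ X) ∧ (∀ x, (W x).card ≤ 12) ∧
        (∀ x y, x ≠ y → Disjoint (W x) (W y)) ∧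
        ∀ v, NW.deg (univ.biUnion W) v * s ≤ C * Fintype.card V

/-- OG-9: the combinatorics of the sites -/
def ItmStatement : Prop :=
  ∀ (r Cs cT cb : ℕ), ∃ Q : ℕ,
    ∀ (V : Type) [Fintype V] [DecidableEq V] (H X E0 : Finset (Sym2 V)) (τ : Sym2 V → ZMod 4)
      (s C : ℕ) (π σ σ' Λ : Type) [Fintype π] [Fintype σ] [Fintype σ'] [Fintype Λ]
      [DecidableEq π] [DecidableEq σ] [DecidableEq σ'] [DecidableEq Λ]
      (S : BSk V X E0 s Cs π σ) (N : Net σ σ' Λ) (M : ℕ) (en : ℕ → σ')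
      (W : It π σ Λ r cT cb M → Finset (Sym2 V)), ChainOK S N τ M en →
      Fintype.card σ' * s ≤ C * Fintype.card V ^ 2 →
      (∀ x, W x ⊆ H \ X) → (∀ x, (W x).card ≤ 12) → (∀ x y, x ≠ y → Disjoint (W x) (W y)) →
      (∀ v, NW.deg (univ.biUnion W) v * s ≤ C * Fintype.card V) →
      Itm H X E0 s Q C (okF S N en) (xsF S N) (zF S N) W

/-- OG-10: the absorbers -/
def AboStatement : Prop :=
  ∀ Q : ℕ, ∃ m : ℕ, ∀ (r Cw c : ℕ) (η : ℝ), 0 < η → ∃ C s₀ : ℕ,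
    ∀ (V : Type) [Fintype V] [DecidableEq V] (al : Tri V → Prop) (H X E0 : Finset (Sym2 V))
      (γ : Fin r → Sym2 V → ℤ) (τ : Sym2 V → ZMod 4) (s : ℕ) (ι σ : Type)
      [Fintype ι] [Fintype σ] [DecidableEq ι] [DecidableEq σ] (ok : ι → σ → Prop)
      (xs z : σ → Finset (Sym2 V)) (W : ι → Finset (Sym2 V)),
      Host al H γ τ η m c → Tors al H γ τ η m c E0 → X ⊆ H →
      Itm H X E0 s Q Cw ok xs z W → (∀ v, NW.deg X v * s ≤ 4 * Fintype.card V) → s₀ ≤ s →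
      C * s ≤ Fintype.card V →
      ∃ A : σ → Finset (Sym2 V), Abo al H X γ τ s C ok xs z W A

/-! ## Ballast and states -/

/-- OG-11: deletion of a few reserve edges and the ballast; `W` are the embedded pieces -/
def BallStatement : Prop :=
  ∀ C : ℕ, ∃ cb : ℕ, ∀ (V : Type) [Fintype V] [DecidableEq V] (X E0 : Finset (Sym2 V)) (s : ℕ)
    (π σ : Type) [Fintype π] [Fintype σ] [DecidableEq π] [DecidableEq σ]
    (S : BSk V X E0 s C π σ) (r : ℕ) (γ : Fin r → Sym2 V → ℤ) (W : π → Finset (Sym2 V)),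
    E0.card ≤ 1 → (∀ p, (W p).card ≤ 4) → (∀ j e, |γ j e| ≤ 4) →
    (∃ R, R ⊆ X ∧ R.card ≤ 36 ∧
      ∀ j, 6 ∣ ∑ e ∈ (univ.biUnion W ∪ (E0 ∪ X)) \ R, γ j e) →
    Disjoint X E0 → (∀ p, Disjoint (W p) (X ∪ E0)) →
    ∃ (X' : Finset (Sym2 V)) (ball : σ → Fin r → ℤ), X' ⊆ X ∧ (X \ X').card ≤ 36 ∧
      (∀ u j, |ball u j| ≤ cb) ∧
      ∀ j, ∑ e ∈ univ.biUnion W ∪ (E0 ∪ X'), γ j e + 6 * ∑ u, ball u j = 0

/-- OG-12: the values at the base sites -/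
def ValsStatement : Prop :=
  ∀ (V : Type) [Fintype V] [DecidableEq V] (H X E0 : Finset (Sym2 V)) (s C r cb : ℕ)
    (γ : Fin r → Sym2 V → ℤ) (π σ : Type) [Fintype π] [Fintype σ] [DecidableEq π]
    [DecidableEq σ] (S : BSk V X E0 s C π σ) (ball : σ → Fin r → ℤ) (W : π → Finset (Sym2 V))
    (X' : Finset (Sym2 V)), X ⊆ H → Disjoint H E0 → E0.card ≤ 1 → X' ⊆ X →
    (∀ p, W p ⊆ H \ X) → (∀ p, Piece (S.gv p) (W p)) →
    (∀ p q, p ≠ q → Disjoint (W p) (W q)) → (∀ u j, |ball u j| ≤ cb) →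
    (∀ j e, |γ j e| ≤ 4) →
    (∀ D, D ⊆ H → NW.Divis D → ∀ j, 6 ∣ ∑ e ∈ D, γ j e) →
    (∀ D, D ⊆ H → NW.Divis (E0 ∪ D) → ∀ j, 6 ∣ ∑ e ∈ E0 ∪ D, γ j e) →
    ∀ L, L ⊆ X' → NW.Divis (univ.biUnion W ∪ (E0 ∪ L)) →
      (∀ j, ∑ e ∈ univ.biUnion W ∪ (E0 ∪ L), γ j e + 6 * ∑ u, ball u j = 0) →
      ∃ (loc : π → σ) (d : Fin r → σ → ℤ), (∀ p, S.ok p (loc p)) ∧
        (∀ u, NW.Divis (siteD S.z S.xs W loc L u)) ∧
        (∀ j u, 6 * d j u = ∑ e ∈ siteD S.z S.xs W loc L u, γ j e + 6 * ball u j) ∧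
        (∀ j u, |d j u| ≤ 4 * (4 * C + 2) + cb) ∧ ∀ j, ∑ u, d j u = 0

/-- OG-13: sums over the edges of a site -/
def SiteStatement : Prop :=
  ∀ (V : Type) [Fintype V] [DecidableEq V] (H X E0 : Finset (Sym2 V)) (s C r cT cb M : ℕ)
    (π σ σ' Λ : Type) [Fintype π] [Fintype σ] [Fintype σ'] [Fintype Λ] [DecidableEq π]
    [DecidableEq σ] [DecidableEq σ'] [DecidableEq Λ] (S : BSk V X E0 s C π σ)
    (N : Net σ σ' Λ) (en : ℕ → σ') (W : It π σ Λ r cT cb M → Finset (Sym2 V))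
    (l : π → σ) (lL : Fin r → Λ × Bool × Fin cT → σ') (lC : Fin M → Bool)
    (L : Finset (Sym2 V)), X ⊆ H → Disjoint H E0 → L ⊆ X → (∀ x, W x ⊆ H \ X) →
    (∀ x y, x ≠ y → Disjoint (W x) (W y)) → ∀ t : σ',
    (∀ (A : Type) [AddCommMonoid A] (f : Sym2 V → A),
      ∑ e ∈ siteD (zF S N) (xsF S N) W (locF N en l lL lC) L t, f e =
        ∑ u ∈ univ.filter (fun u => N.base u = t),
          (∑ e ∈ siteD S.z S.xs (fun p => W (.pc p)) l L u, f e +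
            ∑ j : Fin r, ∑ k : Fin cb, ∑ e ∈ W (.bl u j k), f e) +
        ∑ j : Fin r, ∑ x ∈ univ.filter (fun x : Λ × Bool × Fin cT => lL j x = t),
          ∑ e ∈ W (.lk x.1 j x.2.1 x.2.2), f e +
        ∑ i ∈ univ.filter (fun i : Fin M => en (i + (if lC i = true then 1 else 0)) = t),
          ∑ e ∈ W (.ch i), f e) ∧
    ((∀ u, NW.Divis (siteD S.z S.xs (fun p => W (.pc p)) l L u)) →
      (∀ k j b i, NW.Divis (W (.lk k j b i))) → (∀ u j k, NW.Divis (W (.bl u j k))) →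
      (∀ i, NW.Divis (W (.ch i))) →
      NW.Divis (siteD (zF S N) (xsF S N) W (locF N en l lL lC) L t))

/-- OG-14: the states of the full system -/
def StateFStatement : Prop :=
  ∀ (V : Type) [Fintype V] [DecidableEq V] (H X E0 : Finset (Sym2 V)) (s C r cT cb M : ℕ)
    (γ : Fin r → Sym2 V → ℤ) (τ : Sym2 V → ZMod 4) (π σ σ' Λ : Type)
    [Fintype π] [Fintype σ] [Fintype σ'] [Fintype Λ] [DecidableEq π]
    [DecidableEq σ] [DecidableEq σ'] [DecidableEq Λ] (S : BSk V X E0 s C π σ)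
    (N : Net σ σ' Λ) (en : ℕ → σ') (ball : σ → Fin r → ℤ)
    (W : It π σ Λ r cT cb M → Finset (Sym2 V)) (X' : Finset (Sym2 V)),
    ChainOK S N τ M en → X ⊆ H → Disjoint H E0 → E0.card ≤ 1 → X' ⊆ X →
    (∀ x, W x ⊆ H \ X) → (∀ x, ItP γ τ S.gv ball x (W x)) →
    (∀ x y, x ≠ y → Disjoint (W x) (W y)) →
    (∀ u j, |ball u j| ≤ cb) → (∀ j e, |γ j e| ≤ 4) →
    (∀ D, D ⊆ H → NW.Divis D → (∀ j, 6 ∣ ∑ e ∈ D, γ j e) ∧
      (∑ e ∈ D, τ e = 0 ∨ ∑ e ∈ D, τ e = 2)) →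
    (∀ D, D ⊆ H → NW.Divis (E0 ∪ D) → ∀ j, 6 ∣ ∑ e ∈ E0 ∪ D, γ j e) →
    4 * (4 * C + 2) + cb ≤ cT →
    ∀ L, L ⊆ X' → NW.Divis (univ.biUnion (fun p => W (.pc p)) ∪ (E0 ∪ L)) →
      (∀ j, ∑ e ∈ univ.biUnion (fun p => W (.pc p)) ∪ (E0 ∪ L), γ j e +
        6 * ∑ u, ball u j = 0) →
      ∃ loc : It π σ Λ r cT cb M → σ', (∀ x, okF S N en x (loc x)) ∧
        ∀ t, Phi γ τ (zF S N t)
          ((univ.filter (fun x => loc x = t)).biUnion W ∪ (L ∩ xsF S N t))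

/-- OG-15: the sum of all tokens -/
def TotStatement : Prop :=
  ∀ (V : Type) [Fintype V] [DecidableEq V] (H X E0 : Finset (Sym2 V)) (r cT cb M : ℕ)
    (γ : Fin r → Sym2 V → ℤ) (τ : Sym2 V → ZMod 4) (π σ Λ : Type)
    [Fintype π] [Fintype σ] [Fintype Λ] [DecidableEq π] [DecidableEq σ] [DecidableEq Λ]
    (gv : π → Finset V) (ball : σ → Fin r → ℤ) (W : It π σ Λ r cT cb M → Finset (Sym2 V)),
    X ⊆ H → Disjoint H E0 → (∀ x, W x ⊆ H \ X) → (∀ x, ItP γ τ gv ball x (W x)) →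
    (∀ x y, x ≠ y → Disjoint (W x) (W y)) → (∀ u j, |ball u j| ≤ cb) →
    ∀ L, L ⊆ X →
      (∀ j, ∑ e ∈ univ.biUnion W ∪ (E0 ∪ L), γ j e =
        ∑ e ∈ univ.biUnion (fun p => W (.pc p)) ∪ (E0 ∪ L), γ j e + 6 * ∑ u, ball u j) ∧
      (NW.Divis (univ.biUnion W ∪ (E0 ∪ L)) →
        NW.Divis (univ.biUnion (fun p => W (.pc p)) ∪ (E0 ∪ L)))

/-! ## The end -/

/-- OG-16: from an embedded system with states to the omni-absorber -/
def FinFStatement : Prop :=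
  ∀ Q C : ℕ, ∃ C' : ℕ, ∀ (V : Type) [Fintype V] [DecidableEq V] (al : Tri V → Prop)
    (H X E0 X' : Finset (Sym2 V)) (r : ℕ) (γ : Fin r → Sym2 V → ℤ) (τ : Sym2 V → ZMod 4) (s : ℕ)
    (ι σ : Type) [Fintype ι] [Fintype σ] [DecidableEq ι] [DecidableEq σ] (ok : ι → σ → Prop)
    (xs z : σ → Finset (Sym2 V)) (W : ι → Finset (Sym2 V)) (A : σ → Finset (Sym2 V)),
    NW.NL H → X ⊆ H → X' ⊆ X → Disjoint H E0 → E0.card ≤ 1 → s ≤ Fintype.card V →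
    (∀ v, NW.deg X v * s ≤ 4 * Fintype.card V) → Itm H X E0 s Q C ok xs z W →
    Abo al H X γ τ s C ok xs z W A →
    (∀ j, ∑ e ∈ univ.biUnion W ∪ (E0 ∪ X'), γ j e = 0) →
    (∀ L, L ⊆ X' → NW.Divis (univ.biUnion W ∪ (E0 ∪ L)) →
      (∀ j, ∑ e ∈ univ.biUnion W ∪ (E0 ∪ L), γ j e = 0) →
      ∃ loc : ι → σ, (∀ i, ok i (loc i)) ∧
        ∀ t, Phi γ τ (z t) ((univ.filter (fun i => loc i = t)).biUnion W ∪ (L ∩ xs t))) →
    ∃ (A' : Finset (Sym2 V)) (RT : Finset (Tri V)), A' ⊆ (H \ X) ∪ E0 ∧ E0 ⊆ A' ∧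
      (∀ r ∈ RT, al r ∧ NW.edg r.1 ⊆ A' ∪ X') ∧
      (∀ v, NW.deg A' v * s ≤ C' * Fintype.card V) ∧
      (∀ v, (RT.filter (fun r => v ∈ r.1)).card * s ≤ C' * Fintype.card V) ∧
      (∀ e, (RT.filter (fun r => e ∈ NW.edg r.1)).card ≤ C') ∧
      (∀ j, ∑ e ∈ A' ∪ X', γ j e = 0) ∧
      ∀ L, L ⊆ X' → NW.Divis (A' ∪ L) → (∀ j, ∑ e ∈ A' ∪ L, γ j e = 0) →
        ∃ 𝒯 : Finset (Tri V), 𝒯 ⊆ RT ∧
          (∀ T ∈ 𝒯, ∀ T' ∈ 𝒯, T ≠ T' → Disjoint (NW.edg T.1) (NW.edg T'.1)) ∧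
          𝒯.biUnion (fun T => NW.edg T.1) = A' ∪ L

end F3.OG
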