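import Pool.Agent.F3.OG.Base

/-!
# Project F3, block OG, row OG-8: embedding of the tokens
-/

set_option autoImplicit false
set_option linter.unusedSectionVars false

namespace F3.OG

open Finset NW F1 F2.O

section

variable {V : Type} [Fintype V] [DecidableEq V] {π σ Λ : Type} {r c cb M : ℕ}

/-- the items from the pieces and the tokens -/
def og8_W (W₀ : π → Finset (Sym2 V)) (A : It Empty σ Λ r c cb M → Finset (Sym2 V)) :
    It π σ Λ r c cb M → Finset (Sym2 V)
  | .pc p => W₀ p
  | .lk k j b i => A (.lk k j b i)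
  | .bl u j i => A (.bl u j i)
  | .ch i => A (.ch i)

theorem og8_cases (W₀ : π → Finset (Sym2 V)) (A : It Empty σ Λ r c cb M → Finset (Sym2 V))
    (x : It π σ Λ r c cb M) : (∃ p, og8_W W₀ A x = W₀ p) ∨ ∃ y, og8_W W₀ A x = A y := by
  cases x with
  | pc p => exact Or.inl ⟨p, rfl⟩
  | lk k j b i => exact Or.inr ⟨_, rfl⟩
  | bl u j i => exact Or.inr ⟨_, rfl⟩
  | ch i => exact Or.inr ⟨_, rfl⟩

theorem og8_disj {W₀ : π → Finset (Sym2 V)} {A : It Empty σ Λ r c cb M → Finset (Sym2 V)}
    (h1 : ∀ p q, p ≠ q → Disjoint (W₀ p) (W₀ q)) (h2 : ∀ x y, x ≠ y → Disjoint (A x) (A y))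
    (h3 : ∀ p x, Disjoint (W₀ p) (A x)) (x y : It π σ Λ r c cb M) (hxy : x ≠ y) :
    Disjoint (og8_W W₀ A x) (og8_W W₀ A y) := by
  cases x with
  | pc p =>
    cases y with
    | pc q => exact h1 p q (by rintro rfl; exact hxy rfl)
    | lk k j b i => exact h3 _ _
    | bl u j i => exact h3 _ _
    | ch i => exact h3 _ _
  | lk k j b i =>
    cases y with
    | pc q => exact (h3 _ _).symm
    | lk k j b i => exact h2 _ _ (by intro h; apply hxy; cases h; rfl)
    | bl u j i => exact h2 _ _ (by intro h; cases h)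
    | ch i => exact h2 _ _ (by intro h; cases h)
  | bl u j i =>
    cases y with
    | pc q => exact (h3 _ _).symm
    | lk k j b i => exact h2 _ _ (by intro h; cases h)
    | bl u j i => exact h2 _ _ (by intro h; apply hxy; cases h; rfl)
    | ch i => exact h2 _ _ (by intro h; cases h)
  | ch i =>
    cases y with
    | pc q => exact (h3 _ _).symm
    | lk k j b i => exact h2 _ _ (by intro h; cases h)
    | bl u j i => exact h2 _ _ (by intro h; cases h)
    | ch i => exact h2 _ _ (by intro h; apply hxy; cases h; rfl)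

/-- every token exists robustly -/
theorem og8_ex {H : Finset (Sym2 V)} {γ : Fin r → Sym2 V → ℤ} {τ : Sym2 V → ZMod 4} {η : ℝ}
    (ball : σ → Fin r → ℤ)
    (htok : ∀ (j : Fin r) (a : ℤ), (a = 1 ∨ a = -1) →
      TokenOK H γ τ η (fun i => if i = j then 6 * a else 0) 0)
    (htor : M = 0 ∨ TokenOK H γ τ η (fun _ => 0) 2) (x : It Empty σ Λ r c cb M)
    (Z : Finset (Sym2 V)) (F : Finset V) (hZ : Sm η Z) (hF : SmF η F) :
    ∃ A, A ⊆ H \ Z ∧ A.card ≤ 12 ∧ (∀ v ∈ vE A, v ∈ (∅ : Finset V) ∨ v ∉ F) ∧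
      ItP γ τ (fun _ => ∅) ball x A := by
  cases x with
  | pc p => exact p.elim
  | lk k j b i =>
    obtain ⟨W, h1, h2, h3, h4, h5, h6⟩ := htok j (if b = true then 1 else -1)
      (by split_ifs <;> simp) Z F hZ hF
    refine ⟨W, h1, h3, fun v hv => Or.inr (h4 v hv), h2, fun i' => ?_, h6⟩
    rw [h5 i']
    show (if i' = j then 6 * (if b = true then (1 : ℤ) else -1) else 0) = _
    by_cases hij : i' = j
    · rw [if_pos hij, if_pos hij]
      by_cases hb : b = true
      · rw [if_pos hb, if_pos hb]; norm_num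
      · rw [if_neg hb, if_neg hb]; norm_num
    · rw [if_neg hij, if_neg hij]
  | bl u j k =>
    by_cases hk : ((k : ℕ) : ℤ) < |ball u j|
    · have h0 : ball u j ≠ 0 := by
        intro h0
        rw [h0, abs_zero] at hk
        omega
      have hs : (ball u j).sign = 1 ∨ (ball u j).sign = -1 := by
        rcases lt_or_gt_of_ne h0 with h | h
        · exact Or.inr (Int.sign_eq_neg_one_of_neg h)
        · exact Or.inl (Int.sign_eq_one_of_pos h)
      obtain ⟨W, h1, h2, h3, h4, h5, h6⟩ := htok j _ hs Z F hZ hF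
      refine ⟨W, h1, h3, fun v hv => Or.inr (h4 v hv), h2, fun i' => ?_, h6⟩
      rw [h5 i']
      simp only [hk, and_true]
    · refine ⟨∅, empty_subset _, by simp, fun v hv => ?_, divis_empty, fun i' => ?_, by simp⟩
      · rw [vE_empty] at hv
        exact absurd hv (notMem_empty v)
      · rw [if_neg (fun hh => hk hh.2), sum_empty]
  | ch i =>
    rcases htor with hM | htor
    · subst hM
      exact i.elim0
    · obtain ⟨W, h1, h2, h3, h4, h5, h6⟩ := htor Z F hZ hF
      exact ⟨W, h1, h3, fun v hv => Or.inr (h4 v hv), h2, h5, h6⟩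

end

/-- row OG-8 -/
theorem tk (h : EmbGStatement) : TkStatement := by
  intro r Cs Cw cT cb η hη
  obtain ⟨c, s₀, hc⟩ := h (4 + Cw + (4 * r * cT + r * cb + 1) * Cw) 12 η hη
  refine ⟨c + Cw, s₀, ?_⟩
  intro V _ _ H X E0 γ τ s π σ σ' Λ _ _ _ _ _ _ _ _ S N M W₀ ball htok htor hM hΛ hσ' hX hW₀
    hPi hdj hdeg hs hCs
  have hσσ' : Fintype.card σ ≤ Fintype.card σ' := Fintype.card_le_of_injective N.base N.inj
  obtain ⟨A, hA1, hA2, hA3⟩ := hc V H (X ∪ univ.biUnion W₀) s (It Empty σ Λ r cT cb M)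
    (fun _ => ∅) (fun x W => ItP γ τ (fun _ => ∅) ball x W) hs
    ((Nat.mul_le_mul_right s (Nat.le_add_right c Cw)).trans hCs)
    (by
      intro v
      have h1 := deg_union_le X (univ.biUnion W₀) v
      have h2 := hX v
      have h3 := hdeg v
      calc NW.deg (X ∪ univ.biUnion W₀) v * s
          ≤ (NW.deg X v + NW.deg (univ.biUnion W₀) v) * s := Nat.mul_le_mul_right s h1
        _ = NW.deg X v * s + NW.deg (univ.biUnion W₀) v * s := by ring
        _ ≤ 4 * Fintype.card V + Cw * Fintype.card V := Nat.add_le_add h2 h3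
        _ ≤ (4 + Cw + (4 * r * cT + r * cb + 1) * Cw) * Fintype.card V := by
            rw [← add_mul]
            exact Nat.mul_le_mul_right _ (Nat.le_add_right _ _))
    (by
      rw [card_it, Fintype.card_empty, zero_add]
      have h1 : Fintype.card Λ * (r * (2 * cT)) + (Fintype.card σ * (r * cb) + M) ≤
          (4 * r * cT + r * cb + 1) * Fintype.card σ' := by
        calc Fintype.card Λ * (r * (2 * cT)) + (Fintype.card σ * (r * cb) + M)
            ≤ (2 * Fintype.card σ') * (r * (2 * cT)) +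
              (Fintype.card σ' * (r * cb) + Fintype.card σ') :=
              Nat.add_le_add (Nat.mul_le_mul_right _ hΛ)
                (Nat.add_le_add (Nat.mul_le_mul_right _ hσσ') hM)
          _ = (4 * r * cT + r * cb + 1) * Fintype.card σ' := by ring
      calc (Fintype.card Λ * (r * (2 * cT)) + (Fintype.card σ * (r * cb) + M)) * s
          ≤ ((4 * r * cT + r * cb + 1) * Fintype.card σ') * s := Nat.mul_le_mul_right s h1
        _ = (4 * r * cT + r * cb + 1) * (Fintype.card σ' * s) := by ring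
        _ ≤ (4 * r * cT + r * cb + 1) * (Cw * Fintype.card V ^ 2) := Nat.mul_le_mul_left _ hσ'
        _ = ((4 * r * cT + r * cb + 1) * Cw) * Fintype.card V ^ 2 := by ring
        _ ≤ _ := Nat.mul_le_mul_right _ (Nat.le_add_left _ _))
    (by intro v; simp)
    (fun x Z F hZ hF => og8_ex ball htok htor x Z F hZ hF)
  have hAX : ∀ x, A x ⊆ H \ X := fun x =>
    (hA1 x).1.trans (sdiff_subset_sdiff subset_rfl subset_union_left)
  have hWA : ∀ p x, Disjoint (W₀ p) (A x) := by
    intro p x
    rw [disjoint_left]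
    intro e he he'
    exact (mem_sdiff.1 ((hA1 x).1 he')).2 (mem_union_right _ (mem_biUnion.2 ⟨p, mem_univ _, he⟩))
  refine ⟨og8_W W₀ A, fun p => rfl, ?_, ?_, ?_, og8_disj hdj hA2 hWA, ?_⟩
  · intro x
    cases x with
    | pc p => exact hPi p
    | lk k j b i => exact (hA1 (.lk k j b i)).2.2
    | bl u j i => exact (hA1 (.bl u j i)).2.2
    | ch i => exact (hA1 (.ch i)).2.2
  · intro x
    rcases og8_cases W₀ A x with ⟨p, hp⟩ | ⟨y, hy⟩
    · rw [hp]; exact hW₀ p
    · rw [hy]; exact hAX y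
  · intro x
    rcases og8_cases W₀ A x with ⟨p, hp⟩ | ⟨y, hy⟩
    · rw [hp]; exact (hPi p).card_le.trans (by norm_num)
    · rw [hy]; exact (hA1 y).2.1
  · intro v
    have h1 : univ.biUnion (og8_W W₀ A) ⊆ univ.biUnion W₀ ∪ univ.biUnion A := by
      intro e he
      obtain ⟨x, _, hx⟩ := mem_biUnion.1 he
      rcases og8_cases W₀ A x with ⟨p, hp⟩ | ⟨y, hy⟩
      · rw [hp] at hx
        exact mem_union_left _ (mem_biUnion.2 ⟨p, mem_univ _, hx⟩)
      · rw [hy] at hx
        exact mem_union_right _ (mem_biUnion.2 ⟨y, mem_univ _, hx⟩)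
    have h2 := (deg_mono h1 v).trans (deg_union_le _ _ v)
    calc NW.deg (univ.biUnion (og8_W W₀ A)) v * s
        ≤ (NW.deg (univ.biUnion W₀) v + NW.deg (univ.biUnion A) v) * s :=
          Nat.mul_le_mul_right s h2
      _ = NW.deg (univ.biUnion A) v * s + NW.deg (univ.biUnion W₀) v * s := by ring
      _ ≤ c * Fintype.card V + Cw * Fintype.card V := Nat.add_le_add (hA3 v) (hdeg v)
      _ = (c + Cw) * Fintype.card V := by ring

end F3.OG
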